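import Mathlib

/-!
The algebra `Cub e = B[u_1, …, u_r, w] / (∑ u_j e_j - w (1 - w))`.
-/

set_option autoImplicit false

open MvPolynomial

namespace Pool.Agent.K6.H18.Cubic

section
variable {B : Type} [CommRing B] {r : ℕ}

/-- The relation `∑ u_j e_j - w (1 - w)`. -/
noncomputable def rel (e : Fin r → B) : MvPolynomial (Option (Fin r)) B :=
  ∑ j, X (some j) * C (e j) - X none * (1 - X none)

/-- `B[u_1, …, u_r, w] / (∑ u_j e_j - w (1 - w))` -/
def Cub (e : Fin r → B) : Type := MvPolynomial (Option (Fin r)) B ⧸ Ideal.span {rel e}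

noncomputable instance (e : Fin r → B) : CommRing (Cub e) :=
  inferInstanceAs (CommRing (MvPolynomial (Option (Fin r)) B ⧸ Ideal.span {rel e}))

noncomputable instance (k : Type) [CommRing k] [Algebra k B] (e : Fin r → B) :
    Algebra k (Cub e) :=
  inferInstanceAs (Algebra k (MvPolynomial (Option (Fin r)) B ⧸ Ideal.span {rel e}))

end

namespace Cub

variable {k : Type} [CommRing k] {B : Type} [CommRing B] [Algebra k B] {r : ℕ} (e : Fin r → B)

/-- the coordinate `u_j` -/
noncomputable def u (j : Fin r) : Cub e := Ideal.Quotient.mk _ (X (some j))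

/-- the coordinate `w` -/
noncomputable def w : Cub e := Ideal.Quotient.mk _ (X none)

variable (k) in
/-- the projection to `Spec B` -/
noncomputable def p : B →ₐ[k] Cub e :=
  (Ideal.Quotient.mkₐ k (Ideal.span {rel e})).comp
    (IsScalarTower.toAlgHom k B (MvPolynomial (Option (Fin r)) B))

lemma p_apply (b : B) : p k e b = Ideal.Quotient.mk (Ideal.span {rel e}) (C b) := rfl

lemma relation : ∑ j, u e j * p k e (e j) = w e * (1 - w e) := by
  have h : Ideal.Quotient.mk (Ideal.span {rel e}) (rel e) = 0 :=
    Ideal.Quotient.eq_zero_iff_mem.2 (Ideal.subset_span rfl)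
  unfold rel at h
  rw [map_sub, map_sum, sub_eq_zero] at h
  simp only [map_mul, map_sub, map_one] at h
  exact h

variable {e}

/-- universal property -/
noncomputable def lift {D : Type} [CommRing D] [Algebra k D] (β : B →ₐ[k] D) (u' : Fin r → D)
    (w' : D) (h : ∑ j, u' j * β (e j) = w' * (1 - w')) : Cub e →ₐ[k] D :=
  Ideal.Quotient.liftₐ (Ideal.span {rel e})
    { eval₂Hom (β : B →+* D) (fun o : Option (Fin r) => Option.elim o w' u') with
      commutes' := fun a => by
        show eval₂Hom (β : B →+* D) (fun o : Option (Fin r) => Option.elim o w' u')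
          (algebraMap k (MvPolynomial (Option (Fin r)) B) a) = _
        rw [IsScalarTower.algebraMap_apply k B (MvPolynomial (Option (Fin r)) B),
          MvPolynomial.algebraMap_eq]
        simp }
    (by
      intro x hx
      have h1 : Ideal.span {rel e} ≤ RingHom.ker (eval₂Hom (β : B →+* D) (fun o : Option (Fin r) => Option.elim o w' u')) := by
        rw [Ideal.span_le, Set.singleton_subset_iff]
        show eval₂Hom (β : B →+* D) (fun o : Option (Fin r) => Option.elim o w' u') (rel e) = 0
        unfold rel
        simp [h]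
      exact h1 hx)

section
variable {D : Type} [CommRing D] [Algebra k D] (β : B →ₐ[k] D) (u' : Fin r → D)
    (w' : D) (h : ∑ j, u' j * β (e j) = w' * (1 - w'))

@[simp] lemma lift_p (b : B) : lift β u' w' h (p k e b) = β b := by
  show eval₂Hom (β : B →+* D) (fun o : Option (Fin r) => Option.elim o w' u') (C b) = _
  simp

@[simp] lemma lift_comp_p : (lift β u' w' h).comp (p k e) = β := AlgHom.ext (lift_p β u' w' h)

@[simp] lemma lift_u (j : Fin r) : lift β u' w' h (u e j) = u' j := by
  show eval₂Hom (β : B →+* D) (fun o : Option (Fin r) => Option.elim o w' u') (X (some j)) = _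
  simp

@[simp] lemma lift_w : lift β u' w' h (w e) = w' := by
  show eval₂Hom (β : B →+* D) (fun o : Option (Fin r) => Option.elim o w' u') (X none) = _
  simp

end

/-- two homomorphisms which agree on `B`, `u_j`, `w` are equal -/
lemma ringHom_ext {D : Type} [CommRing D] {f g : Cub e →+* D}
    (h1 : ∀ b, f (p ℤ e b) = g (p ℤ e b)) (h2 : ∀ j, f (u e j) = g (u e j))
    (h3 : f (w e) = g (w e)) : f = g := by
  refine Ideal.Quotient.ringHom_ext (MvPolynomial.ringHom_ext h1 ?_)
  rintro (_ | j)
  · exact h3
  · exact h2 j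

lemma algHom_ext {D : Type} [CommRing D] [Algebra k D] {f g : Cub e →ₐ[k] D}
    (h1 : ∀ b, f (p k e b) = g (p k e b)) (h2 : ∀ j, f (u e j) = g (u e j))
    (h3 : f (w e) = g (w e)) : f = g :=
  AlgHom.coe_ringHom_injective (ringHom_ext h1 h2 h3)

/-- functoriality in `B` -/
noncomputable def map {B' : Type} [CommRing B'] [Algebra k B'] (g : B →ₐ[k] B') {e' : Fin r → B'}
    (he : ∀ j, e' j = g (e j)) : Cub e →ₐ[k] Cub e' :=
  lift ((p k e').comp g) (u e') (w e') (by
    simp only [AlgHom.comp_apply, ← he]
    exact relation e')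

section
variable {B' : Type} [CommRing B'] [Algebra k B'] (g : B →ₐ[k] B') {e' : Fin r → B'}
    (he : ∀ j, e' j = g (e j))

@[simp] lemma map_p (b : B) : map g he (p k e b) = p k e' (g b) := by simp [map]
@[simp] lemma map_u (j : Fin r) : map g he (u e j) = u e' j := by simp [map]
@[simp] lemma map_w : map g he (w e) = w e' := by simp [map]

lemma map_comp_p : (map g he).comp (p k e) = (p k e').comp g := AlgHom.ext fun b => by simp

end

/-- the ring is generated by `B`, `u_j`, `w` -/
lemma surjective_of {D : Type} [CommRing D] [Algebra k D] (f : D →ₐ[k] Cub e)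
    (h1 : ∀ b, p k e b ∈ f.range) (h2 : ∀ j, u e j ∈ f.range) (h3 : w e ∈ f.range) :
    Function.Surjective f := by
  intro x
  obtain ⟨x, rfl⟩ := Ideal.Quotient.mk_surjective x
  show _ ∈ f.range
  induction x using MvPolynomial.induction_on with
  | C b => exact h1 b
  | add p q hp hq => rw [map_add]; exact add_mem hp hq
  | mul_X p i hp =>
    rw [map_mul]
    refine mul_mem hp ?_
    obtain _ | j := i
    · exact h3
    · exact h2 j

lemma map_surjective {B' : Type} [CommRing B'] [Algebra k B'] (g : B →ₐ[k] B') {e' : Fin r → B'}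
    (he : ∀ j, e' j = g (e j)) (hg : Function.Surjective g) : Function.Surjective (map g he) := by
  refine surjective_of _ (fun b => ?_) (fun j => ⟨u e j, by simp⟩) ⟨w e, by simp⟩
  obtain ⟨b, rfl⟩ := hg b
  exact ⟨p k e b, by simp⟩

/-- the kernel of the base change along a surjection -/
lemma ker_map {B' : Type} [CommRing B'] [Algebra k B'] (g : B →ₐ[k] B') {e' : Fin r → B'}
    (he : ∀ j, e' j = g (e j)) (hg : Function.Surjective g) :
    RingHom.ker (map g he) = (RingHom.ker g).map (p k e) := by
  apply le_antisymm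
  · set J : Ideal (Cub e) := (RingHom.ker g).map (p k e) with hJ
    -- inverse map
    have hgJ : ∀ b ∈ RingHom.ker g, ((Ideal.Quotient.mkₐ k J).comp (p k e)) b = 0 := by
      intro b hb
      rw [AlgHom.comp_apply, Ideal.Quotient.mkₐ_eq_mk, Ideal.Quotient.eq_zero_iff_mem]
      exact Ideal.mem_map_of_mem _ hb
    let β : B' →ₐ[k] Cub e ⧸ J := AlgHom.liftOfSurjective g hg ((Ideal.Quotient.mkₐ k J).comp (p k e)) hgJ
    have hβ : ∀ b, β (g b) = Ideal.Quotient.mk J (p k e b) := fun b => by
      exact AlgHom.liftOfSurjective_apply g hg _ hgJ b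
    let inv : Cub e' →ₐ[k] Cub e ⧸ J := lift β (fun j => Ideal.Quotient.mk J (u e j))
      (Ideal.Quotient.mk J (w e)) (by
        simp only [he, hβ]
        rw [← map_one (Ideal.Quotient.mk J), ← map_sub, ← map_mul, ← relation (k := k) e, map_sum]
        simp only [map_mul])
    have hinv : inv.comp (map g he) = Ideal.Quotient.mkₐ k J := by
      apply algHom_ext
      · intro b; simp [inv, hβ]
      · intro j; simp [inv]
      · simp [inv]
    intro x hx
    have h1 : map g he x = 0 := hx
    have h2 := DFunLike.congr_fun hinv x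
    rw [AlgHom.comp_apply, h1, map_zero, Ideal.Quotient.mkₐ_eq_mk] at h2
    exact Ideal.Quotient.eq_zero_iff_mem.1 h2.symm
  · rw [Ideal.map_le_iff_le_comap]
    intro b hb
    show map g he (p k e b) = 0
    rw [map_p, show g b = 0 from hb, map_zero]

end Cub

end Pool.Agent.K6.H18.Cubic
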