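import Pool.Agent.K6.H18.Cubic.Geo

/-!
Borel-Moore homology theories on affine schemes of finite type, in terms of bundled algebras.
-/

set_option autoImplicit false

open MvPolynomial AlgebraicGeometry CategoryTheory

namespace Pool.Agent.K6.H18.Cubic

open Alg

section
variable {k : Type} [CommRing k]

/-- the unbundled form of a theory -/
noncomputable def BM.toBorelMoore (T : BM k) : BorelMoore k where
  H B _ _ a b := T.H ⟨B⟩ a b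
  grp B _ _ a b := T.grp ⟨B⟩ a b
  push {B C} _ _ _ _ φ h a b := T.push (B := ⟨B⟩) (C := ⟨C⟩) φ h a b
  pull {B C} _ _ _ _ ψ d h _ _ hb a := T.pull (B := ⟨B⟩) (C := ⟨C⟩) ψ d h hb a
  bdry {B C} _ _ _ _ f φ h h' a b := T.bdry (B := ⟨B⟩) (C := ⟨C⟩) f φ ⟨h, h'⟩ a b
  push_comp {B C D} _ _ _ _ _ _ hB φ φ' h h' h'' a b x :=
    T.push_comp (B := ⟨B⟩) (C := ⟨C⟩) (D := ⟨D⟩) hB φ φ' h h' h'' a b x
  pull_comp {B C D} _ _ _ _ _ _ hB ψ ψ' d d' d'' h h' h'' _ _ _ hb hb' hb'' a x :=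
    T.pull_comp (B := ⟨B⟩) (C := ⟨C⟩) (D := ⟨D⟩) hB ψ ψ' d d' d'' h h' h'' hb hb' hb'' a x
  base_change {B C B' C'} _ _ _ _ _ _ _ _ hB φ hφ ψ φ' hφ' ψ' h1 h2 d h h' _ _ hb a x :=
    T.base_change (B := ⟨B⟩) (C := ⟨C⟩) (B' := ⟨B'⟩) (C' := ⟨C'⟩) hB φ hφ ψ φ' hφ' ψ' ⟨h1, h2⟩
      d h h' hb a x
  bdry_natural {B C B' C'} _ _ _ _ _ _ _ _ hB f φ hφ hf ψ φ' hφ' hf' ψ' h1 d h h' h'' _ _ hb a x :=
    T.bdry_natural (B := ⟨B⟩) (C := ⟨C⟩) (B' := ⟨B'⟩) (C' := ⟨C'⟩) hB f φ ⟨hφ, hf⟩ ψ φ'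
      ⟨hφ', hf'⟩ ψ' ⟨h1, by
        show RingHom.ker φ' = (RingHom.ker φ).map ψ
        rw [hf', hf, Ideal.map_span, Set.image_singleton]⟩ d h h' h'' hb a x
  exact_base {B C} _ _ _ _ hB f φ hφ hf h a b hb :=
    T.exact_base (B := ⟨B⟩) (C := ⟨C⟩) hB f φ ⟨hφ, hf⟩ h a b hb
  exact_open {B C} _ _ _ _ hB f φ hφ hf h a b hb :=
    T.exact_open (B := ⟨B⟩) (C := ⟨C⟩) hB f φ ⟨hφ, hf⟩ h a b hb
  exact_closed {B C} _ _ _ _ hB f φ hφ hf a b :=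
    T.exact_closed (B := ⟨B⟩) (C := ⟨C⟩) hB f φ ⟨hφ, hf⟩ a b
  homotopy {B C} _ _ _ _ hB r σ ψ hψ h _ _ hb a := by
    let σ' : MvPolynomial (Fin r) B ≃ₐ[k] C := AlgEquiv.ofRingEquiv (f := σ) (fun t => by
      rw [IsScalarTower.algebraMap_apply k B (MvPolynomial (Fin r) B),
        MvPolynomial.algebraMap_eq, ← hψ]
      exact ψ.commutes t)
    have h1 : ψ = (σ' : MvPolynomial (Fin r) B →ₐ[k] C).comp (const k B r) :=
      AlgHom.ext fun x => hψ x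
    have h2 : ∀ (ψ' : B →ₐ[k] C), ψ' = (σ' : MvPolynomial (Fin r) B →ₐ[k] C).comp (const k B r) →
        ∀ h : SmoothRel r (ψ' : B →+* C),
          Function.Bijective (T.pull (B := ⟨B⟩) (C := ⟨C⟩) ψ' r h hb a) := by
      intro ψ' hψ'
      subst hψ'
      intro h
      exact T.homotopy (B := ⟨B⟩) (C := ⟨C⟩) hB r σ' h hb a
    exact h2 ψ h1 h

/-- the unbundled form of a morphism -/
noncomputable def BM.Hom.toHom {M T : BM k} (c : M.Hom T) :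
    M.toBorelMoore.Hom T.toBorelMoore where
  map B _ _ a b := c.map ⟨B⟩ a b
  map_push {B C} _ _ _ _ hB φ h a b x := c.map_push (B := ⟨B⟩) (C := ⟨C⟩) hB φ h a b x
  map_pull {B C} _ _ _ _ hB ψ d h _ _ hb a x :=
    c.map_pull (B := ⟨B⟩) (C := ⟨C⟩) hB ψ d h hb a x

end

end Pool.Agent.K6.H18.Cubic
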