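import Mathlib

/-!
Definitions for the reduction to cubic hypersurfaces: the hypersurfaces, and Borel-Moore homology
theories on affine schemes of finite type.
-/

set_option autoImplicit false

open MvPolynomial AlgebraicGeometry CategoryTheory

namespace Pool.Agent.K6.H18.Cubic

/-! ### The hypersurfaces -/

/-- The elementary polynomials in the variables `x_i`: `x_a - x_b x_c`, `x_a - (x_b + x_c)`,
`x_a - 1` and `x_a - s`, with `s` in `S`; the indices `a`, `b`, `c` need not be distinct. -/
def Elem {k : Type} [CommRing k] (S : Set k) (ι : Type) : Set (MvPolynomial ι k) :=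
  {p | ∃ a b c : ι, p = X a - X b * X c ∨ p = X a - (X b + X c) ∨ p = X a - 1 ∨
    ∃ s ∈ S, p = X a - C s}

section
variable {k : Type} [CommRing k] {m r : ℕ}

/-- The polynomial `∑ u_j e_j(x_1, …, x_m) - w (1 - w)` in the variables `u_j = X (inl (some j))`,
`w = X (inl none)`, `x_i = X (inr i)`. -/
noncomputable def poly (e : Fin r → MvPolynomial (Fin m) k) :
    MvPolynomial (Option (Fin r) ⊕ Fin m) k :=
  ∑ j, X (Sum.inl (some j)) * rename Sum.inr (e j) -
    X (Sum.inl none) * (1 - X (Sum.inl none))

/-- The coordinate ring of the hypersurface `∑ u_j e_j(x) = w (1 - w)`. -/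
abbrev Hyp (e : Fin r → MvPolynomial (Fin m) k) : Type :=
  MvPolynomial (Option (Fin r) ⊕ Fin m) k ⧸ Ideal.span {poly e}

/-- the functions of the `x_i` on the hypersurface -/
noncomputable def xHyp (e : Fin r → MvPolynomial (Fin m) k) :
    MvPolynomial (Fin m) k →ₐ[k] Hyp e :=
  (Ideal.Quotient.mkₐ k (Ideal.span {poly e})).comp (rename Sum.inr)

end

/-! ### Affine schemes, closed immersions, smooth morphisms -/

/-- `Spec C → Spec B` is smooth of relative dimension `d`. -/
def SmoothRel {B C : Type} [CommRing B] [CommRing C] (d : ℕ) (ψ : B →+* C) : Prop :=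
  SmoothOfRelativeDimension d (Spec.map (CommRingCat.ofHom ψ))

/-- the localization map -/
noncomputable def loc (k : Type) [CommRing k] {B : Type} [CommRing B] [Algebra k B] (f : B) :
    B →ₐ[k] Localization.Away f := IsScalarTower.toAlgHom k B (Localization.Away f)

/-- the constants -/
noncomputable def const (k : Type) [CommRing k] (B : Type) [CommRing B] [Algebra k B] (r : ℕ) :
    B →ₐ[k] MvPolynomial (Fin r) B := IsScalarTower.toAlgHom k B (MvPolynomial (Fin r) B)

/-- Commutative algebras over `k`; the scheme in question is `Spec` of the ring. -/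
structure Alg (k : Type) [CommRing k] where
  /-- the ring -/
  ring : Type
  [commRing : CommRing ring]
  [algebra : Algebra k ring]

attribute [instance] Alg.commRing Alg.algebra

namespace Alg
variable {k : Type} [CommRing k]

/-- Homomorphisms `B → C`, that is, morphisms `Spec C → Spec B`. -/
def Map (B C : Alg k) : Type := B.ring →ₐ[k] C.ring

/-- the homomorphism of algebras -/
def Map.app {B C : Alg k} (ψ : Map B C) : B.ring →ₐ[k] C.ring := ψ

/-- the value at an element of `B` -/
def Map.val {B C : Alg k} (ψ : Map B C) (x : B.ring) : C.ring := ψ.app x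

/-- composition -/
def Map.comp {B C D : Alg k} (ψ' : Map C D) (ψ : Map B C) : Map B D := AlgHom.comp ψ'.app ψ.app

/-- `Spec C → Spec B` is a closed immersion -/
def Map.IsClosed {B C : Alg k} (φ : Map B C) : Prop := Function.Surjective φ.app

/-- `Spec C → Spec B` is smooth of relative dimension `d` -/
def Map.IsSmooth {B C : Alg k} (ψ : Map B C) (d : ℕ) : Prop := SmoothRel d (ψ.app : B.ring →+* C.ring)

/-- `B` is of finite type over `k` -/
def IsFiniteType (B : Alg k) : Prop := Algebra.FiniteType k B.ring

/-- `Spec C` is the closed subscheme of `Spec B` defined by the function `f` -/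
def Map.IsCutBy {B C : Alg k} (φ : Map B C) (f : B.ring) : Prop :=
  φ.IsClosed ∧ RingHom.ker φ.app = Ideal.span {f}

/-- the open subscheme `f ≠ 0` -/
def away (B : Alg k) (f : B.ring) : Alg k := ⟨Localization.Away f⟩

/-- the inclusion of the open subscheme `f ≠ 0` -/
noncomputable def toAway (B : Alg k) (f : B.ring) : Map B (B.away f) := loc k f

/-- the restriction to the open subschemes `f ≠ 0` -/
noncomputable def Map.away {B C : Alg k} (ψ : Map B C) (f : B.ring) :
    Map (B.away f) (C.away (ψ.val f)) :=
  Localization.awayMapₐ ψ.app f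

/-- The square of `φ : B → C`, `ψ : B → B'`, `φ' : B' → C'`, `ψ' : C → C'` commutes and, `φ` and
`φ'` being surjective, is cocartesian: `Spec C'` is the preimage of `Spec C` in `Spec B'`. -/
def IsSquare {B C B' C' : Alg k} (φ : Map B C) (ψ : Map B B') (φ' : Map B' C') (ψ' : Map C C') :
    Prop :=
  φ'.comp ψ = ψ'.comp φ ∧ RingHom.ker φ'.app = (RingHom.ker φ.app).map ψ.app

/-- affine space of dimension `r` over `Spec B` -/
noncomputable def poly (B : Alg k) (r : ℕ) : Alg k := ⟨MvPolynomial (Fin r) B.ring⟩

/-- the projection of the affine space -/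
noncomputable def toPoly (B : Alg k) (r : ℕ) : Map B (B.poly r) := const k B.ring r

/-- isomorphisms -/
def Iso (B C : Alg k) : Type := B.ring ≃ₐ[k] C.ring

/-- an isomorphism as a map -/
def Iso.map {B C : Alg k} (σ : Iso B C) : Map B C :=
  AlgEquiv.toAlgHom (show B.ring ≃ₐ[k] C.ring from σ)

/-- `k` as an algebra over itself -/
def base (k : Type) [CommRing k] : Alg k := ⟨k⟩

end Alg

open Alg

/-- The data of a Borel-Moore homology theory on the affine schemes of finite type over `k`.
`H B a b` is the group of `Spec B` in degree `a + 2 b` and weight `b`. -/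
structure BMD (k : Type) [CommRing k] where
  /-- the groups -/
  H : Alg k → ℤ → ℤ → Type
  [grp : ∀ (B : Alg k) (a b : ℤ), AddCommGroup (H B a b)]
  /-- push-forward along closed immersions -/
  push : ∀ {B C : Alg k} (φ : Map B C), φ.IsClosed → ∀ a b : ℤ, H C a b →+ H B a b
  /-- pull-back along morphisms which are smooth of relative dimension `d` -/
  pull : ∀ {B C : Alg k} (ψ : Map B C) (d : ℕ), ψ.IsSmooth d → ∀ {b b' : ℤ}, b' = b + d →
    ∀ a : ℤ, H B a b →+ H C a b'
  /-- the boundary map from the open subscheme `f ≠ 0` to the closed subscheme `f = 0` -/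
  bdry : ∀ {B C : Alg k} (f : B.ring) (φ : Map B C), φ.IsCutBy f →
    ∀ a b : ℤ, H (B.away f) (a + 1) b →+ H C a b

attribute [instance] BMD.grp

namespace BMD
variable {k : Type} [CommRing k] (T : BMD k)

/-- the push-forward of an element -/
def pushf {B C : Alg k} (φ : Map B C) (h : φ.IsClosed) {a b : ℤ} (x : T.H C a b) : T.H B a b :=
  T.push φ h a b x

/-- the pull-back of an element -/
def pullf {B C : Alg k} (ψ : Map B C) {d : ℕ} (h : ψ.IsSmooth d) {a b b' : ℤ} (hb : b' = b + d)
    (x : T.H B a b) : T.H C a b' :=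
  T.pull ψ d h hb a x

/-- the boundary of an element -/
def bdryf {B C : Alg k} (f : B.ring) (φ : Map B C) (h : φ.IsCutBy f) {a b : ℤ}
    (x : T.H (B.away f) (a + 1) b) : T.H C a b :=
  T.bdry f φ h a b x

/-- push-forward is functorial -/
def PushComp : Prop :=
  ∀ {B C D : Alg k}, B.IsFiniteType → ∀ (φ : Map B C) (φ' : Map C D) (h : φ.IsClosed)
    (h' : φ'.IsClosed) (h'' : (φ'.comp φ).IsClosed) (a b : ℤ) (x : T.H D a b),
    T.pushf (φ'.comp φ) h'' x = T.pushf φ h (T.pushf φ' h' x)

/-- pull-back is functorial -/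
def PullComp : Prop :=
  ∀ {B C D : Alg k}, B.IsFiniteType → ∀ (ψ : Map B C) (ψ' : Map C D) (d d' d'' : ℕ)
    (h : ψ.IsSmooth d) (h' : ψ'.IsSmooth d') (h'' : (ψ'.comp ψ).IsSmooth d'') {b b' b'' : ℤ}
    (hb : b' = b + d) (hb' : b'' = b' + d') (hb'' : b'' = b + d'') (a : ℤ) (x : T.H B a b),
    T.pullf (ψ'.comp ψ) h'' hb'' x = T.pullf ψ' h' hb' (T.pullf ψ h hb x)

/-- base change for a closed immersion and a smooth morphism -/
def BaseChange : Prop :=
  ∀ {B C B' C' : Alg k}, B.IsFiniteType → ∀ (φ : Map B C) (hφ : φ.IsClosed) (ψ : Map B B')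
    (φ' : Map B' C') (hφ' : φ'.IsClosed) (ψ' : Map C C'), IsSquare φ ψ φ' ψ' →
    ∀ (d : ℕ) (h : ψ.IsSmooth d) (h' : ψ'.IsSmooth d) {b b' : ℤ} (hb : b' = b + d) (a : ℤ)
    (x : T.H C a b),
    T.pullf ψ h hb (T.pushf φ hφ x) = T.pushf φ' hφ' (T.pullf ψ' h' hb x)

/-- the boundary map commutes with smooth pull-back -/
def BdryNatural : Prop :=
  ∀ {B C B' C' : Alg k}, B.IsFiniteType → ∀ (f : B.ring) (φ : Map B C) (hf : φ.IsCutBy f)
    (ψ : Map B B') (φ' : Map B' C') (hf' : φ'.IsCutBy (ψ.val f)) (ψ' : Map C C'),
    IsSquare φ ψ φ' ψ' → ∀ (d : ℕ), ψ.IsSmooth d → ∀ (h' : ψ'.IsSmooth d)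
    (h'' : (ψ.away f).IsSmooth d) {b b' : ℤ} (hb : b' = b + d) (a : ℤ)
    (x : T.H (B.away f) (a + 1) b),
    T.bdryf (ψ.val f) φ' hf' (T.pullf (ψ.away f) h'' hb x) = T.pullf ψ' h' hb (T.bdryf f φ hf x)

/-- exactness of the localization sequence at the group of `Spec B` -/
def ExactBase : Prop :=
  ∀ {B C : Alg k}, B.IsFiniteType → ∀ (f : B.ring) (φ : Map B C) (hf : φ.IsCutBy f)
    (h : (B.toAway f).IsSmooth 0) (a b : ℤ) (hb : b = b + (0 : ℕ)),
    Function.Exact (T.pushf φ hf.1 (a := a) (b := b)) (T.pullf (B.toAway f) h hb (a := a))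

/-- exactness of the localization sequence at the group of the open subscheme `f ≠ 0` -/
def ExactOpen : Prop :=
  ∀ {B C : Alg k}, B.IsFiniteType → ∀ (f : B.ring) (φ : Map B C) (hf : φ.IsCutBy f)
    (h : (B.toAway f).IsSmooth 0) (a b : ℤ) (hb : b = b + (0 : ℕ)),
    Function.Exact (T.pullf (B.toAway f) h hb (a := a + 1)) (T.bdryf f φ hf (a := a) (b := b))

/-- exactness of the localization sequence at the group of the closed subscheme `f = 0` -/
def ExactClosed : Prop :=
  ∀ {B C : Alg k}, B.IsFiniteType → ∀ (f : B.ring) (φ : Map B C) (hf : φ.IsCutBy f) (a b : ℤ),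
    Function.Exact (T.bdryf f φ hf (a := a) (b := b)) (T.pushf φ hf.1 (a := a) (b := b))

/-- pull-back to affine spaces is bijective -/
def Homotopy : Prop :=
  ∀ {B C : Alg k}, B.IsFiniteType → ∀ (r : ℕ) (σ : Iso (B.poly r) C)
    (h : (σ.map.comp (B.toPoly r)).IsSmooth r) {b b' : ℤ} (hb : b' = b + r) (a : ℤ),
    Function.Bijective (T.pullf (σ.map.comp (B.toPoly r)) h hb (a := a))

end BMD

/-- Borel-Moore homology theories on the affine schemes of finite type over `k`. -/
structure BM (k : Type) [CommRing k] extends BMD k where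
  push_comp : toBMD.PushComp
  pull_comp : toBMD.PullComp
  base_change : toBMD.BaseChange
  bdry_natural : toBMD.BdryNatural
  exact_base : toBMD.ExactBase
  exact_open : toBMD.ExactOpen
  exact_closed : toBMD.ExactClosed
  homotopy : toBMD.Homotopy

/-- Families of homomorphisms between the groups of two theories. -/
structure HomD {k : Type} [CommRing k] (M T : BMD k) where
  /-- the homomorphisms -/
  map : ∀ (B : Alg k) (a b : ℤ), M.H B a b →+ T.H B a b

namespace HomD
variable {k : Type} [CommRing k] {M T : BMD k} (c : HomD M T)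

/-- the image of an element -/
def mapf {B : Alg k} {a b : ℤ} (x : M.H B a b) : T.H B a b := c.map B a b x

/-- compatibility with push-forward -/
def MapPush : Prop :=
  ∀ {B C : Alg k}, B.IsFiniteType → ∀ (φ : Map B C) (h : φ.IsClosed) (a b : ℤ)
    (x : M.H C a b), c.mapf (M.pushf φ h x) = T.pushf φ h (c.mapf x)

/-- compatibility with pull-back -/
def MapPull : Prop :=
  ∀ {B C : Alg k}, B.IsFiniteType → ∀ (ψ : Map B C) (d : ℕ) (h : ψ.IsSmooth d)
    {b b' : ℤ} (hb : b' = b + d) (a : ℤ) (x : M.H B a b),
    c.mapf (M.pullf ψ h hb x) = T.pullf ψ h hb (c.mapf x)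

end HomD

/-- Morphisms of theories: they commute with push-forward and pull-back. -/
structure BM.Hom {k : Type} [CommRing k] (M T : BM k) extends HomD M.toBMD T.toBMD where
  map_push : toHomD.MapPush
  map_pull : toHomD.MapPull

/-! ### Properties of the hypersurfaces, and varieties which are not affine -/

section
variable {k : Type} [CommRing k] {m r : ℕ}

/-- The hypersurface `∑ u_j e_j(x) = w (1 - w)` in affine space. -/
noncomputable def Hypersurface (e : Fin r → MvPolynomial (Fin m) k) : Alg k := ⟨Hyp e⟩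

/-- its projection to the affine space with coordinates `x_i` -/
noncomputable def projection (e : Fin r → MvPolynomial (Fin m) k) :
    Map ((base k).poly m) (Hypersurface e) := xHyp e

/-- the structure morphism to `Spec k` -/
noncomputable def toBase (B : Alg k) : Map (base k) B := Algebra.ofId k B.ring

/-- `∑ u_j e_j(x) = w (1 - w)` is a smooth integral affine hypersurface of degree at most three,
of dimension `m + r`, and it is rational: the open subscheme `f(x) ≠ 0` is isomorphic to the open
subscheme `f(x) ≠ 0` of affine space, for some polynomial `f ≠ 0`. -/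
structure IsRationalHypersurface (e : Fin r → MvPolynomial (Fin m) k) : Prop where
  degree : (Cubic.poly e).totalDegree ≤ 3
  smooth : (toBase (Hypersurface e)).IsSmooth (m + r)
  integral : IsDomain (Hypersurface e).ring
  rational : ∃ f : ((base k).poly m).ring, f ≠ 0 ∧
    Nonempty (Alg.Iso ((((base k).poly m).away f).poly r)
      ((Hypersurface e).away ((projection e).val f)))

/-- The equations are elementary: there is at least one, and each is of one of the forms
`x_a - x_b x_c`, `x_a - (x_b + x_c)`, `x_a - 1`, `x_a - s` with `s` in `S`. -/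
def IsElementary (S : Set k) (e : Fin r → MvPolynomial (Fin m) k) : Prop :=
  0 < r ∧ ∀ j, e j ∈ Elem S (Fin m)

/-- `Spec B` as a scheme over `k` -/
noncomputable def specOf (B : Alg k) : Over (Spec (CommRingCat.of k)) :=
  Over.mk (Spec.map (CommRingCat.ofHom (algebraMap k B.ring)))

/-- Smooth varieties over `k`: separated, of finite type and smooth. -/
def IsSmoothVariety {k : Type} [CommRing k] (X : Over (Spec (CommRingCat.of k))) : Prop :=
  IsSeparated X.hom ∧ LocallyOfFiniteType X.hom ∧ QuasiCompact X.hom ∧ Smooth X.hom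

/-- The trick of Jouanolou and Thomason for the class `𝒱` of varieties: `TX X b` is the instance of
the conjecture for the variety `X` and cycles of dimension `b`, and `P B b` the one for the affine
variety `Spec B`. Every variety in `𝒱` has a torsor under a vector bundle, of some rank `s`, which
is an affine variety `Spec B`, so that `TX X b` is equivalent to `P B (b + s)`. -/
structure IsExtensionOf (P : Alg k → ℤ → Prop) (𝒱 : Over (Spec (CommRingCat.of k)) → Prop)
    (TX : Over (Spec (CommRingCat.of k)) → ℤ → Prop) : Prop where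
  affine_mem : ∀ B : Alg k, B.IsFiniteType → 𝒱 (specOf B)
  affine_iff : ∀ B : Alg k, B.IsFiniteType → ∀ b : ℤ, TX (specOf B) b ↔ P B b
  torsor : ∀ X, 𝒱 X → ∃ (B : Alg k) (s : ℕ), B.IsFiniteType ∧ ∀ b : ℤ, TX X b ↔ P B (b + s)

end

end Pool.Agent.K6.H18.Cubic
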