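import Pool.Agent.K6.H18.Cubic.Bundled

/-!
The reduction to the hypersurfaces, in terms of bundled algebras.
-/

set_option autoImplicit false

open MvPolynomial AlgebraicGeometry CategoryTheory

namespace Pool.Agent.K6.H18.Cubic

open Alg

section
variable {k : Type} [CommRing k] {m r : ℕ}

lemma IsExtensionOf.isExtension {P : Alg k → ℤ → Prop} {𝒱 : Over (Spec (CommRingCat.of k)) → Prop}
    {TX : Over (Spec (CommRingCat.of k)) → ℤ → Prop} (h : IsExtensionOf P 𝒱 TX) :
    IsExtension (fun (B : Type) [CommRing B] [Algebra k B] b => P ⟨B⟩ b) 𝒱 TX where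
  affine_mem B _ _ hB := h.affine_mem ⟨B⟩ hB
  affine_iff B _ _ hB b := h.affine_iff ⟨B⟩ hB b
  torsor X hX := by
    obtain ⟨B, s, hB, hb⟩ := h.torsor X hX
    exact ⟨B.ring, B.commRing, B.algebra, hB, s, hb⟩

lemma isRationalHypersurface [IsDomain k] {S : Set k} (e : Fin r → MvPolynomial (Fin m) k)
    (he : IsElementary S e) : IsRationalHypersurface e := by
  have h := isRationalCubic he.1 e he.2
  exact ⟨h.degree, h.smooth, h.integral, h.rational⟩

end

section
variable {k : Type} [Field k] {S : Set k} (hS : Subfield.closure S = ⊤) {P : Alg k → ℤ → Prop}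
  (hP : Splits (fun (B : Type) [CommRing B] [Algebra k B] b => P ⟨B⟩ b))
  (hk : ∀ b, P (base k) b) {𝒱 : Over (Spec (CommRingCat.of k)) → Prop}
  {TX : Over (Spec (CommRingCat.of k)) → ℤ → Prop} (hTX : IsExtensionOf P 𝒱 TX)
include hS hP hk hTX

/-- The reduction to the hypersurfaces, instance by instance. -/
theorem exists_hypersurface (X : Over (Spec (CommRingCat.of k))) (hX : 𝒱 X) :
    ∃ (m r n : ℕ) (e : Fin r → MvPolynomial (Fin m) k), IsElementary S e ∧
      IsRationalHypersurface e ∧ ∀ b, TX X b ↔ TX (specOf (Hypersurface e)) (b + n) := by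
  obtain ⟨m, r, n, e, hr, he, -, h⟩ := hP.exists_cubic hS hk hTX.isExtension X hX
  exact ⟨m, r, n, e, ⟨hr, he⟩, isRationalHypersurface e ⟨hr, he⟩, h⟩

/-- The reduction to the hypersurfaces. -/
theorem tfae_hypersurface :
    List.TFAE [
      ∀ X, 𝒱 X → IsSmoothVariety X → ∀ b, TX X b,
      ∀ X, 𝒱 X → ∀ b, TX X b,
      ∀ (m r : ℕ) (e : Fin r → MvPolynomial (Fin m) k), IsElementary S e →
        ∀ b, TX (specOf (Hypersurface e)) b] := by
  have h := hP.tfae hS hk hTX.isExtension
  have h01 := h.out 0 1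
  have h12 := h.out 1 2
  tfae_have 1 ↔ 2 := h01
  tfae_have 2 ↔ 3 := by
    rw [h12]
    exact ⟨fun h m r e he => h m r e he.1 he.2, fun h m r e hr he => h m r e ⟨hr, he⟩⟩
  tfae_finish

end

/-- A property of a pair of theories which is compatible with the decomposition. -/
lemma IsAdditive.splits_bundled {k : Type} [CommRing k] {M T : BM k} (c : M.Hom T) {G : Type}
    (act : G → T.Hom T)
    {Q : ∀ {A H : Type} [AddCommGroup A] [AddCommGroup H], (A →+ H) → (G → H →+ H) → Prop}
    (hQ : IsAdditive (G := G) Q) (a : ℤ) :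
    Splits (fun (B : Type) [CommRing B] [Algebra k B] b =>
      Q (c.map ⟨B⟩ a b) (fun g => (act g).map ⟨B⟩ a b)) :=
  hQ.splits c.toHom (fun g => (act g).toHom) a

end Pool.Agent.K6.H18.Cubic
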