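import Pool.Agent.K6.H18.Cubic.Free2

/-!
The reduction to the hypersurfaces, with few constants, for varieties which need not be affine.
-/

set_option autoImplicit false

open MvPolynomial AlgebraicGeometry CategoryTheory

namespace Pool.Agent.K6.H18.Cubic

open Alg

/-- A property of a pair of theories which is compatible with the decomposition. -/
lemma IsAdditive.splitsP_bundled {k : Type} [CommRing k] {M T : BM k} (c : M.Hom T) {G : Type}
    (act : G → T.Hom T)
    {Q : ∀ {A H : Type} [AddCommGroup A] [AddCommGroup H], (A →+ H) → (G → H →+ H) → Prop}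
    (hQ : IsAdditive (G := G) Q) (a : ℤ) :
    SplitsP (fun (B : Type) [CommRing B] [Algebra k B] b =>
      Q (c.map ⟨B⟩ a b) (fun g => (act g).map ⟨B⟩ a b)) :=
  hQ.splitsP c.toHom (fun g => (act g).toHom) a

lemma isFiniteType_hypersurface {k : Type} [CommRing k] {m r : ℕ}
    (e : Fin r → MvPolynomial (Fin m) k) : (Hypersurface e).IsFiniteType :=
  (inferInstance : Algebra.FiniteType k (Hyp e))

section
variable {k : Type} [Field k] {S : Set k} {P : Alg k → ℤ → Prop}
  (hP : SplitsP (fun (B : Type) [CommRing B] [Algebra k B] b => P ⟨B⟩ b))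
  (hk : ∀ b, P (base k) b) {𝒱 : Over (Spec (CommRingCat.of k)) → Prop}
  {TX : Over (Spec (CommRingCat.of k)) → ℤ → Prop} (hTX : IsExtensionOf P 𝒱 TX)
include hP hk hTX

/-- Arbitrary constants: equivalence, instance by instance. -/
theorem exists_iff (X : Over (Spec (CommRingCat.of k))) (hX : 𝒱 X) :
    ∃ (m r n : ℕ) (e : Fin r → MvPolynomial (Fin m) k), IsElementary Set.univ e ∧
      IsRationalHypersurface e ∧ ∀ b, TX X b ↔ TX (specOf (Hypersurface e)) (b + n) := by
  obtain ⟨B, s, hB, hb⟩ := hTX.torsor X hX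
  obtain ⟨m, r, e, he, h⟩ := exists_hypersurface_univ B hB
  refine ⟨m, r, s + r, e, he, isRationalHypersurface e he, fun b => ?_⟩
  rw [hTX.affine_iff _ (isFiniteType_hypersurface e), hb, h P hP.toSplits hk,
    Nat.cast_add, add_assoc]

/-- Constants in `S`: every instance follows from an instance of a hypersurface. -/
theorem exists_imp [Algebra.IsSeparable (Subfield.closure S) k]
    (X : Over (Spec (CommRingCat.of k))) (hX : 𝒱 X) :
    ∃ (m r n : ℕ) (e : Fin r → MvPolynomial (Fin m) k), IsElementary S e ∧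
      IsRationalHypersurface e ∧ ∀ b, TX (specOf (Hypersurface e)) (b + n) → TX X b := by
  obtain ⟨B, s, hB, hb⟩ := hTX.torsor X hX
  obtain ⟨m, r, e, he, h⟩ := exists_hypersurface_free (S := S) B hB
  refine ⟨m, r, s + r, e, he, isRationalHypersurface e he, fun b h1 => ?_⟩
  rw [hTX.affine_iff _ (isFiniteType_hypersurface e), Nat.cast_add, ← add_assoc] at h1
  exact (hb b).2 (h P hP hk _ h1)

/-- The reduction to the hypersurfaces with constants in `S`. -/
theorem tfae_free [Algebra.IsSeparable (Subfield.closure S) k] :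
    List.TFAE [
      ∀ X, 𝒱 X → IsSmoothVariety X → ∀ b, TX X b,
      ∀ X, 𝒱 X → ∀ b, TX X b,
      ∀ (m r : ℕ) (e : Fin r → MvPolynomial (Fin m) k), IsElementary S e →
        ∀ b, TX (specOf (Hypersurface e)) b] := by
  tfae_have 1 → 3 := fun h m r e _ b =>
    h _ (hTX.affine_mem _ (isFiniteType_hypersurface e)) (isSmoothVariety_hyp e) b
  tfae_have 3 → 2 := by
    intro h X hX b
    obtain ⟨m, r, n, e, he, -, hb⟩ := exists_imp (S := S) hP hk hTX X hX
    exact hb b (h m r e he _)
  tfae_have 2 → 1 := fun h X hX _ b => h X hX b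
  tfae_finish

end

end Pool.Agent.K6.H18.Cubic
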