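import Pool.Agent.K6.H18.Cubic.Final2

/-!
Two properties at the same time, and the properties in question over finite fields.
-/

set_option autoImplicit false

open MvPolynomial AlgebraicGeometry CategoryTheory

namespace Pool.Agent.K6.H18.Cubic

open Alg

/-- The trick of Jouanolou and Thomason for the class `𝒱` of varieties and two statements: `TP X b`
and `TQ X b` are the instances of two conjectures for the variety `X` and cycles of dimension `b`,
and `P B b`, `Q B b` those for the affine variety `Spec B`. Every variety in `𝒱` has a torsor under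
a vector bundle, of some rank `s`, which is an affine variety `Spec B`, so that `TX X b` is
equivalent to `P B (b + s)`, and `TQ X b` to `Q B (b + s)`. -/
structure IsExtensionOfTwo {k : Type} [CommRing k] (P Q : Alg k → ℤ → Prop)
    (𝒱 : Over (Spec (CommRingCat.of k)) → Prop)
    (TP TQ : Over (Spec (CommRingCat.of k)) → ℤ → Prop) : Prop where
  affine_mem : ∀ B : Alg k, B.IsFiniteType → 𝒱 (specOf B)
  affine_iff : ∀ B : Alg k, B.IsFiniteType → ∀ b : ℤ,
    (TP (specOf B) b ↔ P B b) ∧ (TQ (specOf B) b ↔ Q B b)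
  torsor : ∀ X, 𝒱 X → ∃ (B : Alg k) (s : ℕ), B.IsFiniteType ∧ ∀ b : ℤ,
    (TP X b ↔ P B (b + s)) ∧ (TQ X b ↔ Q B (b + s))

lemma IsExtensionOfTwo.fst {k : Type} [CommRing k] {P Q : Alg k → ℤ → Prop}
    {𝒱 : Over (Spec (CommRingCat.of k)) → Prop}
    {TP TQ : Over (Spec (CommRingCat.of k)) → ℤ → Prop} (h : IsExtensionOfTwo P Q 𝒱 TP TQ) :
    IsExtensionOf P 𝒱 TP :=
  ⟨h.affine_mem, fun B hB b => (h.affine_iff B hB b).1, fun X hX => by
    obtain ⟨B, s, hB, hb⟩ := h.torsor X hX
    exact ⟨B, s, hB, fun b => (hb b).1⟩⟩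

lemma IsExtensionOfTwo.snd {k : Type} [CommRing k] {P Q : Alg k → ℤ → Prop}
    {𝒱 : Over (Spec (CommRingCat.of k)) → Prop}
    {TP TQ : Over (Spec (CommRingCat.of k)) → ℤ → Prop} (h : IsExtensionOfTwo P Q 𝒱 TP TQ) :
    IsExtensionOf Q 𝒱 TQ :=
  ⟨h.affine_mem, fun B hB b => (h.affine_iff B hB b).2, fun X hX => by
    obtain ⟨B, s, hB, hb⟩ := h.torsor X hX
    exact ⟨B, s, hB, fun b => (hb b).2⟩⟩

section
variable {k : Type} [Field k] {S : Set k} {P Q : Alg k → ℤ → Prop}
  (hP : SplitsP (fun (B : Type) [CommRing B] [Algebra k B] b => P ⟨B⟩ b))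
  (hQ : SplitsP (fun (B : Type) [CommRing B] [Algebra k B] b => Q ⟨B⟩ b))
  (hkP : ∀ b, P (base k) b) (hkQ : ∀ b, Q (base k) b)
  {𝒱 : Over (Spec (CommRingCat.of k)) → Prop}
  {TP TQ : Over (Spec (CommRingCat.of k)) → ℤ → Prop} (hT : IsExtensionOfTwo P Q 𝒱 TP TQ)
include hP hQ hkP hkQ hT

/-- Constants in a generating set: equivalence, instance by instance. -/
theorem exists_iff_two (hS : Subfield.closure S = ⊤) (X : Over (Spec (CommRingCat.of k)))
    (hX : 𝒱 X) :
    ∃ (m r n : ℕ) (e : Fin r → MvPolynomial (Fin m) k), IsElementary S e ∧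
      IsRationalHypersurface e ∧ ∀ b, (TP X b ↔ TP (specOf (Hypersurface e)) (b + n)) ∧
        (TQ X b ↔ TQ (specOf (Hypersurface e)) (b + n)) := by
  obtain ⟨B, s, hB, hb⟩ := hT.torsor X hX
  have hft : Algebra.FiniteType k B.ring := hB
  obtain ⟨m, r, e, hr, he, h⟩ := exists_hyp hS B.ring
  refine ⟨m, r, s + r, e, ⟨hr, he⟩, isRationalHypersurface e ⟨hr, he⟩, fun b => ?_⟩
  have h1 := h (fun B _ _ b => P ⟨B⟩ b) hP.toSplits hkP (b + s)
  have h2 := h (fun B _ _ b => Q ⟨B⟩ b) hQ.toSplits hkQ (b + s)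
  rw [(hT.affine_iff _ (isFiniteType_hypersurface e) _).1,
    (hT.affine_iff _ (isFiniteType_hypersurface e) _).2, (hb b).1, (hb b).2, Nat.cast_add,
    ← add_assoc]
  exact ⟨h1, h2⟩

/-- Constants in `S`: every instance follows from an instance of a hypersurface. -/
theorem exists_imp_two [Algebra.IsSeparable (Subfield.closure S) k]
    (X : Over (Spec (CommRingCat.of k))) (hX : 𝒱 X) :
    ∃ (m r n : ℕ) (e : Fin r → MvPolynomial (Fin m) k), IsElementary S e ∧
      IsRationalHypersurface e ∧ ∀ b, (TP (specOf (Hypersurface e)) (b + n) → TP X b) ∧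
        (TQ (specOf (Hypersurface e)) (b + n) → TQ X b) := by
  obtain ⟨B, s, hB, hb⟩ := hT.torsor X hX
  obtain ⟨m, r, e, he, h⟩ := exists_hypersurface_free (S := S) B hB
  refine ⟨m, r, s + r, e, he, isRationalHypersurface e he, fun b => ⟨fun h1 => ?_, fun h1 => ?_⟩⟩
  · rw [(hT.affine_iff _ (isFiniteType_hypersurface e) _).1, Nat.cast_add, ← add_assoc] at h1
    exact (hb b).1.2 (h P hP hkP _ h1)
  · rw [(hT.affine_iff _ (isFiniteType_hypersurface e) _).2, Nat.cast_add, ← add_assoc] at h1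
    exact (hb b).2.2 (h Q hQ hkQ _ h1)

end

lemma isAdditive_fixed : IsAdditive (G := Unit)
    (fun {A H} _ _ (c : A →+ H) g => Function.Injective c ∧ ∀ y : H, g () y = y →
      ∃ x, c x = y) where
  iso α η c c' g g' h1 h2 h := by
    refine ⟨(isAdditive_injective (G := Unit)).iso α η c c' g g' h1 h2 h.1, fun y hy => ?_⟩
    obtain ⟨y, rfl⟩ := η.surjective y
    obtain ⟨x, hx⟩ := h.2 y (η.injective (by rw [← h2]; exact hy))
    exact ⟨α x, by rw [h1, hx]⟩
  prod c c' g g' := by
    constructor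
    · intro h
      have h0 := ((isAdditive_injective (G := Unit)).prod c c' g g').1 h.1
      refine ⟨⟨h0.1, fun y hy => ?_⟩, ⟨h0.2, fun y hy => ?_⟩⟩
      · obtain ⟨x, hx⟩ := h.2 (y, 0) (by simp [hy])
        exact ⟨x.1, congrArg Prod.fst hx⟩
      · obtain ⟨x, hx⟩ := h.2 (0, y) (by simp [hy])
        exact ⟨x.2, congrArg Prod.snd hx⟩
    · rintro ⟨h1, h2⟩
      refine ⟨((isAdditive_injective (G := Unit)).prod c c' g g').2 ⟨h1.1, h2.1⟩, fun y hy => ?_⟩
      obtain ⟨x, hx⟩ := h1.2 y.1 (congrArg Prod.fst hy)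
      obtain ⟨x', hx'⟩ := h2.2 y.2 (congrArg Prod.snd hy)
      exact ⟨(x, x'), Prod.ext hx hx'⟩

lemma isAdditive_eigenvalue : IsAdditive (G := Unit)
    (fun {A H} _ _ (_ : A →+ H) g => ∀ y : H, g () (g () y - y) = g () y - y → g () y = y) where
  iso α η c c' g g' h1 h2 h := by
    intro y hy
    obtain ⟨y, rfl⟩ := η.surjective y
    rw [h2, ← map_sub, h2] at hy
    rw [h2, h y (η.injective hy)]
  prod c c' g g' := by
    constructor
    · intro h
      refine ⟨fun y hy => ?_, fun y hy => ?_⟩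
      · have := h (y, 0) (by simpa using hy)
        exact congrArg Prod.fst this
      · have := h (0, y) (by simpa using hy)
        exact congrArg Prod.snd this
    · rintro ⟨h1, h2⟩ y hy
      exact Prod.ext (h1 y.1 (congrArg Prod.fst hy)) (h2 y.2 (congrArg Prod.snd hy))

lemma isSeparable_of_finite (k : Type) [Field k] [Finite k] (S : Set k) :
    Algebra.IsSeparable (Subfield.closure S) k := by
  have h1 : Finite (Subfield.closure S) := inferInstance
  have h2 : Algebra.IsAlgebraic (Subfield.closure S) k := inferInstance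
  infer_instance

lemma isSeparable_of_numberField (k : Type) [Field k] [NumberField k] (S : Set k) :
    Algebra.IsSeparable (Subfield.closure S) k := by
  have h2 : Algebra.IsAlgebraic (Subfield.closure S) k :=
    Algebra.IsAlgebraic.tower_top (K := ℚ) (Subfield.closure S)
  infer_instance

end Pool.Agent.K6.H18.Cubic
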