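import Pool.Agent.K6.H18.Cubic.Idem

/-!
Equations with fewer constants: if the field `k` is a separable algebraic extension of the subfield
generated by `S`, then every algebra of finite type over `k` is a direct factor of the quotient of a
polynomial ring by elementary polynomials with constants in `S`.
-/

set_option autoImplicit false

open MvPolynomial

namespace Pool.Agent.K6.H18.Cubic

/-- Compatibility with disjoint unions. -/
structure SplitsP {k : Type} [CommRing k] (P : ∀ (B : Type) [CommRing B] [Algebra k B], ℤ → Prop) :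
    Prop extends Splits P where
  prod : ∀ {B C₁ C₂ : Type} [CommRing B] [Algebra k B] [CommRing C₁] [Algebra k C₁]
    [CommRing C₂] [Algebra k C₂] [Algebra.FiniteType k B] (f : B), f * f = f →
    ∀ (φ₁ : B →ₐ[k] C₁) (φ₂ : B →ₐ[k] C₂), Function.Surjective φ₁ → Function.Surjective φ₂ →
    RingHom.ker φ₁ = Ideal.span {1 - f} → RingHom.ker φ₂ = Ideal.span {f} → ∀ {b : ℤ},
    (P B b ↔ P C₁ b ∧ P C₂ b)

theorem SplitsP.and {k : Type} [CommRing k]
    {P P' : ∀ (B : Type) [CommRing B] [Algebra k B], ℤ → Prop} (h : SplitsP P)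
    (h' : SplitsP P') : SplitsP (fun (B : Type) [CommRing B] [Algebra k B] b => P B b ∧ P' B b) where
  toSplits := h.toSplits.and h'.toSplits
  prod f hf φ₁ φ₂ h₁ h₂ k₁ k₂ _ := by
    rw [h.prod f hf φ₁ φ₂ h₁ h₂ k₁ k₂, h'.prod f hf φ₁ φ₂ h₁ h₂ k₁ k₂]
    tauto

theorem IsAdditive.splitsP {k : Type} [CommRing k] {M T : BorelMoore k} (c : M.Hom T) {G : Type}
    (act : G → T.Hom T)
    {Q : ∀ {A H : Type} [AddCommGroup A] [AddCommGroup H], (A →+ H) → (G → H →+ H) → Prop}
    (hQ : IsAdditive (G := G) Q) (a : ℤ) :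
    SplitsP (fun (B : Type) [CommRing B] [Algebra k B] b =>
      Q (c.map B a b) (fun g => (act g).map B a b)) where
  toSplits := hQ.splits c act a
  prod {B C₁ C₂} _ _ _ _ _ _ _ f hf φ₁ φ₂ h₁ h₂ hk₁ hk₂ b := by
    have hM := M.prod_bijective f hf φ₁ φ₂ h₁ h₂ hk₁ hk₂ a b
    have hT := T.prod_bijective f hf φ₁ φ₂ h₁ h₂ hk₁ hk₂ a b
    let α := AddEquiv.ofBijective ((M.push φ₁ h₁ a b).coprod (M.push φ₂ h₂ a b)) hM
    let η := AddEquiv.ofBijective ((T.push φ₁ h₁ a b).coprod (T.push φ₂ h₂ a b)) hT
    have h1 : ∀ x, c.map B a b (α x) = η ((c.map C₁ a b).prodMap (c.map C₂ a b) x) := by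
      intro x
      show c.map B a b (M.push φ₁ h₁ a b x.1 + M.push φ₂ h₂ a b x.2) =
        T.push φ₁ h₁ a b (c.map C₁ a b x.1) + T.push φ₂ h₂ a b (c.map C₂ a b x.2)
      rw [map_add, c.map_push, c.map_push]
    have h2 : ∀ g y, (act g).map B a b (η y) =
        η (((act g).map C₁ a b).prodMap ((act g).map C₂ a b) y) := by
      intro g y
      show (act g).map B a b (T.push φ₁ h₁ a b y.1 + T.push φ₂ h₂ a b y.2) =
        T.push φ₁ h₁ a b ((act g).map C₁ a b y.1) + T.push φ₂ h₂ a b ((act g).map C₂ a b y.2)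
      rw [map_add, (act g).map_push, (act g).map_push]
    rw [← hQ.prod]
    constructor
    · refine hQ.iso α.symm η.symm _ _ _ _ (fun x => ?_) (fun g y => ?_)
      · rw [AddEquiv.eq_symm_apply, ← h1, AddEquiv.apply_symm_apply]
      · rw [AddEquiv.eq_symm_apply, ← h2, AddEquiv.apply_symm_apply]
    · exact hQ.iso α η _ _ _ _ h1 h2

section
variable {k : Type} [Field k] {S : Set k} {ι₀ A : Type} [CommRing A] [Algebra k A] {v₀ : ι₀ → A}

lemma addable_of_mem {t : k} (ht : t ∈ Subfield.closure S) : Addable S v₀ (algebraMap k A t) := by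
  induction ht using Subfield.closure_induction with
  | mem x hx => exact addable_mem x hx
  | one => rw [map_one]; exact addable_one
  | add x y _ _ hx hy => rw [map_add]; exact hx.add hy
  | neg x _ hx => rw [map_neg]; exact hx.neg
  | inv x _ hx =>
    by_cases h : x = 0
    · subst h; rw [inv_zero, map_zero]; exact addable_zero
    · exact hx.inv h
  | mul x y _ _ hx hy => rw [map_mul]; exact hx.mul hy

lemma Addable.pow {a : A} (h : Addable S v₀ a) (n : ℕ) : Addable S v₀ (a ^ n) := by
  induction n with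
  | zero => rw [pow_zero]; exact addable_one
  | succ n ih => rw [pow_succ]; exact ih.mul h

lemma Addable.sum {f : ℕ → A} (s : Finset ℕ) (h : ∀ n, Addable S v₀ (f n)) :
    Addable S v₀ (∑ n ∈ s, f n) := by
  classical
  induction s using Finset.induction_on with
  | empty => rw [Finset.sum_empty]; exact addable_zero
  | insert a s ha ih => rw [Finset.sum_insert ha]; exact (h a).add ih

lemma Addable.aeval {p : Polynomial k} (hp : ∀ n, p.coeff n ∈ Subfield.closure S) {a : A}
    (h : Addable S v₀ a) : Addable S v₀ (Polynomial.aeval a p) := by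
  rw [Polynomial.aeval_eq_sum_range]
  refine Addable.sum _ fun n => ?_
  rw [Algebra.smul_def]
  exact (addable_of_mem (hp n)).mul (h.pow n)

/-- Finitely many addable elements can be added. -/
lemma exists_pres_of_addable (hv : IsPres S v₀) [Finite ι₀] {s : Set A} (hs : s.Finite)
    (hadd : ∀ a ∈ s, Addable S v₀ a) :
    ∃ (κ : Type) (_ : Finite κ) (w : κ → A), IsPres S w ∧ s ⊆ Set.range w := by
  have : ∃ (κ : Type) (_ : Finite κ) (w : κ → A), IsPres S w ∧ Extends v₀ w ∧
      s ⊆ Set.range w := by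
    induction s, hs using Set.Finite.induction_on with
    | empty => exact ⟨ι₀, inferInstance, v₀, hv, Extends.refl _, Set.empty_subset _⟩
    | @insert a s _ _ ih =>
      obtain ⟨κ, _, w, hw, h₀, hsw⟩ := ih fun a ha => hadd a (Set.mem_insert_of_mem _ ha)
      obtain ⟨μ, _, u, hu, hwu, hau⟩ := hadd a (Set.mem_insert _ _) κ w hw h₀
      exact ⟨μ, inferInstance, u, hu, h₀.trans hwu,
        Set.insert_subset hau fun x hx ↦ hwu.mem (hsw hx)⟩
  obtain ⟨κ, i, w, h1, _, h2⟩ := this
  exact ⟨κ, i, w, h1, h2⟩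

/-- If the ideal of relations is generated by finitely many addable elements, there is an elementary
presentation. -/
theorem exists_pres_of_relations (A : Type) [CommRing A] [Algebra k A] {n : ℕ}
    (f : MvPolynomial (Fin n) k →ₐ[k] A) (hf : Function.Surjective f)
    (s₀ : Finset (MvPolynomial (Fin n) k))
    (hs₀ : Ideal.span (s₀ : Set (MvPolynomial (Fin n) k)) = RingHom.ker f)
    (hadd : ∀ p ∈ s₀, Addable S (X : Fin n → MvPolynomial (Fin n) k) p) :
    ∃ (m r : ℕ) (e : Fin r → MvPolynomial (Fin m) k) (π : MvPolynomial (Fin m) k →ₐ[k] A),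
      0 < r ∧ (∀ j, e j ∈ Elem S (Fin m)) ∧ Function.Surjective π ∧
        RingHom.ker π = Ideal.span (Set.range e) := by
  classical
  suffices h : ∃ (m : ℕ) (π : MvPolynomial (Fin m) k →ₐ[k] A)
      (E : Set (MvPolynomial (Fin m) k)), E.Nonempty ∧ Function.Surjective π ∧
        E ⊆ Elem S (Fin m) ∧ RingHom.ker π = Ideal.span E by
    obtain ⟨m, π, E, ⟨p₀, hp₀⟩, h1, h2, h3⟩ := h
    have h4 : (Ideal.span E).FG := (isNoetherianRing_iff_ideal_fg _).mp inferInstance _
    obtain ⟨s₀, hs₀, hs₀'⟩ := (Submodule.fg_span_iff_fg_span_finset_subset E).1 h4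
    obtain ⟨s, hsc, hs, hs'⟩ : ∃ s : Finset (MvPolynomial (Fin m) k), 0 < s.card ∧
        (s : Set (MvPolynomial (Fin m) k)) ⊆ E ∧
        Submodule.span (MvPolynomial (Fin m) k) E = Submodule.span _ (s : Set _) := by
      have h5 : ((insert p₀ s₀ : Finset (MvPolynomial (Fin m) k)) : Set _) ⊆ E := by
        rw [Finset.coe_insert, Set.insert_subset_iff]
        exact ⟨hp₀, hs₀⟩
      refine ⟨insert p₀ s₀, Finset.card_pos.2 ⟨p₀, Finset.mem_insert_self _ _⟩, h5,
        le_antisymm ?_ (Submodule.span_mono h5)⟩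
      rw [hs₀']
      exact Submodule.span_mono (by rw [Finset.coe_insert]; exact Set.subset_insert _ _)
    refine ⟨m, s.card, fun j => (s.equivFin.symm j : MvPolynomial (Fin m) k), π, hsc,
      fun j => h2 (hs (s.equivFin.symm j).2), h1, ?_⟩
    have h5 : Set.range (fun j => (s.equivFin.symm j : MvPolynomial (Fin m) k)) =
        (s : Set (MvPolynomial (Fin m) k)) := by
      ext x
      constructor
      · rintro ⟨j, rfl⟩
        exact (s.equivFin.symm j).2
      · intro hx
        exact ⟨s.equivFin ⟨x, hx⟩, by simp⟩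
    rw [h5, h3]
    exact hs'
  have h0 : IsPres S (X : Fin n → MvPolynomial (Fin n) k) := by
    refine ⟨fun p ↦ ⟨p, ev_self p⟩, ∅, Set.empty_subset _, ?_⟩
    rw [Ideal.span_empty, ← RingHom.injective_iff_ker_eq_bot]
    intro p q h
    rwa [ev_self, ev_self] at h
  obtain ⟨s, hs, h0s, hadd'⟩ : ∃ s : Finset (MvPolynomial (Fin n) k),
      Ideal.span (s : Set (MvPolynomial (Fin n) k)) = RingHom.ker f ∧ 0 ∈ s ∧
      ∀ p ∈ s, Addable S (X : Fin n → MvPolynomial (Fin n) k) p := by
    refine ⟨insert 0 s₀, ?_, Finset.mem_insert_self _ _, fun p hp => ?_⟩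
    · rw [Finset.coe_insert, Ideal.span_insert, Ideal.span_singleton_zero, bot_sup_eq]
      exact hs₀
    · rcases Finset.mem_insert.1 hp with rfl | hp
      · exact addable_zero
      · exact hadd p hp
  obtain ⟨κ, _, w, hw, hsw⟩ := exists_pres_of_addable h0 s.finite_toSet hadd'
  obtain ⟨m, ⟨e⟩⟩ := Finite.exists_equiv_fin κ
  obtain ⟨hsur, E, hE, hker⟩ := hw.reindex e
  have hsw' : (s : Set (MvPolynomial (Fin n) k)) ⊆ Set.range (w ∘ e.symm) := by
    intro x hx
    obtain ⟨i, rfl⟩ := hsw hx
    exact ⟨e i, by simp⟩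
  set u : Fin m → MvPolynomial (Fin n) k := w ∘ e.symm with hu
  let F : Set (MvPolynomial (Fin m) k) := {p | ∃ l, u l ∈ s ∧ p = X l - (X l + X l)}
  have hne : (E ∪ F).Nonempty := by
    obtain ⟨l, hl⟩ := hsw' h0s
    exact ⟨X l - (X l + X l), Or.inr ⟨l, by rw [hl]; exact h0s, rfl⟩⟩
  refine ⟨m, f.comp (ev k u), E ∪ F, hne, hf.comp hsur, ?_, ?_⟩
  · rintro p (hp | ⟨l, _, rfl⟩)
    · exact hE hp
    · exact Elem.add l l l
  · apply le_antisymm
    · intro p hp
      have h1 : ev k u p ∈ RingHom.ker f := hp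
      rw [← hs] at h1
      have h2 : Ideal.span (s : Set (MvPolynomial (Fin n) k)) ≤
          Ideal.map (ev k u) (Ideal.span F) := by
        rw [Ideal.span_le]
        intro x hx
        obtain ⟨l, rfl⟩ := hsw' hx
        have : (ev k u) (-(X l - (X l + X l))) = u l := by
          simp
        rw [SetLike.mem_coe, ← this]
        exact Ideal.mem_map_of_mem _ (neg_mem (Ideal.subset_span ⟨l, hx, rfl⟩))
      obtain ⟨q, hq, hq'⟩ := (Ideal.mem_map_iff_of_surjective _ hsur).mp (h2 h1)
      have h3 : p - q ∈ RingHom.ker (ev k u) := by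
        rw [RingHom.mem_ker, map_sub, sub_eq_zero]
        exact hq'.symm
      rw [hker] at h3
      rw [Ideal.span_union]
      have := Ideal.add_mem (Ideal.span E ⊔ Ideal.span F)
        (Ideal.mem_sup_left h3) (Ideal.mem_sup_right hq)
      simpa using this
    · rw [Ideal.span_le]
      rintro p (hp | ⟨l, hl, rfl⟩)
      · have : ev k u p = 0 := by
          have h4 : p ∈ RingHom.ker (ev k u) := by
            rw [hker]; exact Ideal.subset_span hp
          exact h4
        change f (ev k u p) = 0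
        rw [this, map_zero]
      · change f (ev k u _) = 0
        have h5 : u l ∈ RingHom.ker f := by
          rw [← hs]; exact Ideal.subset_span hl
        have h6 : f (u l) = 0 := h5
        simp [h6]

end

/-- Replacing a constant by a separable polynomial which it satisfies. -/
lemma exists_replace {k : Type} [Field k] {S : Set k}
    [Algebra.IsSeparable (Subfield.closure S) k] {m : ℕ} {p : MvPolynomial (Fin m) k}
    (hp : p ∈ Elem Set.univ (Fin m)) :
    ∃ g : MvPolynomial (Fin m) k, Addable S (X : Fin m → MvPolynomial (Fin m) k) g ∧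
      g ∈ Ideal.span {p} ∧ p ∈ Ideal.span {p ^ 2, g} := by
  have h0 : ∀ g : MvPolynomial (Fin m) k,
      Addable S (X : Fin m → MvPolynomial (Fin m) k) g → g = p →
      ∃ g : MvPolynomial (Fin m) k, Addable S (X : Fin m → MvPolynomial (Fin m) k) g ∧
      g ∈ Ideal.span {p} ∧ p ∈ Ideal.span {p ^ 2, g} := by
    rintro g hg rfl
    exact ⟨g, hg, Ideal.mem_span_singleton_self _, Ideal.subset_span (by simp)⟩
  have hX := fun a => addable_var (S := S) (v₀ := (X : Fin m → MvPolynomial (Fin m) k)) a
  obtain ⟨a, b, c, h | h | h | ⟨s, -, h⟩⟩ := hp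
  · exact h0 _ ((hX a).add ((hX b).mul (hX c)).neg) (by rw [h]; ring)
  · exact h0 _ ((hX a).add ((hX b).add (hX c)).neg) (by rw [h]; ring)
  · exact h0 _ ((hX a).add addable_one.neg) (by rw [h]; ring)
  · let μ : Polynomial k := (minpoly (Subfield.closure S) s).map (algebraMap _ k)
    have hsep : μ.Separable := by
      have : (minpoly (Subfield.closure S) s).Separable := Algebra.IsSeparable.isSeparable _ s
      exact this.map
    have hroot : μ.eval s = 0 := by
      rw [Polynomial.eval_map_algebraMap]; exact minpoly.aeval _ s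
    obtain ⟨q, hq⟩ := Polynomial.dvd_iff_isRoot.2 hroot
    have hcop : IsCoprime (Polynomial.X - Polynomial.C s) q := by
      rw [hq] at hsep
      exact hsep.isCoprime
    obtain ⟨u, v, huv⟩ := hcop
    refine ⟨Polynomial.aeval (X a : MvPolynomial (Fin m) k) μ, (hX a).aeval (fun n => ?_), ?_, ?_⟩
    · rw [Polynomial.coeff_map]
      exact (minpoly (Subfield.closure S) s).coeff n |>.2
    · rw [hq, map_mul, map_sub, Polynomial.aeval_X, Polynomial.aeval_C, h]
      exact Ideal.mul_mem_right _ _ (Ideal.mem_span_singleton_self _)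
    · have h1 : Polynomial.aeval (X a : MvPolynomial (Fin m) k) (Polynomial.X - Polynomial.C s) = p := by
        rw [map_sub, Polynomial.aeval_X, Polynomial.aeval_C, h]; rfl
      have h2 := congrArg (Polynomial.aeval (X a : MvPolynomial (Fin m) k)) huv
      rw [map_add, map_mul, map_mul, h1, map_one] at h2
      have h3 : p = Polynomial.aeval (X a : MvPolynomial (Fin m) k) u * p ^ 2 +
          Polynomial.aeval (X a : MvPolynomial (Fin m) k) v *
            Polynomial.aeval (X a : MvPolynomial (Fin m) k) μ := by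
        rw [hq, map_mul, h1]
        linear_combination -p * h2
      rw [Ideal.mem_span_pair]
      exact ⟨_, _, h3.symm⟩

end Pool.Agent.K6.H18.Cubic
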