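import Pool.Agent.K6.H18.Cubic.Free
import Pool.Agent.K6.H18.Cubic.Final

/-!
Reduction to hypersurfaces with fewer constants.
-/

set_option autoImplicit false

open MvPolynomial AlgebraicGeometry CategoryTheory

namespace Pool.Agent.K6.H18.Cubic

open Alg

section
variable {k : Type} [CommRing k]

theorem Splits.hyp_iff {P : ∀ (B : Type) [CommRing B] [Algebra k B], ℤ → Prop} (hP : Splits P)
    (hk : ∀ b, P k b) {B : Type} [CommRing B] [Algebra k B] {m r : ℕ}
    (e : Fin r → MvPolynomial (Fin m) k) (π : MvPolynomial (Fin m) k →ₐ[k] B)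
    (hπ : Function.Surjective π) (hker : RingHom.ker π = Ideal.span (Set.range e)) (b : ℤ) :
    P B b ↔ P (Hyp e) (b + r) := by
  have h1 : P (Cub e) (b + r) ↔ P (Hyp e) (b + r) :=
    hP.poly 0 ((isEmptyRingEquiv (Cub e) (Fin 0)).trans (equivCub e).symm.toRingEquiv)
      ((equivCub e).symm : Cub e →ₐ[k] Hyp e) (fun x => by
        simp only [RingEquiv.trans_apply]
        have h3 : isEmptyRingEquiv (Cub e) (Fin 0) (C x) = x := by
          rw [← isEmptyRingEquiv_symm_apply (Cub e) (Fin 0) x, RingEquiv.apply_symm_apply]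
        rw [h3]; rfl) (by simp)
  have h2 : P (MvPolynomial (Fin m) k) b := by
    refine (hP.poly m (RingEquiv.refl _) (Algebra.ofId k (MvPolynomial (Fin m) k))
      (fun x => rfl) (b := b - m) (by ring)).1 (hk _)
  rw [← h1, hP.sum e π hπ hker rfl]
  tauto

end

section
variable {k : Type} [Field k] {S : Set k}

/-- Every algebra of finite type is a direct factor of the algebra of a system of elementary
equations with constants in `S`. -/
theorem exists_factor [Algebra.IsSeparable (Subfield.closure S) k] (A : Type) [CommRing A]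
    [Algebra k A] [Algebra.FiniteType k A] :
    ∃ (A' A'' : Type) (_ : CommRing A') (_ : Algebra k A') (_ : Algebra.FiniteType k A')
      (_ : CommRing A'') (_ : Algebra k A'') (f : A') (φ₁ : A' →ₐ[k] A) (φ₂ : A' →ₐ[k] A''),
      f * f = f ∧ Function.Surjective φ₁ ∧ Function.Surjective φ₂ ∧
      RingHom.ker φ₁ = Ideal.span {1 - f} ∧ RingHom.ker φ₂ = Ideal.span {f} ∧
      ∃ (m r : ℕ) (e : Fin r → MvPolynomial (Fin m) k) (π : MvPolynomial (Fin m) k →ₐ[k] A'),
        0 < r ∧ (∀ j, e j ∈ Elem S (Fin m)) ∧ Function.Surjective π ∧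
          RingHom.ker π = Ideal.span (Set.range e) := by
  classical
  have huniv : Subfield.closure (Set.univ : Set k) = ⊤ := by
    rw [eq_top_iff]
    exact fun x _ => Subfield.subset_closure (Set.mem_univ x)
  obtain ⟨m, r, e, π, hr, he, hπ, hker⟩ := exists_pres huniv A
  choose g hg1 hg2 hg3 using fun j => exists_replace (S := S) (he j)
  let J : Ideal (MvPolynomial (Fin m) k) := Ideal.span (Set.range g)
  let A' : Type := MvPolynomial (Fin m) k ⧸ J
  have hft : Algebra.FiniteType k A' :=
    Algebra.FiniteType.of_surjective (Ideal.Quotient.mkₐ k J) Ideal.Quotient.mk_surjective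
  have hJ : ∀ x ∈ J, π x = 0 := by
    intro x hx
    have h1 : J ≤ RingHom.ker π := by
      rw [hker, Ideal.span_le]
      rintro _ ⟨j, rfl⟩
      have h2 : ({e j} : Set (MvPolynomial (Fin m) k)) ⊆ Set.range e := by
        rintro _ rfl
        exact ⟨j, rfl⟩
      exact Ideal.span_mono h2 (hg2 j)
    exact h1 hx
  let φ₁ : A' →ₐ[k] A := Ideal.Quotient.liftₐ J π hJ
  have hφ₁ : Function.Surjective φ₁ := by
    intro z
    obtain ⟨x, rfl⟩ := hπ z
    exact ⟨Ideal.Quotient.mk J x, rfl⟩
  have hk₁ : RingHom.ker φ₁ = Ideal.span (Set.range fun j => Ideal.Quotient.mk J (e j)) := by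
    have h1 : Ideal.comap (Ideal.Quotient.mk J) (RingHom.ker φ₁) = RingHom.ker π := by
      ext x; exact Iff.rfl
    rw [← Ideal.map_comap_of_surjective (Ideal.Quotient.mk J) Ideal.Quotient.mk_surjective
      (RingHom.ker φ₁), h1, hker, Ideal.map_span, ← Set.range_comp]
    rfl
  have hidem : IsIdempotentElem (RingHom.ker φ₁) := by
    apply le_antisymm Ideal.mul_le_right
    rw [hk₁]
    conv_lhs => rw [Ideal.span]
    rw [Submodule.span_le]
    rintro _ ⟨j, rfl⟩
    obtain ⟨u, v, huv⟩ := Ideal.mem_span_pair.1 (hg3 j)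
    have h1 : Ideal.Quotient.mk J (g j) = 0 :=
      Ideal.Quotient.eq_zero_iff_mem.2 (Ideal.subset_span ⟨j, rfl⟩)
    have h2 : Ideal.Quotient.mk J (e j) =
        Ideal.Quotient.mk J u * (Ideal.Quotient.mk J (e j) * Ideal.Quotient.mk J (e j)) := by
      rw [← pow_two, ← map_pow, ← map_mul]
      conv_lhs => rw [← huv]
      rw [map_add, map_mul _ v, h1, mul_zero, add_zero]
    show Ideal.Quotient.mk J (e j) ∈ _
    rw [h2]
    exact Ideal.mul_mem_left _ _ (Ideal.mul_mem_mul (Ideal.subset_span ⟨j, rfl⟩)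
      (Ideal.subset_span ⟨j, rfl⟩))
  have hnoeth : IsNoetherianRing A' := Algebra.FiniteType.isNoetherianRing k A'
  obtain ⟨ε, hε, hε'⟩ := (Ideal.isIdempotentElem_iff_of_fg _ (IsNoetherian.noetherian _)).1 hidem
  have hf : (1 - ε) * (1 - ε) = 1 - ε := by
    have : ε * ε = ε := hε
    linear_combination this
  obtain ⟨m', r', e', π', hr', he', hπ', hker'⟩ := exists_pres_of_relations (S := S) A'
    (Ideal.Quotient.mkₐ k J) Ideal.Quotient.mk_surjective (Finset.univ.image g) (by
      rw [Finset.coe_image, Finset.coe_univ, Set.image_univ]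
      exact (Ideal.Quotient.mkₐ_ker k J).symm) (by
      intro p hp
      obtain ⟨j, -, rfl⟩ := Finset.mem_image.1 hp
      exact hg1 j)
  refine ⟨A', A' ⧸ Ideal.span {1 - ε}, inferInstance, inferInstance, hft, inferInstance,
    inferInstance, 1 - ε, φ₁, Ideal.Quotient.mkₐ k (Ideal.span {1 - ε}), hf, hφ₁,
    Ideal.Quotient.mk_surjective, ?_, Ideal.Quotient.mkₐ_ker k _, m', r', e', π', hr', he', hπ',
    hker'⟩
  rw [hε', sub_sub_cancel]

/-- Every instance of the property follows from an instance for a hypersurface with constants in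
`S`. -/
theorem exists_hyp_free [Algebra.IsSeparable (Subfield.closure S) k] (A : Type) [CommRing A]
    [Algebra k A] [Algebra.FiniteType k A] :
    ∃ (m r : ℕ) (e : Fin r → MvPolynomial (Fin m) k), 0 < r ∧ (∀ j, e j ∈ Elem S (Fin m)) ∧
      ∀ P : ∀ (B : Type) [CommRing B] [Algebra k B], ℤ → Prop, SplitsP P → (∀ b, P k b) →
        ∀ b, P (Hyp e) (b + r) → P A b := by
  obtain ⟨A', A'', _, _, _, _, _, f, φ₁, φ₂, hf, h₁, h₂, k₁, k₂, m, r, e, π, hr, he, hπ, hker⟩ :=
    exists_factor (S := S) A
  refine ⟨m, r, e, hr, he, fun P hP hk b h => ?_⟩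
  have h1 := (hP.hyp_iff hk e π hπ hker b).2 h
  exact ((hP.prod f hf φ₁ φ₂ h₁ h₂ k₁ k₂).1 h1).1

end

section
variable {k : Type} [Field k] {S : Set k}

/-- The reduction to the hypersurfaces with arbitrary constants, instance by instance, the
hypersurface being independent of the property. -/
theorem exists_hypersurface_univ (B : Alg k) (hB : B.IsFiniteType) :
    ∃ (m r : ℕ) (e : Fin r → MvPolynomial (Fin m) k), IsElementary Set.univ e ∧
      ∀ P : Alg k → ℤ → Prop,
        Splits (fun (B : Type) [CommRing B] [Algebra k B] b => P ⟨B⟩ b) → (∀ b, P (base k) b) →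
        ∀ b, P B b ↔ P (Hypersurface e) (b + r) := by
  have huniv : Subfield.closure (Set.univ : Set k) = ⊤ := by
    rw [eq_top_iff]
    exact fun x _ => Subfield.subset_closure (Set.mem_univ x)
  have hft : Algebra.FiniteType k B.ring := hB
  obtain ⟨m, r, e, hr, he, h⟩ := exists_hyp huniv B.ring
  exact ⟨m, r, e, ⟨hr, he⟩, fun P hP hk b => h (fun B _ _ b => P ⟨B⟩ b) hP hk b⟩

/-- The reduction to the hypersurfaces with constants in `S`. -/
theorem exists_hypersurface_free [Algebra.IsSeparable (Subfield.closure S) k] (B : Alg k)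
    (hB : B.IsFiniteType) :
    ∃ (m r : ℕ) (e : Fin r → MvPolynomial (Fin m) k), IsElementary S e ∧
      ∀ P : Alg k → ℤ → Prop,
        SplitsP (fun (B : Type) [CommRing B] [Algebra k B] b => P ⟨B⟩ b) → (∀ b, P (base k) b) →
        ∀ b, P (Hypersurface e) (b + r) → P B b := by
  have hft : Algebra.FiniteType k B.ring := hB
  obtain ⟨m, r, e, hr, he, h⟩ := exists_hyp_free (S := S) B.ring
  exact ⟨m, r, e, ⟨hr, he⟩, fun P hP hk b => h (fun B _ _ b => P ⟨B⟩ b) hP hk b⟩

end

end Pool.Agent.K6.H18.Cubic
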