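import Pool.Agent.K6.H18.Cubic.Main

/-!
The geometric properties of the hypersurfaces, and the reduction to them.
-/

set_option autoImplicit false

open MvPolynomial AlgebraicGeometry CategoryTheory

namespace Pool.Agent.K6.H18.Cubic

/-- `∑ u_j e_j(x) = w (1 - w)` is a smooth integral affine hypersurface of degree at most three,
of dimension `m + r`, and it is rational: the open subscheme `f(x) ≠ 0` is isomorphic to the open
subscheme `f(x) ≠ 0` of affine space, for some polynomial `f ≠ 0`. -/
structure IsRationalCubic {k : Type} [CommRing k] {m r : ℕ} (e : Fin r → MvPolynomial (Fin m) k) :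
    Prop where
  degree : (poly e).totalDegree ≤ 3
  smooth : SmoothRel (m + r) (algebraMap k (Hyp e))
  integral : IsDomain (Hyp e)
  rational : ∃ f : MvPolynomial (Fin m) k, f ≠ 0 ∧
    Nonempty (MvPolynomial (Fin r) (Localization.Away f) ≃ₐ[k]
      Localization.Away (Ideal.Quotient.mk (Ideal.span {poly e}) (rename Sum.inr f)))

lemma isRationalCubic {k : Type} [CommRing k] [IsDomain k] {S : Set k} {m r : ℕ} (hr : 0 < r)
    (e : Fin r → MvPolynomial (Fin m) k) (he : ∀ j, e j ∈ Elem S (Fin m)) : IsRationalCubic e where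
  degree := totalDegree_poly_le e he
  smooth := smoothRel_hyp e
  integral := by
    have := isDomain_cub e ⟨0, hr⟩ (Elem.ne_zero (he ⟨0, hr⟩))
    exact (equivCub e).toMulEquiv.isDomain (Cub e)
  rational := ⟨e ⟨0, hr⟩, (Elem.ne_zero (he ⟨0, hr⟩)), exists_equiv_hyp e ⟨0, hr⟩⟩

/-- `Spec B` as a scheme over `k` -/
noncomputable def specOver (k : Type) [CommRing k] (B : Type) [CommRing B] [Algebra k B] :
    Over (Spec (CommRingCat.of k)) :=
  Over.mk (Spec.map (CommRingCat.ofHom (algebraMap k B)))

lemma isSmoothVariety_hyp {k : Type} [CommRing k] {m r : ℕ} (e : Fin r → MvPolynomial (Fin m) k) :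
    IsSmoothVariety (specOver k (Hyp e)) := by
  have h : SmoothOfRelativeDimension (m + r) (specOver k (Hyp e)).hom := smoothRel_hyp e
  have h1 : Smooth (specOver k (Hyp e)).hom := h.smooth
  refine ⟨?_, inferInstance, ?_, h1⟩
  · show IsSeparated (Spec.map _)
    infer_instance
  · show QuasiCompact (Spec.map _)
    infer_instance

/-- The trick of Jouanolou and Thomason for the class `𝒱` of varieties: `TX X b` is the instance of
the conjecture for the variety `X` and cycles of dimension `b`, and `P B b` the one for the affine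
variety `Spec B`. Every variety in `𝒱` has a torsor under a vector bundle, of some rank `s`, which
is an affine variety `Spec B`, so that `TX X b` is equivalent to `P B (b + s)`. -/
structure IsExtension {k : Type} [CommRing k]
    (P : ∀ (B : Type) [CommRing B] [Algebra k B], ℤ → Prop)
    (𝒱 : Over (Spec (CommRingCat.of k)) → Prop)
    (TX : Over (Spec (CommRingCat.of k)) → ℤ → Prop) : Prop where
  affine_mem : ∀ (B : Type) [CommRing B] [Algebra k B] [Algebra.FiniteType k B],
    𝒱 (specOver k B)
  affine_iff : ∀ (B : Type) [CommRing B] [Algebra k B] [Algebra.FiniteType k B] (b : ℤ),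
    TX (specOver k B) b ↔ P B b
  torsor : ∀ X : Over (Spec (CommRingCat.of k)), 𝒱 X →
    ∃ (B : Type) (_ : CommRing B) (_ : Algebra k B) (_ : Algebra.FiniteType k B) (s : ℕ),
      ∀ b : ℤ, TX X b ↔ P B (b + s)

/-- The reduction to the hypersurfaces, instance by instance. -/
theorem Splits.exists_cubic {k : Type} [Field k] {S : Set k} (hS : Subfield.closure S = ⊤)
    {P : ∀ (B : Type) [CommRing B] [Algebra k B], ℤ → Prop} (hP : Splits P) (hk : ∀ b, P k b)
    {𝒱 : Over (Spec (CommRingCat.of k)) → Prop}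
    {TX : Over (Spec (CommRingCat.of k)) → ℤ → Prop} (hTX : IsExtension P 𝒱 TX)
    (X : Over (Spec (CommRingCat.of k))) (hX : 𝒱 X) :
    ∃ (m r n : ℕ) (e : Fin r → MvPolynomial (Fin m) k), 0 < r ∧ (∀ j, e j ∈ Elem S (Fin m)) ∧
      IsRationalCubic e ∧ ∀ b, TX X b ↔ TX (specOver k (Hyp e)) (b + n) := by
  obtain ⟨B, _, _, _, s, hb⟩ := hTX.torsor X hX
  obtain ⟨m, r, e, hr, he, h⟩ := exists_hyp hS B
  refine ⟨m, r, s + r, e, hr, he, isRationalCubic hr e he, fun b => ?_⟩
  have hft : Algebra.FiniteType k (Hyp e) := inferInstance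
  rw [hTX.affine_iff (Hyp e), hb, h P hP hk, Nat.cast_add, add_assoc]

/-- The reduction to the hypersurfaces. -/
theorem Splits.tfae {k : Type} [Field k] {S : Set k} (hS : Subfield.closure S = ⊤)
    {P : ∀ (B : Type) [CommRing B] [Algebra k B], ℤ → Prop} (hP : Splits P) (hk : ∀ b, P k b)
    {𝒱 : Over (Spec (CommRingCat.of k)) → Prop}
    {TX : Over (Spec (CommRingCat.of k)) → ℤ → Prop} (hTX : IsExtension P 𝒱 TX) :
    List.TFAE [
      ∀ X, 𝒱 X → IsSmoothVariety X → ∀ b, TX X b,
      ∀ X, 𝒱 X → ∀ b, TX X b,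
      ∀ (m r : ℕ) (e : Fin r → MvPolynomial (Fin m) k), 0 < r →
        (∀ j, e j ∈ Elem S (Fin m)) → ∀ b, TX (specOver k (Hyp e)) b] := by
  tfae_have 1 → 3 := by
    intro h m r e _ _ b
    have hft : Algebra.FiniteType k (Hyp e) := inferInstance
    exact h _ (hTX.affine_mem (Hyp e)) (isSmoothVariety_hyp e) b
  tfae_have 3 → 2 := by
    intro h X hX b
    obtain ⟨m, r, n, e, hr, he, -, hb⟩ := hP.exists_cubic hS hk hTX X hX
    exact (hb b).2 (h m r e hr he _)
  tfae_have 2 → 1 := fun h X hX _ b => h X hX b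
  tfae_finish

end Pool.Agent.K6.H18.Cubic
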