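import Pool.Agent.K6.H18.Cubic.Defs

/-!
Let the field `k` be generated by the subset `S`. Every algebra of finite type over `k` is the
quotient of a polynomial ring over `k` by an ideal generated by finitely many polynomials of the
shapes `x_a - x_b x_c`, `x_a - (x_b + x_c)`, `x_a - 1` and `x_a - s` with `s` in `S`.
-/

set_option autoImplicit false

open MvPolynomial

namespace Pool.Agent.K6.H18.Cubic

section
variable {k : Type} [CommRing k]

variable {S : Set k}

lemma Elem.mul {ι : Type} (a b c : ι) : (X a - X b * X c : MvPolynomial ι k) ∈ Elem S ι :=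
  ⟨a, b, c, Or.inl rfl⟩

lemma Elem.add {ι : Type} (a b c : ι) : (X a - (X b + X c) : MvPolynomial ι k) ∈ Elem S ι :=
  ⟨a, b, c, Or.inr (Or.inl rfl)⟩

lemma Elem.one {ι : Type} (a : ι) : (X a - 1 : MvPolynomial ι k) ∈ Elem S ι :=
  ⟨a, a, a, Or.inr (Or.inr (Or.inl rfl))⟩

lemma Elem.const {ι : Type} (a : ι) (s : k) (hs : s ∈ S) :
    (X a - C s : MvPolynomial ι k) ∈ Elem S ι :=
  ⟨a, a, a, Or.inr (Or.inr (Or.inr ⟨s, hs, rfl⟩))⟩

lemma Elem.rename {ι κ : Type} (j : ι → κ) {p : MvPolynomial ι k} (hp : p ∈ Elem S ι) :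
    MvPolynomial.rename j p ∈ Elem S κ := by
  obtain ⟨a, b, c, h | h | h | ⟨s, hs, h⟩⟩ := hp
  · subst h; simpa using Elem.mul (j a) (j b) (j c)
  · subst h; simpa using Elem.add (j a) (j b) (j c)
  · subst h; simpa using Elem.one (j a)
  · subst h; simpa using Elem.const (j a) s hs

variable (k) in
/-- Evaluation of polynomials at `v`. -/
noncomputable def ev {ι A : Type} [CommRing A] [Algebra k A] (v : ι → A) :
    MvPolynomial ι k →ₐ[k] A := aeval v

@[simp] lemma ev_X {ι A : Type} [CommRing A] [Algebra k A] (v : ι → A) (i : ι) :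
    ev k v (X i) = v i := by
  simp [ev]

@[simp] lemma ev_C {ι A : Type} [CommRing A] [Algebra k A] (v : ι → A) (t : k) :
    ev k v (C t) = algebraMap k A t := by
  simp [ev]

@[simp] lemma ev_rename {ι κ A : Type} [CommRing A] [Algebra k A] (v : κ → A) (j : ι → κ)
    (p : MvPolynomial ι k) : ev k v (rename j p) = ev k (v ∘ j) p := by
  simp [ev, aeval_rename]

lemma ev_self {ι : Type} (p : MvPolynomial ι k) : ev k X p = p := by
  simp [ev]

/-- `v : ι → A` is an elementary presentation of `A`: the `v a` generate `A` and the relations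
between them are generated by elementary ones. -/
def IsPres {k : Type} [CommRing k] (S : Set k) {ι A : Type} [CommRing A] [Algebra k A] (v : ι → A) : Prop :=
  Function.Surjective (ev k v) ∧ ∃ E ⊆ Elem S ι, RingHom.ker (ev k v) = Ideal.span E

/-- Adding one variable together with one relation expressing it through the others, modulo the
known relations. -/
lemma IsPres.option' {ι A : Type} [CommRing A] [Algebra k A] {v : ι → A} (hv : IsPres S v)
    (t : MvPolynomial ι k) (e : MvPolynomial (Option ι) k) (he : e ∈ Elem S (Option ι))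
    (hte : Ideal.span {e} ⊔ (RingHom.ker (ev k v)).map (rename some : MvPolynomial ι k →ₐ[k] _) =
      Ideal.span {X none - rename some t} ⊔
        (RingHom.ker (ev k v)).map (rename some : MvPolynomial ι k →ₐ[k] _)) :
    IsPres S (fun o : Option ι ↦ o.elim (ev k v t) v) := by
  obtain ⟨hs, E, hE, hker⟩ := hv
  set w : Option ι → A := fun o ↦ o.elim (ev k v t) v with hw
  have hsome : ∀ p : MvPolynomial ι k, ev k w (rename some p) = ev k v p := fun p ↦ by
    rw [ev_rename]; rfl
  refine ⟨fun a ↦ ?_, insert e (rename some '' E), ?_, ?_⟩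
  · obtain ⟨p, rfl⟩ := hs a
    exact ⟨rename some p, hsome p⟩
  · rintro p (rfl | ⟨q, hq, rfl⟩)
    · exact he
    · exact Elem.rename _ (hE hq)
  · have hJ' : Ideal.span (insert e (rename some '' E)) =
        Ideal.span (insert (X none - rename some t) (rename some '' E)) := by
      rw [hker, Ideal.map_span] at hte
      rw [Ideal.span_insert, Ideal.span_insert]
      exact hte
    rw [hJ']
    set J : Ideal (MvPolynomial (Option ι) k) :=
      Ideal.span (insert (X none - rename some t) (rename some '' E)) with hJ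
    have hle : J ≤ RingHom.ker (ev k w) := by
      rw [hJ, Ideal.span_le]
      rintro r (rfl | ⟨q, hq, rfl⟩)
      · change ev k w _ = 0
        rw [map_sub, hsome, ev_X, hw]
        simp
      · change ev k w _ = 0
        rw [hsome]
        have : q ∈ RingHom.ker (ev k v) := by
          rw [hker]; exact Ideal.subset_span hq
        exact this
    apply le_antisymm _ hle
    intro p hp
    have hp : ev k w p = 0 := hp
    -- eliminate the new variable
    let ε : MvPolynomial (Option ι) k →ₐ[k] MvPolynomial ι k :=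
      aeval fun o : Option ι ↦ o.elim t X
    have h1 : ∀ q : MvPolynomial (Option ι) k, q - rename some (ε q) ∈ J := by
      intro q
      have key : (Ideal.Quotient.mkₐ k J) =
          ((Ideal.Quotient.mkₐ k J).comp (rename some)).comp ε := by
        apply MvPolynomial.algHom_ext
        rintro (_ | a)
        · simp only [AlgHom.comp_apply, ε, aeval_X, Option.elim_none]
          rw [Ideal.Quotient.mkₐ_eq_mk, Ideal.Quotient.eq]
          exact Ideal.subset_span (Set.mem_insert _ _)
        · simp only [AlgHom.comp_apply, ε, aeval_X, Option.elim_some, rename_X]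
      have := DFunLike.congr_fun key q
      simp only [AlgHom.comp_apply, Ideal.Quotient.mkₐ_eq_mk] at this
      exact (Ideal.Quotient.eq).mp this
    have h2 : ev k w (rename some (ε p)) = 0 := by
      have h3 : ev k w (p - rename some (ε p)) = 0 := hle (h1 p)
      rw [map_sub, hp, zero_sub, neg_eq_zero] at h3
      exact h3
    rw [hsome] at h2
    have h4 : ε p ∈ Ideal.span E := by
      rw [← hker]; exact h2
    have h5 : rename some (ε p) ∈ J := by
      have : Ideal.map (rename some : MvPolynomial ι k →ₐ[k] _) (Ideal.span E) ≤ J := by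
        rw [Ideal.map_span, hJ]
        exact Ideal.span_mono (Set.subset_insert _ _)
      exact this (Ideal.mem_map_of_mem _ h4)
    have := J.add_mem (h1 p) h5
    simpa using this

/-- Adding one variable together with one relation expressing it through the others. -/
lemma IsPres.option {ι A : Type} [CommRing A] [Algebra k A] {v : ι → A} (hv : IsPres S v)
    (t : MvPolynomial ι k) (e : MvPolynomial (Option ι) k) (he : e ∈ Elem S (Option ι))
    (hte : Ideal.span {e} = Ideal.span {X none - rename some t}) :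
    IsPres S (fun o : Option ι ↦ o.elim (ev k v t) v) :=
  hv.option' t e he (by rw [hte])

/-- `w` extends `v`. -/
def Extends {ι κ A : Type} (v : ι → A) (w : κ → A) : Prop := ∃ j : ι → κ, ∀ a, w (j a) = v a

lemma Extends.refl {ι A : Type} (v : ι → A) : Extends v v := ⟨id, fun _ ↦ rfl⟩

lemma Extends.trans {ι κ μ A : Type} {v : ι → A} {w : κ → A} {u : μ → A} (h : Extends v w)
    (h' : Extends w u) : Extends v u := by
  obtain ⟨j, hj⟩ := h
  obtain ⟨k, hk⟩ := h'
  exact ⟨k ∘ j, fun a ↦ by rw [Function.comp_apply, hk, hj]⟩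

lemma Extends.mem {ι κ A : Type} {v : ι → A} {w : κ → A} (h : Extends v w) {a : A}
    (ha : a ∈ Set.range v) : a ∈ Set.range w := by
  obtain ⟨j, hj⟩ := h
  obtain ⟨b, rfl⟩ := ha
  exact ⟨j b, hj b⟩

lemma extends_option {ι A : Type} (v : ι → A) (a : A) :
    Extends v (fun o : Option ι ↦ o.elim a v) := ⟨some, fun _ ↦ rfl⟩

/-- `a` can be added to the generators of every finite elementary presentation extending `v₀`. -/
def Addable {k : Type} [CommRing k] (S : Set k) {ι₀ A : Type} [CommRing A] [Algebra k A] (v₀ : ι₀ → A) (a : A) : Prop :=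
  ∀ (ι : Type) [Finite ι] (v : ι → A), IsPres S v → Extends v₀ v →
    ∃ (κ : Type) (_ : Finite κ) (w : κ → A), IsPres S w ∧ Extends v w ∧ a ∈ Set.range w

section
variable {ι₀ A : Type} [CommRing A] [Algebra k A] {v₀ : ι₀ → A}

lemma addable_var (i : ι₀) : Addable S v₀ (v₀ i) := by
  intro ι _ v hv hv₀
  exact ⟨ι, inferInstance, v, hv, Extends.refl v, hv₀.mem ⟨i, rfl⟩⟩

lemma addable_one : Addable S v₀ (1 : A) := by
  intro ι _ v hv _
  refine ⟨Option ι, inferInstance, _, hv.option 1 _ (Elem.one none) ?_, extends_option _ _,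
    none, by simp⟩
  simp

lemma addable_mem (t : k) (ht : t ∈ S) : Addable S v₀ (algebraMap k A t) := by
  intro ι _ v hv _
  refine ⟨Option ι, inferInstance, _, hv.option (C t) _ (Elem.const none t ht) ?_,
    extends_option _ _, none, by simp⟩
  simp

lemma addable_zero : Addable S v₀ (0 : A) := by
  intro ι _ v hv _
  refine ⟨Option ι, inferInstance, _, hv.option 0 _ (Elem.add none none none) ?_,
    extends_option _ _, none, by simp⟩
  rw [map_zero, sub_zero, show (X none - (X none + X none) : MvPolynomial (Option ι) k) =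
    -X none by ring, Ideal.span_singleton_neg]

lemma Addable.add {a b : A} (ha : Addable S v₀ a) (hb : Addable S v₀ b) :
    Addable S v₀ (a + b) := by
  intro ι _ v hv h₀
  obtain ⟨κ, _, w, hw, hvw, haw⟩ := ha ι v hv h₀
  obtain ⟨μ, _, u, hu, hwu, y, rfl⟩ := hb κ w hw (h₀.trans hvw)
  obtain ⟨x, rfl⟩ := hwu.mem haw
  refine ⟨Option μ, inferInstance, _, hu.option (X x + X y) _
    (Elem.add none (some x) (some y)) ?_,
    (hvw.trans hwu).trans (extends_option _ _), none, by simp⟩
  simp

lemma Addable.mul {a b : A} (ha : Addable S v₀ a) (hb : Addable S v₀ b) :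
    Addable S v₀ (a * b) := by
  intro ι _ v hv h₀
  obtain ⟨κ, _, w, hw, hvw, haw⟩ := ha ι v hv h₀
  obtain ⟨μ, _, u, hu, hwu, y, rfl⟩ := hb κ w hw (h₀.trans hvw)
  obtain ⟨x, rfl⟩ := hwu.mem haw
  refine ⟨Option μ, inferInstance, _, hu.option (X x * X y) _
    (Elem.mul none (some x) (some y)) ?_,
    (hvw.trans hwu).trans (extends_option _ _), none, by simp⟩
  simp

lemma Addable.neg {a : A} (ha : Addable S v₀ a) : Addable S v₀ (-a) := by
  intro ι _ v hv h₀
  obtain ⟨κ, _, w, hw, hvw, haw⟩ := ha ι v hv h₀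
  obtain ⟨μ, _, u, hu, hwu, z, hz⟩ := addable_zero κ w hw (h₀.trans hvw)
  obtain ⟨x, rfl⟩ := hwu.mem haw
  refine ⟨Option μ, inferInstance, _, hu.option (X z - X x) _
    (Elem.add (some z) none (some x)) ?_,
    (hvw.trans hwu).trans (extends_option _ _), none, by simp [hz]⟩
  rw [map_sub, rename_X, rename_X, show (X (some z) - (X none + X (some x)) :
    MvPolynomial (Option μ) k) = -(X none - (X (some z) - X (some x))) by ring,
    Ideal.span_singleton_neg]

lemma Addable.inv {k : Type} [Field k] {S : Set k} {ι₀ A : Type} [CommRing A] [Algebra k A]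
    {v₀ : ι₀ → A} {t : k} (ht : t ≠ 0) (ha : Addable S v₀ (algebraMap k A t)) :
    Addable S v₀ (algebraMap k A t⁻¹) := by
  intro ι _ v hv h₀
  obtain ⟨κ, _, w, hw, hvw, haw⟩ := ha ι v hv h₀
  obtain ⟨μ, _, u, hu, hwu, y, hy⟩ := addable_one κ w hw (h₀.trans hvw)
  obtain ⟨x, hx⟩ := hwu.mem haw
  refine ⟨Option μ, inferInstance, _, hu.option' (C t⁻¹) _
    (Elem.mul (some y) (some x) none) ?_,
    (hvw.trans hwu).trans (extends_option _ _), none, by simp⟩
  set K : Ideal (MvPolynomial (Option μ) k) :=
    (RingHom.ker (ev k u)).map (rename some : MvPolynomial μ k →ₐ[k] _) with hK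
  have h1 : (X (some y) - 1 : MvPolynomial (Option μ) k) ∈ K := by
    have h2 : (X y - 1 : MvPolynomial μ k) ∈ RingHom.ker (ev k u) := by
      rw [RingHom.mem_ker, map_sub, ev_X, hy, map_one, sub_self]
    have h3 := Ideal.mem_map_of_mem (rename some : MvPolynomial μ k →ₐ[k] _) h2
    simpa using h3
  have h2 : (X (some x) - C t : MvPolynomial (Option μ) k) ∈ K := by
    have h3 : (X x - C t : MvPolynomial μ k) ∈ RingHom.ker (ev k u) := by
      rw [RingHom.mem_ker, map_sub, ev_X, ev_C, hx, sub_self]
    have h4 := Ideal.mem_map_of_mem (rename some : MvPolynomial μ k →ₐ[k] _) h3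
    simpa using h4
  have h3 : (C t * C t⁻¹ : MvPolynomial (Option μ) k) = 1 := by
    rw [← map_mul, mul_inv_cancel₀ ht, map_one]
  rw [rename_C]
  apply le_antisymm
  · refine sup_le ?_ le_sup_right
    rw [Ideal.span_le, Set.singleton_subset_iff, SetLike.mem_coe]
    have h4 : (X (some y) - X (some x) * X none : MvPolynomial (Option μ) k) =
        (-C t) * (X none - C t⁻¹) + ((X (some y) - 1) + (-X none) * (X (some x) - C t)) := by
      linear_combination -h3
    rw [h4]
    exact add_mem (Ideal.mul_mem_left _ _ (Ideal.mem_sup_left (Ideal.mem_span_singleton_self _)))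
      (Ideal.mem_sup_right (add_mem h1 (Ideal.mul_mem_left _ _ h2)))
  · refine sup_le ?_ le_sup_right
    rw [Ideal.span_le, Set.singleton_subset_iff, SetLike.mem_coe]
    have h4 : (X none - C t⁻¹ : MvPolynomial (Option μ) k) =
        (-C t⁻¹) * (X (some y) - X (some x) * X none) +
          (C t⁻¹ * (X (some y) - 1) + (-C t⁻¹ * X none) * (X (some x) - C t)) := by
      linear_combination -(X none) * h3
    rw [h4]
    exact add_mem (Ideal.mul_mem_left _ _ (Ideal.mem_sup_left (Ideal.mem_span_singleton_self _)))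
      (Ideal.mem_sup_right (add_mem (Ideal.mul_mem_left _ _ h1) (Ideal.mul_mem_left _ _ h2)))

lemma addable_const {k : Type} [Field k] {S : Set k} (hS : Subfield.closure S = ⊤)
    {ι₀ A : Type} [CommRing A] [Algebra k A] {v₀ : ι₀ → A} (t : k) :
    Addable S v₀ (algebraMap k A t) := by
  have ht : t ∈ Subfield.closure S := by rw [hS]; trivial
  induction ht using Subfield.closure_induction with
  | mem x hx => exact addable_mem x hx
  | one => rw [map_one]; exact addable_one
  | add x y _ _ hx hy => rw [map_add]; exact hx.add hy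
  | neg x _ hx => rw [map_neg]; exact hx.neg
  | inv x _ hx =>
    by_cases h : x = 0
    · subst h; rw [inv_zero, map_zero]; exact addable_zero
    · exact hx.inv h
  | mul x y _ _ hx hy => rw [map_mul]; exact hx.mul hy

lemma addable_all {k : Type} [Field k] {S : Set k} (hS : Subfield.closure S = ⊤)
    {ι₀ A : Type} [CommRing A] [Algebra k A] {v₀ : ι₀ → A}
    (h : Function.Surjective (ev k v₀)) (a : A) : Addable S v₀ a := by
  obtain ⟨p, rfl⟩ := h a
  induction p using MvPolynomial.induction_on with
  | C t => rw [ev_C]; exact addable_const hS t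
  | add p q hp hq => rw [map_add]; exact hp.add hq
  | mul_X p i hp => rw [map_mul, ev_X]; exact hp.mul (addable_var i)

/-- Finitely many elements can be added. -/
lemma exists_pres_of_finite {k : Type} [Field k] {S : Set k} (hS : Subfield.closure S = ⊤)
    {ι₀ A : Type} [CommRing A] [Algebra k A] {v₀ : ι₀ → A}
    (hv : IsPres S v₀) [Finite ι₀] {s : Set A} (hs : s.Finite) :
    ∃ (κ : Type) (_ : Finite κ) (w : κ → A), IsPres S w ∧ s ⊆ Set.range w := by
  have : ∃ (κ : Type) (_ : Finite κ) (w : κ → A), IsPres S w ∧ Extends v₀ w ∧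
      s ⊆ Set.range w := by
    induction s, hs using Set.Finite.induction_on with
    | empty => exact ⟨ι₀, inferInstance, v₀, hv, Extends.refl _, Set.empty_subset _⟩
    | insert _ _ ih =>
      obtain ⟨κ, _, w, hw, h₀, hsw⟩ := ih
      obtain ⟨μ, _, u, hu, hwu, hau⟩ := addable_all hS hv.1 _ κ w hw h₀
      exact ⟨μ, inferInstance, u, hu, h₀.trans hwu,
        Set.insert_subset hau fun x hx ↦ hwu.mem (hsw hx)⟩
  obtain ⟨κ, i, w, h1, _, h2⟩ := this
  exact ⟨κ, i, w, h1, h2⟩

end

lemma IsPres.reindex {κ μ A : Type} [CommRing A] [Algebra k A] {w : κ → A} (hw : IsPres S w) (e : κ ≃ μ) :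
    IsPres S (w ∘ e.symm) := by
  obtain ⟨hsur, E, hE, hker⟩ := hw
  have hcomp : ∀ p, ev k (w ∘ e.symm) (rename e p) = ev k w p := fun p ↦ by
    rw [ev_rename]; congr 2; ext i; simp
  have hinv : ∀ p : MvPolynomial μ k, rename e (rename e.symm p) = p := fun p ↦ by
    simp [rename_rename]
  have hinv' : ∀ p : MvPolynomial κ k, rename e.symm (rename e p) = p := fun p ↦ by
    simp [rename_rename]
  refine ⟨fun a ↦ ?_, rename e '' E, ?_, ?_⟩
  · obtain ⟨p, rfl⟩ := hsur a
    exact ⟨rename e p, hcomp p⟩
  · rintro _ ⟨q, hq, rfl⟩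
    exact Elem.rename _ (hE hq)
  · apply le_antisymm
    · intro p hp
      have h1 : rename e.symm p ∈ RingHom.ker (ev k w) := by
        rw [RingHom.mem_ker, ← hcomp, hinv]; exact hp
      rw [hker] at h1
      have h2 : Ideal.map (rename e : MvPolynomial κ k →ₐ[k] MvPolynomial μ k) (Ideal.span E) ≤
          Ideal.span (rename e '' E) := by
        rw [Ideal.map_span]
      have := h2 (Ideal.mem_map_of_mem _ h1)
      rwa [hinv] at this
    · rw [Ideal.span_le]
      rintro _ ⟨q, hq, rfl⟩
      have h1 : q ∈ RingHom.ker (ev k w) := by rw [hker]; exact Ideal.subset_span hq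
      rw [SetLike.mem_coe, RingHom.mem_ker, hcomp]; exact h1

/-- Every algebra of finite type over a field generated by `S` has a finite elementary
presentation. -/
theorem exists_pres {k : Type} [Field k] {S : Set k} (hS : Subfield.closure S = ⊤) (A : Type) [CommRing A] [Algebra k A]
    [hA : Algebra.FiniteType k A] :
    ∃ (m r : ℕ) (e : Fin r → MvPolynomial (Fin m) k) (π : MvPolynomial (Fin m) k →ₐ[k] A),
      0 < r ∧ (∀ j, e j ∈ Elem S (Fin m)) ∧ Function.Surjective π ∧
        RingHom.ker π = Ideal.span (Set.range e) := by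
  classical
  suffices h : ∃ (m : ℕ) (π : MvPolynomial (Fin m) k →ₐ[k] A)
      (E : Set (MvPolynomial (Fin m) k)), E.Nonempty ∧ Function.Surjective π ∧
        E ⊆ Elem S (Fin m) ∧ RingHom.ker π = Ideal.span E by
    obtain ⟨m, π, E, ⟨p₀, hp₀⟩, h1, h2, h3⟩ := h
    have h4 : (Ideal.span E).FG := (isNoetherianRing_iff_ideal_fg _).mp inferInstance _
    obtain ⟨s₀, hs₀, hs₀'⟩ := (Submodule.fg_span_iff_fg_span_finset_subset E).1 h4
    obtain ⟨s, hsc, hs, hs'⟩ : ∃ s : Finset (MvPolynomial (Fin m) k), 0 < s.card ∧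
        (s : Set (MvPolynomial (Fin m) k)) ⊆ E ∧
        Submodule.span (MvPolynomial (Fin m) k) E = Submodule.span _ (s : Set _) := by
      have h5 : ((insert p₀ s₀ : Finset (MvPolynomial (Fin m) k)) : Set _) ⊆ E := by
        rw [Finset.coe_insert, Set.insert_subset_iff]
        exact ⟨hp₀, hs₀⟩
      refine ⟨insert p₀ s₀, Finset.card_pos.2 ⟨p₀, Finset.mem_insert_self _ _⟩, h5,
        le_antisymm ?_ (Submodule.span_mono h5)⟩
      rw [hs₀']
      exact Submodule.span_mono (by rw [Finset.coe_insert]; exact Set.subset_insert _ _)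
    refine ⟨m, s.card, fun j => (s.equivFin.symm j : MvPolynomial (Fin m) k), π, hsc,
      fun j => h2 (hs (s.equivFin.symm j).2), h1, ?_⟩
    have h5 : Set.range (fun j => (s.equivFin.symm j : MvPolynomial (Fin m) k)) =
        (s : Set (MvPolynomial (Fin m) k)) := by
      ext x
      constructor
      · rintro ⟨j, rfl⟩
        exact (s.equivFin.symm j).2
      · intro hx
        exact ⟨s.equivFin ⟨x, hx⟩, by simp⟩
    rw [h5, h3]
    exact hs'
  obtain ⟨n, f, hf⟩ := Algebra.FiniteType.iff_quotient_mvPolynomial''.mp hA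
  -- the polynomial ring has an elementary presentation without relations
  have h0 : IsPres S (X : Fin n → MvPolynomial (Fin n) k) := by
    refine ⟨fun p ↦ ⟨p, ev_self p⟩, ∅, Set.empty_subset _, ?_⟩
    rw [Ideal.span_empty, ← RingHom.injective_iff_ker_eq_bot]
    intro p q h
    rwa [ev_self, ev_self] at h
  obtain ⟨s, hs, h0s⟩ : ∃ s : Finset (MvPolynomial (Fin n) k),
      Ideal.span (s : Set (MvPolynomial (Fin n) k)) = RingHom.ker f ∧ 0 ∈ s := by
    obtain ⟨s₀, hs₀⟩ := (isNoetherianRing_iff_ideal_fg _).mp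
      (inferInstance : IsNoetherianRing (MvPolynomial (Fin n) k)) (RingHom.ker f)
    refine ⟨insert 0 s₀, ?_, Finset.mem_insert_self _ _⟩
    rw [Finset.coe_insert, Ideal.span_insert, Ideal.span_singleton_zero, bot_sup_eq]
    exact hs₀
  obtain ⟨κ, _, w, hw, hsw⟩ := exists_pres_of_finite hS h0 s.finite_toSet
  obtain ⟨m, ⟨e⟩⟩ := Finite.exists_equiv_fin κ
  obtain ⟨hsur, E, hE, hker⟩ := hw.reindex e
  have hsw' : (s : Set (MvPolynomial (Fin n) k)) ⊆ Set.range (w ∘ e.symm) := by
    intro x hx
    obtain ⟨i, rfl⟩ := hsw hx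
    exact ⟨e i, by simp⟩
  set u : Fin m → MvPolynomial (Fin n) k := w ∘ e.symm with hu
  -- the relations `x_k = x_k + x_k` for the variables whose value is in `s`
  let F : Set (MvPolynomial (Fin m) k) := {p | ∃ l, u l ∈ s ∧ p = X l - (X l + X l)}
  have hne : (E ∪ F).Nonempty := by
    obtain ⟨l, hl⟩ := hsw' h0s
    exact ⟨X l - (X l + X l), Or.inr ⟨l, by rw [hl]; exact h0s, rfl⟩⟩
  refine ⟨m, f.comp (ev k u), E ∪ F, hne, hf.comp hsur, ?_, ?_⟩
  · rintro p (hp | ⟨l, _, rfl⟩)
    · exact hE hp
    · exact Elem.add l l l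
  · apply le_antisymm
    · intro p hp
      have h1 : ev k u p ∈ RingHom.ker f := hp
      rw [← hs] at h1
      -- lift the relation
      have h2 : Ideal.span (s : Set (MvPolynomial (Fin n) k)) ≤
          Ideal.map (ev k u) (Ideal.span F) := by
        rw [Ideal.span_le]
        intro x hx
        obtain ⟨l, rfl⟩ := hsw' hx
        have : (ev k u) (-(X l - (X l + X l))) = u l := by
          simp
        rw [SetLike.mem_coe, ← this]
        exact Ideal.mem_map_of_mem _ (neg_mem (Ideal.subset_span ⟨l, hx, rfl⟩))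
      obtain ⟨q, hq, hq'⟩ := (Ideal.mem_map_iff_of_surjective _ hsur).mp (h2 h1)
      have h3 : p - q ∈ RingHom.ker (ev k u) := by
        rw [RingHom.mem_ker, map_sub, sub_eq_zero]
        exact hq'.symm
      rw [hker] at h3
      rw [Ideal.span_union]
      have := Ideal.add_mem (Ideal.span E ⊔ Ideal.span F)
        (Ideal.mem_sup_left h3) (Ideal.mem_sup_right hq)
      simpa using this
    · rw [Ideal.span_le]
      rintro p (hp | ⟨l, hl, rfl⟩)
      · have : ev k u p = 0 := by
          have h4 : p ∈ RingHom.ker (ev k u) := by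
            rw [hker]; exact Ideal.subset_span hp
          exact h4
        change f (ev k u p) = 0
        rw [this, map_zero]
      · change f (ev k u _) = 0
        have h5 : u l ∈ RingHom.ker f := by
          rw [← hs]; exact Ideal.subset_span hl
        have h6 : f (u l) = 0 := h5
        simp [h6]

end

end Pool.Agent.K6.H18.Cubic
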