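import Pool.Agent.K6.H18.Cubic.Split
import Pool.Agent.K6.H18.Cubic.Pres

/-!
The hypersurfaces `∑ u_j e_j(x) = w (1 - w)` in affine space.
-/

set_option autoImplicit false

open MvPolynomial

namespace Pool.Agent.K6.H18.Cubic

section
variable {k : Type} [CommRing k] {S : Set k} {m r : ℕ}

lemma sumAlgEquiv_poly (e : Fin r → MvPolynomial (Fin m) k) :
    sumAlgEquiv k (Option (Fin r)) (Fin m) (poly e) = rel e := by
  unfold poly rel
  simp only [map_sub, map_sum, map_mul, map_one]
  have h1 : ∀ o : Option (Fin r), sumAlgEquiv k (Option (Fin r)) (Fin m) (X (Sum.inl o)) = X o :=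
    fun o => sumAlgEquiv_X_inl _ _ _ _
  have h2 : ∀ f : MvPolynomial (Fin m) k,
      sumAlgEquiv k (Option (Fin r)) (Fin m) (rename Sum.inr f) = C f := fun f => by
    have : ((sumAlgEquiv k (Option (Fin r)) (Fin m)).toAlgHom.comp (rename Sum.inr)) =
        IsScalarTower.toAlgHom k (MvPolynomial (Fin m) k)
          (MvPolynomial (Option (Fin r)) (MvPolynomial (Fin m) k)) := by
      apply MvPolynomial.algHom_ext
      intro i
      simp
    exact DFunLike.congr_fun this f
  simp only [h1, h2]

/-- the two descriptions agree -/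
noncomputable def equivCub (e : Fin r → MvPolynomial (Fin m) k) : Hyp e ≃ₐ[k] Cub e :=
  Ideal.quotientEquivAlg (Ideal.span {poly e}) (Ideal.span {rel e})
    (sumAlgEquiv k (Option (Fin r)) (Fin m)) (by
      rw [Ideal.map_span, Set.image_singleton]
      congr 1
      exact congrArg _ (sumAlgEquiv_poly e).symm)

lemma Elem.totalDegree_le {ι : Type} {p : MvPolynomial ι k} (hp : p ∈ Elem S ι) :
    p.totalDegree ≤ 2 := by
  have hX : ∀ a : ι, (X a : MvPolynomial ι k).totalDegree ≤ 1 := fun a => by
    rcases subsingleton_or_nontrivial k with h | h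
    · have : (X a : MvPolynomial ι k) = 0 := Subsingleton.elim _ _
      rw [this]; simp
    · rw [totalDegree_X]
  obtain ⟨a, b, c, h | h | h | ⟨t, -, h⟩⟩ := hp
  · subst h
    refine (totalDegree_sub _ _).trans (max_le ((hX a).trans (by norm_num)) ?_)
    exact (totalDegree_mul _ _).trans (add_le_add (hX b) (hX c))
  · subst h
    refine (totalDegree_sub _ _).trans (max_le ((hX a).trans (by norm_num)) ?_)
    exact (totalDegree_add _ _).trans (max_le ((hX b).trans (by norm_num)) ((hX c).trans (by norm_num)))
  · subst h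
    refine (totalDegree_sub _ _).trans (max_le ((hX a).trans (by norm_num)) ?_)
    simp
  · subst h
    refine (totalDegree_sub _ _).trans (max_le ((hX a).trans (by norm_num)) ?_)
    simp

/-- the hypersurface has degree at most three -/
lemma totalDegree_poly_le (e : Fin r → MvPolynomial (Fin m) k) (he : ∀ j, e j ∈ Elem S (Fin m)) :
    (poly e).totalDegree ≤ 3 := by
  have hX : ∀ a : Option (Fin r) ⊕ Fin m,
      (X a : MvPolynomial (Option (Fin r) ⊕ Fin m) k).totalDegree ≤ 1 := fun a => by
    rcases subsingleton_or_nontrivial k with h | h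
    · have : (X a : MvPolynomial (Option (Fin r) ⊕ Fin m) k) = 0 := Subsingleton.elim _ _
      rw [this]; simp
    · rw [totalDegree_X]
  unfold poly
  refine (totalDegree_sub _ _).trans (max_le ?_ ?_)
  · refine totalDegree_finsetSum_le fun j _ => ?_
    refine (totalDegree_mul _ _).trans (add_le_add (hX _) (?_ : _ ≤ 2))
    exact (totalDegree_rename_le _ _).trans (Elem.totalDegree_le (he j))
  · refine (totalDegree_mul _ _).trans (add_le_add (hX _) (?_ : _ ≤ 2))
    refine (totalDegree_sub _ _).trans (max_le (by simp) ((hX _).trans (by norm_num)))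

lemma Elem.ne_zero [Nontrivial k] {ι : Type} {p : MvPolynomial ι k} (hp : p ∈ Elem S ι) :
    p ≠ 0 := by
  intro h0
  have h1 : aeval (fun _ => (Polynomial.X : Polynomial k)) p = 0 := by rw [h0, map_zero]
  obtain ⟨a, b, c, h | h | h | ⟨t, -, h⟩⟩ := hp
  · subst h
    have h2 := congrArg (fun q => Polynomial.coeff q 1) h1
    simp only [map_sub, map_mul, aeval_X, Polynomial.coeff_sub, Polynomial.coeff_X_one,
      Polynomial.coeff_zero, Polynomial.coeff_X_mul, Polynomial.coeff_X_zero, sub_zero] at h2
    exact one_ne_zero h2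
  · subst h
    have h2 := congrArg (fun q => Polynomial.coeff q 1) h1
    simp only [map_sub, map_add, aeval_X, sub_add_cancel_left, Polynomial.coeff_neg,
      Polynomial.coeff_X_one, Polynomial.coeff_zero, neg_eq_zero] at h2
    exact one_ne_zero h2
  · subst h
    have h2 := congrArg (fun q => Polynomial.coeff q 1) h1
    simp [Polynomial.coeff_one] at h2
  · subst h
    have h2 := congrArg (fun q => Polynomial.coeff q 1) h1
    simp at h2

/-- smoothness over the base -/
lemma smoothRel_hyp (e : Fin r → MvPolynomial (Fin m) k) :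
    SmoothRel (m + r) (algebraMap k (Hyp e)) := by
  have h1 : SmoothRel m (C : k →+* MvPolynomial (Fin m) k) := smoothRel_const ℤ k m
  have h2 := smoothRel_cub (k := k) e
  have h3 := SmoothRel.equiv (equivCub e).symm.toRingEquiv
  have h4 := (h1.comp h2 (d'' := m + r) rfl).comp h3 (d'' := m + r) rfl
  have h5 : algebraMap k (Hyp e) = ((equivCub e).symm.toRingEquiv : Cub e →+* Hyp e).comp
      ((Cub.p k e : MvPolynomial (Fin m) k →+* Cub e).comp C) := by
    ext a
    exact (((equivCub e).symm.toAlgHom.comp (Cub.p k e)).commutes a).symm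
  rw [h5]
  exact h4

lemma equivCub_xHyp (e : Fin r → MvPolynomial (Fin m) k) (f : MvPolynomial (Fin m) k) :
    equivCub e (xHyp e f) = Cub.p k e f := by
  have : (equivCub e).toAlgHom.comp (xHyp e) = Cub.p k e := by
    apply MvPolynomial.algHom_ext
    intro i
    show equivCub e (Ideal.Quotient.mk _ (rename Sum.inr (X i))) = _
    rw [rename_X]
    show Ideal.Quotient.mk _ (sumAlgEquiv k (Option (Fin r)) (Fin m) (X (Sum.inr i))) = _
    rw [sumAlgEquiv_X_inr]
    rfl
  exact DFunLike.congr_fun this f

lemma away_equiv {A B : Type} [CommRing A] [Algebra k A] [CommRing B] [Algebra k B]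
    (φ : A ≃ₐ[k] B) (a : A) (b : B) (h : φ a = b) :
    Nonempty (Localization.Away a ≃ₐ[k] Localization.Away b) := by
  have key : ∀ ψ : A →ₐ[k] B, Function.Bijective ψ → ψ a = b →
      Nonempty (Localization.Away a ≃ₐ[k] Localization.Away b) := by
    intro ψ hψ hb
    subst hb
    exact ⟨AlgEquiv.ofBijective (Localization.awayMapₐ ψ a)
      ⟨IsLocalization.Away.mapₐ_injective_of_injective a hψ.1,
        IsLocalization.Away.mapₐ_surjective_of_surjective a hψ.2⟩⟩
  exact key φ φ.bijective h

/-- the open subscheme where `e_j` does not vanish is an open subscheme of affine space -/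
lemma exists_equiv_hyp (e : Fin r → MvPolynomial (Fin m) k) (j : Fin r) :
    Nonempty (MvPolynomial (Fin r) (Localization.Away (e j)) ≃ₐ[k]
      Localization.Away (xHyp e (e j))) := by
  obtain ⟨σ, hσ⟩ := Cub.exists_equiv_away (k := k) (e := e) j
  let τ : MvPolynomial (Fin r) (Localization.Away (e j)) ≃ₐ[k]
      Localization.Away (Cub.p k e (e j)) :=
    AlgEquiv.ofRingEquiv (f := σ) (fun a => by
      rw [IsScalarTower.algebraMap_apply k (Localization.Away (e j))
        (MvPolynomial (Fin r) (Localization.Away (e j))), MvPolynomial.algebraMap_eq, ← hσ]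
      exact (Localization.awayMapₐ (Cub.p k e) (e j)).commutes a)
  obtain ⟨ρ⟩ := away_equiv (equivCub e) _ _ (equivCub_xHyp e (e j))
  exact ⟨τ.trans ρ.symm⟩

end

section domain
variable {B : Type} [CommRing B] {r : ℕ}

/-- the polynomial is monic in `w` up to sign, so it is not a zero divisor -/
lemma rel_mem_nonZeroDivisors (e : Fin r → B) :
    rel e ∈ nonZeroDivisors (MvPolynomial (Option (Fin r)) B) := by
  let Φ := MvPolynomial.optionEquivLeft B (Fin r)
  have h1 : Φ (rel e) = Polynomial.X ^ 2 - Polynomial.X +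
      Polynomial.C (∑ j, X j * C (e j)) := by
    unfold rel
    simp only [map_sub, map_sum, map_mul, map_one, Φ, optionEquivLeft_X_some,
      optionEquivLeft_X_none, optionEquivLeft_C]
    ring
  have h2 : (Φ (rel e)).Monic := by
    rw [h1]
    nontriviality B
    have h3 : (Polynomial.X ^ 2 - Polynomial.X + Polynomial.C (∑ j, X j * C (e j)) :
      Polynomial (MvPolynomial (Fin r) B)) = Polynomial.X ^ 2 +
        (-Polynomial.X + Polynomial.C (∑ j, X j * C (e j))) := by ring
    rw [h3]
    apply Polynomial.monic_X_pow_add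
    refine (Polynomial.degree_add_le _ _).trans_lt (max_lt ?_ ?_)
    · rw [Polynomial.degree_neg, Polynomial.degree_X]; norm_num
    · exact Polynomial.degree_C_le.trans_lt (by norm_num)
  have h4 : Φ (rel e) ∈ nonZeroDivisors (Polynomial (MvPolynomial (Fin r) B)) :=
    h2.mem_nonZeroDivisors
  rw [mem_nonZeroDivisors_iff_right] at h4 ⊢
  intro x hx
  have h5 := h4 (Φ x) (by rw [← map_mul, hx, map_zero])
  exact (map_eq_zero_iff Φ Φ.injective).1 h5

lemma p_mem_nonZeroDivisors [IsDomain B] (e : Fin r → B) (f : B) (hf : f ≠ 0) :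
    Cub.p ℤ e f ∈ nonZeroDivisors (Cub e) := by
  rw [mem_nonZeroDivisors_iff_right]
  intro x hx
  obtain ⟨h, rfl⟩ := Ideal.Quotient.mk_surjective x
  have h1 : Ideal.Quotient.mk (Ideal.span {rel e}) (h * C f) = 0 := by
    rw [map_mul]; exact hx
  rw [Ideal.Quotient.eq_zero_iff_mem, Ideal.mem_span_singleton] at h1
  obtain ⟨g, hg⟩ := h1
  have h2 : rel (fun j => Ideal.Quotient.mk (Ideal.span {f}) (e j)) *
      MvPolynomial.map (Ideal.Quotient.mk (Ideal.span {f})) g = 0 := by
    have h3 : rel (fun j => Ideal.Quotient.mk (Ideal.span {f}) (e j)) =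
        MvPolynomial.map (Ideal.Quotient.mk (Ideal.span {f})) (rel e) := by
      unfold rel
      simp
    rw [h3, ← map_mul, ← hg, map_mul, MvPolynomial.map_C,
      Ideal.Quotient.eq_zero_iff_mem.2 (Ideal.mem_span_singleton_self f), map_zero, mul_zero]
  have h3 := (mem_nonZeroDivisors_iff_left.1 (rel_mem_nonZeroDivisors
    (fun j => Ideal.Quotient.mk (Ideal.span {f}) (e j)))) _ h2
  have h4 : g ∈ RingHom.ker (MvPolynomial.map (σ := Option (Fin r))
      (Ideal.Quotient.mk (Ideal.span {f}))) := h3
  rw [MvPolynomial.ker_map, Ideal.mk_ker, Ideal.map_span, Set.image_singleton,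
    Ideal.mem_span_singleton] at h4
  obtain ⟨g', rfl⟩ := h4
  have h5 : C f * (h - rel e * g') = 0 := by linear_combination hg
  have h6 : (C f : MvPolynomial (Option (Fin r)) B) ≠ 0 := by
    simpa using hf
  have h7 : h = rel e * g' := by
    rcases mul_eq_zero.1 h5 with h | h
    · exact absurd h h6
    · exact sub_eq_zero.1 h
  rw [h7]
  exact Ideal.Quotient.eq_zero_iff_mem.2 (Ideal.mem_span_singleton.2 (dvd_mul_right _ _))

lemma isDomain_cub [IsDomain B] (e : Fin r → B) (j : Fin r) (hj : e j ≠ 0) :
    IsDomain (Cub e) := by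
  obtain ⟨σ, -⟩ := Cub.exists_equiv_away (k := ℤ) (e := e) j
  have h1 : IsDomain (Localization.Away (e j)) :=
    IsLocalization.isDomain_localization (powers_le_nonZeroDivisors_of_noZeroDivisors hj)
  have h2 : IsDomain (Localization.Away (Cub.p ℤ e (e j))) :=
    σ.symm.toMulEquiv.isDomain (MvPolynomial (Fin r) (Localization.Away (e j)))
  have h3 : Submonoid.powers (Cub.p ℤ e (e j)) ≤ nonZeroDivisors (Cub e) := by
    rw [Submonoid.powers_le]
    exact p_mem_nonZeroDivisors e (e j) hj
  exact (IsLocalization.injective (Localization.Away (Cub.p ℤ e (e j))) h3).isDomain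
    (algebraMap _ _)

end domain

end Pool.Agent.K6.H18.Cubic
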