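import Pool.Agent.K6.H18.Cubic.Geo

/-!
Borel-Moore homology of a disjoint union.
-/

set_option autoImplicit false

open MvPolynomial

namespace Pool.Agent.K6.H18.Cubic

section
variable {k : Type} [CommRing k] (T : BorelMoore k)

lemma exists_equiv_loc_of_isUnit (k : Type) [CommRing k] {B : Type} [CommRing B] [Algebra k B]
    {f : B} (hf : IsUnit f) :
    ∃ σ : MvPolynomial (Fin 0) B ≃+* Localization.Away f, ∀ x, loc k f x = σ (C x) := by
  have h : Function.Bijective (algebraMap B (Localization.Away f)) :=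
    (IsLocalization.atUnit B (Localization.Away f) f hf).bijective
  refine ⟨(isEmptyRingEquiv B (Fin 0)).trans (RingEquiv.ofBijective _ h), fun x => ?_⟩
  have h3 : isEmptyRingEquiv B (Fin 0) (C x) = x := by
    rw [← isEmptyRingEquiv_symm_apply B (Fin 0) x, RingEquiv.apply_symm_apply]
  simp only [RingEquiv.trans_apply, h3]
  rfl

/-- the group of the empty scheme is zero -/
lemma BorelMoore.eq_zero_of_isUnit {B C : Type} [CommRing B] [Algebra k B] [CommRing C]
    [Algebra k C] [Algebra.FiniteType k B] {f : B} (hf : IsUnit f) (φ : B →ₐ[k] C)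
    (hφ : Function.Surjective φ) (hk : RingHom.ker φ = Ideal.span {f}) {a b : ℤ} (x : T.H C a b) :
    x = 0 := by
  obtain ⟨σ, hσ⟩ := exists_equiv_loc_of_isUnit k hf
  have hl := smoothRel_loc k f
  have hb : b = b + (0 : ℕ) := by simp
  have h1 := T.homotopy 0 σ (loc k f) hσ hl hb a
  have h2 := T.homotopy 0 σ (loc k f) hσ hl hb (a + 1)
  have e1 := T.exact_base f φ hφ hk hl a b hb
  have e2 := T.exact_open f φ hφ hk hl a b hb
  have e3 := T.exact_closed f φ hφ hk a b
  have hpull : T.pull (loc k f) 0 hl hb a (T.push φ hφ a b x) = 0 := (e1 _).2 ⟨x, rfl⟩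
  have hpush : T.push φ hφ a b x = 0 := h1.1 (by rw [hpull, map_zero])
  obtain ⟨y, hy⟩ := (e3 x).1 hpush
  obtain ⟨z, hz⟩ := h2.2 y
  rw [← hy, ← hz]
  exact (e2 _).2 ⟨z, rfl⟩

lemma BorelMoore.eq_zero {B : Type} [CommRing B] [Algebra k B] [Subsingleton B] {a b : ℤ}
    (x : T.H B a b) : x = 0 := by
  have hft : Algebra.FiniteType k B :=
    Algebra.FiniteType.of_surjective (Algebra.ofId k B) (fun y => ⟨0, Subsingleton.elim _ _⟩)
  exact T.eq_zero_of_isUnit (f := (1 : B)) isUnit_one (AlgHom.id k B) (fun y => ⟨y, rfl⟩)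
    (Subsingleton.elim _ _) x

/-- push-forward along the identity is the identity -/
lemma BorelMoore.push_id {B : Type} [CommRing B] [Algebra k B] [Algebra.FiniteType k B]
    (h : Function.Surjective (AlgHom.id k B)) (a b : ℤ) (x : T.H B a b) :
    T.push (AlgHom.id k B) h a b x = x := by
  have hk : RingHom.ker (AlgHom.id k B) = Ideal.span {(0 : B)} := by
    rw [Ideal.span_singleton_zero, ← RingHom.injective_iff_ker_eq_bot]
    exact fun x y hxy => hxy
  have hl := smoothRel_loc k (0 : B)
  have hb : b = b + (0 : ℕ) := by simp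
  have hsub : Subsingleton (Localization.Away (0 : B)) := by
    apply IsLocalization.subsingleton (M := Submonoid.powers (0 : B))
    exact Submonoid.mem_powers _
  have e1 := T.exact_base (0 : B) (AlgHom.id k B) h hk hl a b hb
  have e3 := T.exact_closed (0 : B) (AlgHom.id k B) h hk a b
  have hinj : ∀ y : T.H B a b, T.push (AlgHom.id k B) h a b y = 0 → y = 0 := by
    intro y hy
    obtain ⟨z, hz⟩ := (e3 y).1 hy
    rw [← hz, T.eq_zero z, map_zero]
  have hidem : T.push (AlgHom.id k B) h a b (T.push (AlgHom.id k B) h a b x) =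
      T.push (AlgHom.id k B) h a b x :=
    (T.push_comp (AlgHom.id k B) (AlgHom.id k B) h h h a b x).symm
  have := hinj (T.push (AlgHom.id k B) h a b x - x) (by rw [map_sub, hidem, sub_self])
  exact sub_eq_zero.1 this

/-- The group of a disjoint union is the direct sum. -/
theorem BorelMoore.prod_bijective {B C₁ C₂ : Type} [CommRing B] [Algebra k B] [CommRing C₁]
    [Algebra k C₁] [CommRing C₂] [Algebra k C₂] [Algebra.FiniteType k B] (f : B)
    (hf : f * f = f) (φ₁ : B →ₐ[k] C₁) (φ₂ : B →ₐ[k] C₂) (h₁ : Function.Surjective φ₁)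
    (h₂ : Function.Surjective φ₂) (hk₁ : RingHom.ker φ₁ = Ideal.span {1 - f})
    (hk₂ : RingHom.ker φ₂ = Ideal.span {f}) (a b : ℤ) :
    Function.Bijective (fun x : T.H C₁ a b × T.H C₂ a b =>
      T.push φ₁ h₁ a b x.1 + T.push φ₂ h₂ a b x.2) := by
  have hft : Algebra.FiniteType k C₁ := Algebra.FiniteType.of_surjective φ₁ h₁
  have hl := smoothRel_loc k f
  have hb : b = b + (0 : ℕ) := by simp
  -- the isomorphism of `C₁` with the localization
  have hunit : IsUnit (algebraMap B (Localization.Away f) f) :=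
    IsLocalization.Away.algebraMap_isUnit f
  have hf1 : algebraMap B (Localization.Away f) (1 - f) = 0 := by
    have h3 : algebraMap B (Localization.Away f) f * algebraMap B (Localization.Away f) (1 - f) = 0 := by
      rw [← map_mul, mul_sub, mul_one, hf, sub_self, map_zero]
    exact (hunit.mul_right_eq_zero).1 h3
  have hker : ∀ x ∈ RingHom.ker φ₁, loc k f x = 0 := by
    intro x hx
    rw [hk₁, Ideal.mem_span_singleton] at hx
    obtain ⟨y, rfl⟩ := hx
    show algebraMap B (Localization.Away f) _ = 0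
    rw [map_mul, hf1, zero_mul]
  let ψ' : C₁ →ₐ[k] Localization.Away f := AlgHom.liftOfSurjective φ₁ h₁ (loc k f) hker
  have hψ' : ∀ x, ψ' (φ₁ x) = loc k f x := AlgHom.liftOfSurjective_apply φ₁ h₁ _ hker
  have hcomm : (AlgHom.id k (Localization.Away f)).comp (loc k f) = ψ'.comp φ₁ :=
    AlgHom.ext fun x => (hψ' x).symm
  have hφf : φ₁ f = 1 := by
    have : φ₁ (1 - f) = 0 := by
      have h3 : (1 - f) ∈ RingHom.ker φ₁ := by rw [hk₁]; exact Ideal.mem_span_singleton_self _
      exact h3
    rw [map_sub, map_one, sub_eq_zero] at this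
    exact this.symm
  have hbij : Function.Bijective ψ' := by
    constructor
    · intro x y hxy
      obtain ⟨x, rfl⟩ := h₁ x
      obtain ⟨y, rfl⟩ := h₁ y
      rw [hψ', hψ'] at hxy
      obtain ⟨⟨_, n, rfl⟩, hn⟩ := (IsLocalization.eq_iff_exists (Submonoid.powers f)
        (Localization.Away f)).1 hxy
      have h3 := congrArg φ₁ hn
      simpa [hφf] using h3
    · intro z
      obtain ⟨⟨x, ⟨_, n, rfl⟩⟩, hx⟩ := IsLocalization.surj (Submonoid.powers f) z
      refine ⟨φ₁ x, ?_⟩
      rw [hψ']
      have h4 : algebraMap B (Localization.Away f) f = 1 := by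
        rw [map_sub, map_one, sub_eq_zero] at hf1
        exact hf1.symm
      have h5 : algebraMap B (Localization.Away f) (f ^ n) = 1 := by rw [map_pow, h4, one_pow]
      simp only [h5, mul_one] at hx
      exact hx.symm
  let τ : C₁ ≃+* Localization.Away f := RingEquiv.ofBijective (ψ' : C₁ →+* Localization.Away f) hbij
  have hσ : ∀ x, ψ' x = ((isEmptyRingEquiv C₁ (Fin 0)).trans τ) (C x) := by
    intro x
    have h3 : isEmptyRingEquiv C₁ (Fin 0) (C x) = x := by
      rw [← isEmptyRingEquiv_symm_apply C₁ (Fin 0) x, RingEquiv.apply_symm_apply]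
    simp only [RingEquiv.trans_apply, h3]
    rfl
  have hs' : SmoothRel 0 (ψ' : C₁ →+* Localization.Away f) := smoothRel_of_equiv 0 _ ψ' hσ
  have hid : Function.Surjective (AlgHom.id k (Localization.Away f)) := fun x => ⟨x, rfl⟩
  have hkk : RingHom.ker (AlgHom.id k (Localization.Away f)) =
      (RingHom.ker φ₁).map (loc k f) := by
    rw [hk₁, Ideal.map_span, Set.image_singleton]
    have h3 : loc k f (1 - f) = 0 := hf1
    rw [h3, Ideal.span_singleton_zero, ← RingHom.injective_iff_ker_eq_bot]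
    exact fun x y hxy => hxy
  have hftl : Algebra.FiniteType k (Localization.Away f) :=
    Algebra.FiniteType.of_surjective (ψ'.comp φ₁) (hbij.2.comp h₁)
  have key : ∀ a, Function.Bijective (fun x => T.pull (loc k f) 0 hl hb a (T.push φ₁ h₁ a b x)) := by
    intro a
    have h3 := T.homotopy 0 _ ψ' hσ hs' hb a
    refine (congrArg Function.Bijective ?_).mp h3
    funext x
    rw [T.base_change φ₁ h₁ (loc k f) (AlgHom.id k _) hid ψ' hcomm hkk 0 hl hs' hb a x, T.push_id]
  exact chase0 (T.push φ₁ h₁ a b) (T.pull (loc k f) 0 hl hb a) (T.push φ₂ h₂ a b)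
    (T.bdry f φ₂ h₂ hk₂ a b) (T.push φ₁ h₁ (a + 1) b) (T.pull (loc k f) 0 hl hb (a + 1))
    (AddMonoidHom.id _) (T.exact_base _ _ _ hk₂ _ _ _ _) (T.exact_closed _ _ _ hk₂ _ _)
    (T.exact_open _ _ _ hk₂ _ _ _ _) (key a) (key (a + 1)) Function.bijective_id

end

end Pool.Agent.K6.H18.Cubic
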