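import Pool.Agent.K6.H18.Cubic.Summand

/-!
Theories with values in vector spaces, and Zariski closures.
-/

set_option autoImplicit false

open MvPolynomial AlgebraicGeometry CategoryTheory

namespace Pool.Agent.K6.H18.Cubic

open Alg

/-- The polynomial functions on a vector space: the algebra generated by the linear forms. -/
def polynomialFunctions (E V : Type) [Field E] [AddCommGroup V] [Module E V] :
    Subalgebra E (V → E) :=
  Algebra.adjoin E (Set.range fun φ : Module.Dual E V => (φ : V → E))

/-- The Zariski closure of the set of all `ρ x` in the space of endomorphisms of `V` contains all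
`τ g`. -/
def ClosureContains {E V Γ G : Type} [Field E] [AddCommGroup V] [Module E V]
    (ρ : Γ → V →ₗ[E] V) (τ : G → V →ₗ[E] V) : Prop :=
  ∀ f ∈ polynomialFunctions E (V →ₗ[E] V), (∀ x, f (ρ x) = 0) → ∀ g, f (τ g) = 0

lemma comp_mem_polynomialFunctions {E V V' : Type} [Field E] [AddCommGroup V] [Module E V]
    [AddCommGroup V'] [Module E V'] (L : V' →ₗ[E] V) {f : V → E}
    (hf : f ∈ polynomialFunctions E V) : (fun x => f (L x)) ∈ polynomialFunctions E V' := by
  unfold polynomialFunctions at hf
  induction hf using Algebra.adjoin_induction with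
  | mem f hf =>
    obtain ⟨φ, rfl⟩ := hf
    exact Algebra.subset_adjoin ⟨φ.comp L, rfl⟩
  | algebraMap c => exact Subalgebra.algebraMap_mem _ c
  | add f g _ _ hf hg => exact add_mem hf hg
  | mul f g _ _ hf hg => exact mul_mem hf hg

/-- The property passes to direct summands. -/
lemma ClosureContains.of_summand {E V V' Γ G : Type} [Field E] [AddCommGroup V] [Module E V]
    [AddCommGroup V'] [Module E V'] {ρ : Γ → V →ₗ[E] V} {τ : G → V →ₗ[E] V}
    {ρ' : Γ → V' →ₗ[E] V'} {τ' : G → V' →ₗ[E] V'} (i : V →ₗ[E] V') (p : V' →ₗ[E] V)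
    (hip : ∀ x, p (i x) = x) (h1 : ∀ g x, ρ' g (i x) = i (ρ g x))
    (h2 : ∀ g x, τ' g (i x) = i (τ g x)) (h : ClosureContains ρ' τ') : ClosureContains ρ τ := by
  intro f hf hρ g
  let L : (V' →ₗ[E] V') →ₗ[E] (V →ₗ[E] V) :=
    { toFun := fun u => p ∘ₗ u ∘ₗ i
      map_add' := fun u v => by ext x; simp
      map_smul' := fun c u => by ext x; simp }
  have hL1 : ∀ g, L (ρ' g) = ρ g := fun g => by
    ext x
    show p (ρ' g (i x)) = ρ g x
    rw [h1, hip]
  have hL2 : ∀ g, L (τ' g) = τ g := fun g => by
    ext x
    show p (τ' g (i x)) = τ g x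
    rw [h2, hip]
  have h3 := h _ (comp_mem_polynomialFunctions L hf) (fun x => by rw [hL1]; exact hρ x) g
  rwa [hL2] at h3

/-- Theories whose groups are vector spaces over the field `E`. -/
structure LinearBMD (k E : Type) [CommRing k] [Field E] extends BM k where
  [module : ∀ (B : Alg k) (a b : ℤ), Module E (H B a b)]

attribute [instance] LinearBMD.module

namespace LinearBMD
variable {k E : Type} [CommRing k] [Field E] (T : LinearBMD k E)

/-- multiplication by the scalar `t` -/
def smulf {B : Alg k} {a b : ℤ} (t : E) (x : T.H B a b) : T.H B a b := t • x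

/-- push-forward is linear -/
def PushLinear : Prop :=
  ∀ {B C : Alg k} (φ : Map B C) (h : φ.IsClosed) (a b : ℤ) (t : E) (x : T.H C a b),
    T.pushf φ h (T.smulf t x) = T.smulf t (T.pushf φ h x)

/-- pull-back is linear -/
def PullLinear : Prop :=
  ∀ {B C : Alg k} (ψ : Map B C) (d : ℕ) (h : ψ.IsSmooth d) {b b' : ℤ} (hb : b' = b + d) (a : ℤ)
    (t : E) (x : T.H B a b), T.pullf ψ h hb (T.smulf t x) = T.smulf t (T.pullf ψ h hb x)

end LinearBMD

/-- Borel-Moore homology theories with values in vector spaces over the field `E`. -/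
structure LinearBM (k E : Type) [CommRing k] [Field E] extends LinearBMD k E where
  push_smul : toLinearBMD.PushLinear
  pull_smul : toLinearBMD.PullLinear

/-- Families of endomorphisms of the vector spaces of a theory. -/
structure EndD {k E : Type} [CommRing k] [Field E] (T : LinearBMD k E) where
  /-- the endomorphisms -/
  map : ∀ (B : Alg k) (a b : ℤ), T.H B a b →ₗ[E] T.H B a b

namespace EndD
variable {k E : Type} [CommRing k] [Field E] {T : LinearBMD k E} (F : EndD T)

/-- the image of an element -/
def mapf {B : Alg k} {a b : ℤ} (x : T.H B a b) : T.H B a b := F.map B a b x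

/-- compatibility with push-forward -/
def MapPush : Prop :=
  ∀ {B C : Alg k}, B.IsFiniteType → ∀ (φ : Map B C) (h : φ.IsClosed) (a b : ℤ)
    (x : T.H C a b), F.mapf (T.pushf φ h x) = T.pushf φ h (F.mapf x)

/-- compatibility with pull-back -/
def MapPull : Prop :=
  ∀ {B C : Alg k}, B.IsFiniteType → ∀ (ψ : Map B C) (d : ℕ) (h : ψ.IsSmooth d)
    {b b' : ℤ} (hb : b' = b + d) (a : ℤ) (x : T.H B a b),
    F.mapf (T.pullf ψ h hb x) = T.pullf ψ h hb (F.mapf x)

end EndD

/-- Endomorphisms of a theory with values in vector spaces. -/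
structure LinearBM.End {k E : Type} [CommRing k] [Field E] (T : LinearBM k E) extends
    EndD T.toLinearBMD where
  map_push : toEndD.MapPush
  map_pull : toEndD.MapPull

/-- an endomorphism as a morphism of theories -/
def LinearBM.End.hom {k E : Type} [CommRing k] [Field E] {T : LinearBM k E} (F : T.End) :
    BM.Hom T.toBM T.toBM where
  map B a b := (F.map B a b).toAddMonoidHom
  map_push {_ _} hB φ h a b x := F.map_push hB φ h a b x
  map_pull {_ _} hB ψ d h _ _ hb a x := F.map_pull hB ψ d h hb a x

/-- multiplication by a scalar -/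
def LinearBM.scalar {k E : Type} [CommRing k] [Field E] (T : LinearBM k E) (t : E) :
    BM.Hom T.toBM T.toBM where
  map B a b := DistribSMul.toAddMonoidHom (T.H B a b) t
  map_push {_ _} _ φ h a b x := (T.push_smul φ h a b t x).symm
  map_pull {_ _} _ ψ d h _ _ hb a x := (T.pull_smul ψ d h hb a t x).symm

/-- The Zariski closure of the Galois group contains the motivic Galois group, for all weights `w`
and all degrees. -/
def ZariskiDense {k E Γ G W : Type} [CommRing k] [Field E] (T : W → LinearBM k E)
    (gal : ∀ w, Γ → (T w).End) (mot : ∀ w, G → (T w).End) (B : Alg k) (b : ℤ) : Prop :=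
  ∀ (w : W) (a : ℤ), ClosureContains (fun x => (gal w x).map B a b) (fun g => (mot w g).map B a b)

lemma inherited_zariskiDense {k E Γ G W : Type} [Field k] [Field E] (T : W → LinearBM k E)
    (gal : ∀ w, Γ → (T w).End) (mot : ∀ w, G → (T w).End) :
    Inherited (ZariskiDense T gal mot) := by
  rintro B C n ⟨s, hs, h1, h2⟩ b h w a
  let i' : (T w).H B a b →ₗ[E] (T w).H C a (b + n) :=
    { toFun := s.incl (T w).toBM a b
      map_add' := (s.incl (T w).toBM a b).map_add
      map_smul' := fun t x => (h1 _ _ ((T w).scalar t) a b x).symm }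
  let p' : (T w).H C a (b + n) →ₗ[E] (T w).H B a b :=
    { toFun := s.proj (T w).toBM a b
      map_add' := (s.proj (T w).toBM a b).map_add
      map_smul' := fun t y => (h2 _ _ ((T w).scalar t) a b y).symm }
  exact ClosureContains.of_summand i' p' (hs (T w).toBM a b)
    (fun g x => h1 _ _ (gal w g).hom a b x) (fun g x => h1 _ _ (mot w g).hom a b x) (h w a)

end Pool.Agent.K6.H18.Cubic
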