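import Pool.Agent.K6.H18.Cubic.Alg
import Pool.Agent.K6.H18.Cubic.Defs

/-!
The closed part and the open part of `Spec (Cub e)`.
-/

set_option autoImplicit false

open MvPolynomial

namespace Pool.Agent.K6.H18.Cubic

@[simp] lemma const_apply (k : Type) [CommRing k] (B : Type) [CommRing B] [Algebra k B] (r : ℕ)
    (b : B) : const k B r b = C b := rfl

lemma loc_apply (k : Type) [CommRing k] {B : Type} [CommRing B] [Algebra k B] (f : B)
    (b : B) : loc k f b = algebraMap B (Localization.Away f) b := rfl

lemma awayMap_loc {k : Type} [CommRing k] {B C : Type} [CommRing B] [Algebra k B]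
    [CommRing C] [Algebra k C] (ψ : B →ₐ[k] C) (f b : B) :
    Localization.awayMapₐ ψ f (loc k f b) = loc k (ψ f) (ψ b) :=
  IsLocalization.map_eq (S := Localization.Away f) (Q := Localization.Away (ψ f))
    (M := Submonoid.powers f) (T := Submonoid.powers (ψ f))
    (by rintro _ ⟨n, rfl⟩; exact ⟨n, by simp⟩) b

section
variable {k : Type} [CommRing k]

instance {B : Type} [CommRing B] [Algebra k B] [Algebra.FiniteType k B] (f : B) :
    Algebra.FiniteType k (Localization.Away f) :=
  Algebra.FiniteType.trans (S := B) inferInstance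
    (IsLocalization.finiteType_of_monoid_fg (.powers f) _)

instance {B : Type} [CommRing B] [Algebra k B] [Algebra.FiniteType k B] (r : ℕ) :
    Algebra.FiniteType k (MvPolynomial (Fin r) B) :=
  Algebra.FiniteType.trans (S := B) inferInstance inferInstance

instance {B : Type} [CommRing B] [Algebra k B] [Algebra.FiniteType k B] {r : ℕ} (e : Fin r → B) :
    Algebra.FiniteType k (Cub e) := by
  have h : Algebra.FiniteType k (MvPolynomial (Option (Fin r)) B) :=
    Algebra.FiniteType.trans (S := B) inferInstance inferInstance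
  exact Algebra.FiniteType.of_surjective (Ideal.Quotient.mkₐ k (Ideal.span {rel e}))
    Ideal.Quotient.mk_surjective

end

namespace Cub

variable {k : Type} [CommRing k] {B : Type} [CommRing B] [Algebra k B] {r : ℕ} {e : Fin r → B}

section
variable {Z : Type} [CommRing Z] [Algebra k Z] (π : B →ₐ[k] Z) (hπ : ∀ j, π (e j) = 0)

/-- the closed immersion of `Spec Z[u_1, …, u_r]`, as the component `w = 0` of the preimage of
`Spec Z` -/
noncomputable def i : Cub e →ₐ[k] MvPolynomial (Fin r) Z :=
  lift ((const k Z r).comp π) X 0 (by simp [hπ])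

@[simp] lemma i_p (b : B) : i π hπ (p k e b) = C (π b) := by simp [i]
@[simp] lemma i_u (j : Fin r) : i π hπ (u e j) = X j := by simp [i]
@[simp] lemma i_w : i π hπ (w e) = 0 := by simp [i]

lemma i_surjective (h : Function.Surjective π) : Function.Surjective (i π hπ) := by
  intro x
  show x ∈ (i π hπ).range
  induction x using MvPolynomial.induction_on with
  | C z => obtain ⟨b, rfl⟩ := h z; exact ⟨p k e b, by simp⟩
  | add p q hp hq => exact add_mem hp hq
  | mul_X p j hp => exact mul_mem hp ⟨u e j, by simp⟩

lemma i_map {B' : Type} [CommRing B'] [Algebra k B'] (g : B →ₐ[k] B') {e' : Fin r → B'}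
    (he : ∀ j, e' j = g (e j)) (π' : B' →ₐ[k] Z) (hπ' : ∀ j, π' (e' j) = 0)
    (hg : π'.comp g = π) : (i π' hπ').comp (map g he) = i π hπ := by
  apply algHom_ext
  · intro b
    have := DFunLike.congr_fun hg b
    simpa using this
  · intro j; simp
  · simp

lemma ker_i (h : Function.Surjective π) :
    RingHom.ker (i π hπ) = Ideal.span {w e} ⊔ (RingHom.ker π).map (p k e) := by
  apply le_antisymm
  · set J : Ideal (Cub e) := Ideal.span {w e} ⊔ (RingHom.ker π).map (p k e) with hJ
    have hgJ : ∀ b ∈ RingHom.ker π, ((Ideal.Quotient.mkₐ k J).comp (p k e)) b = 0 := by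
      intro b hb
      rw [AlgHom.comp_apply, Ideal.Quotient.mkₐ_eq_mk, Ideal.Quotient.eq_zero_iff_mem]
      exact Ideal.mem_sup_right (Ideal.mem_map_of_mem _ hb)
    let β : Z →ₐ[k] Cub e ⧸ J := AlgHom.liftOfSurjective π h ((Ideal.Quotient.mkₐ k J).comp (p k e)) hgJ
    have hβ : ∀ b, β (π b) = Ideal.Quotient.mkₐ k J (p k e b) := fun b => by
      exact AlgHom.liftOfSurjective_apply π h _ hgJ b
    obtain ⟨inv, hinvC, hinvX⟩ : ∃ inv : MvPolynomial (Fin r) Z →ₐ[k] Cub e ⧸ J,
        (∀ z, inv (C z) = β z) ∧ ∀ j, inv (X j) = Ideal.Quotient.mkₐ k J (u e j) := by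
      refine ⟨{ eval₂Hom (β : Z →+* Cub e ⧸ J) (fun j => Ideal.Quotient.mkₐ k J (u e j)) with
        commutes' := fun a => ?_ }, fun z => eval₂Hom_C _ _ _, fun j => eval₂Hom_X' _ _ _⟩
      show eval₂Hom (β : Z →+* Cub e ⧸ J) (fun j => Ideal.Quotient.mkₐ k J (u e j))
          (algebraMap k (MvPolynomial (Fin r) Z) a) = _
      rw [IsScalarTower.algebraMap_apply k Z (MvPolynomial (Fin r) Z),
        MvPolynomial.algebraMap_eq, eval₂Hom_C]
      exact β.commutes a
    have hinv : inv.comp (i π hπ) = Ideal.Quotient.mkₐ k J := by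
      apply algHom_ext
      · intro b; rw [AlgHom.comp_apply, i_p, hinvC, hβ]
      · intro j; rw [AlgHom.comp_apply, i_u, hinvX]
      · rw [AlgHom.comp_apply, i_w, map_zero]
        have hw : w e ∈ J := Ideal.mem_sup_left (Ideal.mem_span_singleton_self _)
        rw [Ideal.Quotient.mkₐ_eq_mk]
        exact (Ideal.Quotient.eq_zero_iff_mem.2 hw).symm
    intro x hx
    have h1 : i π hπ x = 0 := hx
    have h2 := DFunLike.congr_fun hinv x
    rw [AlgHom.comp_apply, h1, map_zero, Ideal.Quotient.mkₐ_eq_mk] at h2
    exact Ideal.Quotient.eq_zero_iff_mem.1 h2.symm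
  · rw [sup_le_iff, Ideal.span_le, Set.singleton_subset_iff, Ideal.map_le_iff_le_comap]
    refine ⟨i_w π hπ, fun b hb => ?_⟩
    show i π hπ (p k e b) = 0
    rw [i_p, show π b = 0 from hb, map_zero]

end

/-- the open part: `e = 0`, `w` invertible -/
lemma exists_equiv_zero (he : ∀ j, e j = 0) :
    ∃ σ : MvPolynomial (Fin r) B ≃+* Localization.Away (w e),
      ∀ b, ((loc k (w e)).comp (p k e)) b = σ (C b) := by
  have hU : IsUnit (algebraMap (Cub e) (Localization.Away (w e)) (w e)) :=
    IsLocalization.Away.algebraMap_isUnit (w e)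
  have hw1 : algebraMap (Cub e) (Localization.Away (w e)) (w e) = 1 := by
    have h := relation (k := k) e
    simp only [he, map_zero, mul_zero, Finset.sum_const_zero] at h
    have h2 := congrArg (algebraMap (Cub e) (Localization.Away (w e))) h
    rw [map_zero, map_mul, map_sub, map_one] at h2
    have h3 := hU.mul_left_cancel (b := 1 - algebraMap (Cub e) (Localization.Away (w e)) (w e))
      (c := 0) (by rw [← h2, mul_zero])
    exact (sub_eq_zero.1 h3).symm
  let F : MvPolynomial (Fin r) B →+* Localization.Away (w e) :=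
    eval₂Hom ((loc k (w e)).comp (p k e) : B →+* Localization.Away (w e))
      (fun j => loc k (w e) (u e j))
  have hr0 : ∑ j, (X j : MvPolynomial (Fin r) B) * const k B r (e j) = 1 * (1 - 1) := by
    simp [he]
  let G0 : Cub e →ₐ[k] MvPolynomial (Fin r) B := lift (const k B r) X 1 hr0
  have hG0 : IsUnit ((G0 : Cub e →+* MvPolynomial (Fin r) B) (w e)) := by
    have : (G0 : Cub e →+* MvPolynomial (Fin r) B) (w e) = 1 := lift_w _ _ _ hr0
    rw [this]; exact isUnit_one
  let G : Localization.Away (w e) →+* MvPolynomial (Fin r) B :=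
    IsLocalization.Away.lift (w e) hG0
  have hG : ∀ x : Cub e, G (loc k (w e) x) = G0 x := fun x =>
    IsLocalization.Away.lift_eq (w e) hG0 x
  have h1 : G.comp F = RingHom.id _ := by
    apply MvPolynomial.ringHom_ext
    · intro b
      show G (F (C b)) = C b
      rw [show F (C b) = loc k (w e) (p k e b) from eval₂Hom_C _ _ _, hG]
      exact lift_p _ _ _ hr0 _
    · intro j
      show G (F (X j)) = X j
      rw [show F (X j) = loc k (w e) (u e j) from eval₂Hom_X' _ _ _, hG]
      exact lift_u _ _ _ hr0 _
  have h2 : F.comp G = RingHom.id _ := by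
    apply IsLocalization.ringHom_ext (Submonoid.powers (w e))
    apply ringHom_ext
    · intro b
      show F (G (loc k (w e) (p k e b))) = loc k (w e) (p k e b)
      rw [hG, show G0 (p k e b) = C b from lift_p _ _ _ hr0 _]
      exact eval₂Hom_C _ _ _
    · intro j
      show F (G (loc k (w e) (u e j))) = loc k (w e) (u e j)
      rw [hG, show G0 (u e j) = X j from lift_u _ _ _ hr0 _]
      exact eval₂Hom_X' _ _ _
    · show F (G (loc k (w e) (w e))) = loc k (w e) (w e)
      rw [hG, show G0 (w e) = 1 from lift_w _ _ _ hr0, map_one]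
      exact hw1.symm
  exact ⟨RingEquiv.ofRingHom F G h2 h1, fun b => (eval₂Hom_C _ _ _).symm⟩

/-- the open part: `e_j` invertible -/
lemma exists_equiv_away (j₀ : Fin r) :
    ∃ σ : MvPolynomial (Fin r) (Localization.Away (e j₀)) ≃+*
        Localization.Away (p k e (e j₀)),
      ∀ b, Localization.awayMapₐ (p k e) (e j₀) b = σ (C b) := by
  set f := e j₀ with hf
  set pf : Localization.Away f →ₐ[k] Localization.Away (p k e f) :=
    Localization.awayMapₐ (p k e) f with hpf
  have hpf' : ∀ b : B, pf (loc k f b) = loc k (p k e f) (p k e b) := fun b => awayMap_loc _ _ _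
  let F : MvPolynomial (Fin r) (Localization.Away f) →+* Localization.Away (p k e f) :=
    eval₂Hom (pf : Localization.Away f →+* Localization.Away (p k e f))
      (fun j => if j = j₀ then loc k (p k e f) (w e) else loc k (p k e f) (u e j))
  let g : Localization.Away f := IsLocalization.Away.invSelf f
  have hg : g * loc k f f = 1 := by
    rw [mul_comm]; exact IsLocalization.Away.mul_invSelf f
  let T : MvPolynomial (Fin r) (Localization.Away f) :=
    ∑ j ∈ Finset.univ.erase j₀, X j * C (loc k f (e j))
  let u' : Fin r → MvPolynomial (Fin r) (Localization.Away f) := fun j =>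
    if j = j₀ then C g * (X j₀ * (1 - X j₀) - T) else X j
  have hr0 : ∑ j, u' j * ((const k _ r).comp (loc k f)) (e j) = X j₀ * (1 - X j₀) := by
    rw [← Finset.add_sum_erase _ _ (Finset.mem_univ j₀)]
    have h1 : ∑ j ∈ Finset.univ.erase j₀, u' j * ((const k _ r).comp (loc k f)) (e j) = T := by
      refine Finset.sum_congr rfl fun j hj => ?_
      have : j ≠ j₀ := (Finset.mem_erase.1 hj).1
      simp only [u', if_neg this]
      rfl
    rw [h1]
    simp only [u', if_true]
    have h2 : (C g : MvPolynomial (Fin r) (Localization.Away f)) * C (loc k f f) = 1 := by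
      rw [← map_mul, hg, map_one]
    show C g * (X j₀ * (1 - X j₀) - T) * C (loc k f f) + T = _
    linear_combination (X j₀ * (1 - X j₀) - T) * h2
  let G0 : Cub e →ₐ[k] MvPolynomial (Fin r) (Localization.Away f) :=
    lift ((const k _ r).comp (loc k f)) u' (X j₀) hr0
  have hG0 : IsUnit ((G0 : Cub e →+* MvPolynomial (Fin r) (Localization.Away f)) (p k e f)) := by
    have : (G0 : Cub e →+* MvPolynomial (Fin r) (Localization.Away f)) (p k e f) =
      C (loc k f f) := lift_p _ _ _ hr0 _
    rw [this]
    exact (IsUnit.of_mul_eq_one_right _ hg).map _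
  let G : Localization.Away (p k e f) →+* MvPolynomial (Fin r) (Localization.Away f) :=
    IsLocalization.Away.lift (p k e f) hG0
  have hG : ∀ x : Cub e, G (loc k (p k e f) x) = G0 x := fun x =>
    IsLocalization.Away.lift_eq (p k e f) hG0 x
  have hFC : ∀ b, F (C b) = pf b := fun b => eval₂Hom_C _ _ _
  have hFX0 : F (X j₀) = loc k (p k e f) (w e) := by
    rw [show F (X j₀) = _ from eval₂Hom_X' _ _ _, if_pos rfl]
  have hFX : ∀ j, j ≠ j₀ → F (X j) = loc k (p k e f) (u e j) := fun j hj => by
    rw [show F (X j) = _ from eval₂Hom_X' _ _ _, if_neg hj]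
  have hG0p : ∀ b, G0 (p k e b) = C (loc k f b) := fun b => lift_p _ _ _ hr0 _
  have hG0u : ∀ j, G0 (u e j) = u' j := fun j => lift_u _ _ _ hr0 _
  have hG0w : G0 (w e) = X j₀ := lift_w _ _ _ hr0
  have h1 : G.comp F = RingHom.id _ := by
    apply MvPolynomial.ringHom_ext'
    · apply IsLocalization.ringHom_ext (Submonoid.powers f)
      ext b : 1
      show G (F (C (loc k f b))) = C (loc k f b)
      rw [hFC, hpf', hG, hG0p]
    · intro j
      show G (F (X j)) = X j
      by_cases hj : j = j₀
      · rw [hj, hFX0, hG, hG0w]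
      · rw [hFX j hj, hG, hG0u]
        simp only [u', if_neg hj]
  have h2 : F.comp G = RingHom.id _ := by
    apply IsLocalization.ringHom_ext (Submonoid.powers (p k e f))
    apply ringHom_ext
    · intro b
      show F (G (loc k (p k e f) (p k e b))) = loc k (p k e f) (p k e b)
      rw [hG, hG0p, hFC, hpf']
    · intro j
      show F (G (loc k (p k e f) (u e j))) = loc k (p k e f) (u e j)
      rw [hG, hG0u]
      by_cases hj : j = j₀
      · subst hj
        simp only [u', if_true]
        have hT : F T = ∑ i ∈ Finset.univ.erase j, loc k (p k e f) (u e i * p k e (e i)) := by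
          simp only [T, map_sum, map_mul]
          refine Finset.sum_congr rfl fun i hi => ?_
          rw [hFX i (Finset.mem_erase.1 hi).1, hFC, hpf']
        have hrel := congrArg (loc k (p k e f)) (relation (k := k) e)
        rw [← Finset.add_sum_erase _ _ (Finset.mem_univ j), map_add, map_sum, ← hT] at hrel
        simp only [map_mul, map_sub, map_one] at hrel
        have hg' : pf g * loc k (p k e f) (p k e f) = 1 := by
          rw [← hpf', ← map_mul, hg, map_one]
        rw [map_mul, map_sub, map_mul, map_sub, map_one, hFC, hFX0]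
        rw [← hrel]
        linear_combination (loc k (p k e f)) (u e j) * hg'
      · simp only [u', if_neg hj]
        exact hFX j hj
    · show F (G (loc k (p k e f) (w e))) = loc k (p k e f) (w e)
      rw [hG, hG0w, hFX0]
  exact ⟨RingEquiv.ofRingHom F G h2 h1, fun b => (hFC b).symm⟩

end Cub

end Pool.Agent.K6.H18.Cubic
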