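import Pool.Agent.K6.H18.Cubic.Hyper

/-!
Properties of pairs of Borel-Moore theories which are compatible with the decomposition.
-/

set_option autoImplicit false

open MvPolynomial

namespace Pool.Agent.K6.H18.Cubic

/-- Properties of a homomorphism `c : A → H` together with endomorphisms `g i` of `H` which are
invariant under isomorphism and compatible with direct sums. -/
structure IsAdditive {G : Type} (Q : ∀ {A H : Type} [AddCommGroup A] [AddCommGroup H],
    (A →+ H) → (G → H →+ H) → Prop) : Prop where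
  iso : ∀ {A H A' H' : Type} [AddCommGroup A] [AddCommGroup H] [AddCommGroup A']
    [AddCommGroup H'] (α : A ≃+ A') (η : H ≃+ H') (c : A →+ H) (c' : A' →+ H')
    (g : G → H →+ H) (g' : G → H' →+ H'), (∀ x, c' (α x) = η (c x)) →
    (∀ i y, g' i (η y) = η (g i y)) → Q c g → Q c' g'
  prod : ∀ {A H A' H' : Type} [AddCommGroup A] [AddCommGroup H] [AddCommGroup A']
    [AddCommGroup H'] (c : A →+ H) (c' : A' →+ H') (g : G → H →+ H) (g' : G → H' →+ H'),
    Q (c.prodMap c') (fun i => (g i).prodMap (g' i)) ↔ Q c g ∧ Q c' g'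

section
variable {k : Type} [CommRing k] {M T : BorelMoore k} (c : M.Hom T) {G : Type} (act : G → T.Hom T)
  {Q : ∀ {A H : Type} [AddCommGroup A] [AddCommGroup H], (A →+ H) → (G → H →+ H) → Prop}

/-- the homomorphism `(p^*, i_* q^*)` as a homomorphism -/
noncomputable def BorelMoore.sumHom (T : BorelMoore k) {B Z : Type} [CommRing B] [Algebra k B]
    [CommRing Z] [Algebra k Z]
    {r : ℕ} (e : Fin r → B) (π : B →ₐ[k] Z) (hπ : Function.Surjective π)
    (h0 : ∀ j, π (e j) = 0) {b b' : ℤ} (hb : b' = b + r) (a : ℤ) :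
    T.H B a b × T.H Z a b →+ T.H (Cub e) a b' where
  toFun := T.sum e π hπ h0 hb a
  map_zero' := by simp [BorelMoore.sum]
  map_add' x y := by
    simp only [BorelMoore.sum, Prod.fst_add, Prod.snd_add, map_add]
    abel

lemma BorelMoore.Hom.map_sum {M T : BorelMoore k} (c : M.Hom T) {B Z : Type} [CommRing B]
    [Algebra k B] [Algebra.FiniteType k B] [CommRing Z] [Algebra k Z]
    {r : ℕ} (e : Fin r → B) (π : B →ₐ[k] Z) (hπ : Function.Surjective π)
    (h0 : ∀ j, π (e j) = 0) {b b' : ℤ} (hb : b' = b + r) (a : ℤ) (x : M.H B a b × M.H Z a b) :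
    c.map (Cub e) a b' (M.sum e π hπ h0 hb a x) =
      T.sum e π hπ h0 hb a (c.map B a b x.1, c.map Z a b x.2) := by
  have hft : Algebra.FiniteType k Z := Algebra.FiniteType.of_surjective π hπ
  simp only [BorelMoore.sum, map_add, c.map_pull, c.map_push]

/-- A property of the affine schemes of finite type and of the weight `b` which is invariant under
passage to affine spaces and compatible with the decomposition. -/
structure Splits (P : ∀ (B : Type) [CommRing B] [Algebra k B], ℤ → Prop) : Prop where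
  poly : ∀ {B C : Type} [CommRing B] [Algebra k B] [CommRing C] [Algebra k C]
    [Algebra.FiniteType k B] (r : ℕ) (σ : MvPolynomial (Fin r) B ≃+* C) (ψ : B →ₐ[k] C),
    (∀ x, ψ x = σ (MvPolynomial.C x)) → ∀ {b b' : ℤ}, b' = b + r → (P B b ↔ P C b')
  sum : ∀ {B Z : Type} [CommRing B] [Algebra k B] [CommRing Z] [Algebra k Z]
    [Algebra.FiniteType k B] {r : ℕ} (e : Fin r → B) (π : B →ₐ[k] Z), Function.Surjective π →
    RingHom.ker π = Ideal.span (Set.range e) → ∀ {b b' : ℤ}, b' = b + r →
    (P (Cub e) b' ↔ P B b ∧ P Z b)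

theorem IsAdditive.splits (hQ : IsAdditive (G := G) Q) (a : ℤ) :
    Splits (fun (B : Type) [CommRing B] [Algebra k B] b =>
      Q (c.map B a b) (fun g => (act g).map B a b)) where
  poly {B C} _ _ _ _ _ r σ ψ hψ b b' hb := by
    have hs := smoothRel_of_equiv r σ ψ hψ
    let α := AddEquiv.ofBijective (M.pull ψ r hs hb a) (M.homotopy r σ ψ hψ hs hb a)
    let η := AddEquiv.ofBijective (T.pull ψ r hs hb a) (T.homotopy r σ ψ hψ hs hb a)
    have h1 : ∀ x, c.map C a b' (α x) = η (c.map B a b x) := fun x => c.map_pull ψ r hs hb a x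
    have h2 : ∀ g y, (act g).map C a b' (η y) = η ((act g).map B a b y) :=
      fun g y => (act g).map_pull ψ r hs hb a y
    constructor
    · exact hQ.iso α η _ _ _ _ h1 h2
    · refine hQ.iso α.symm η.symm _ _ _ _ (fun x => ?_) (fun g y => ?_)
      · rw [AddEquiv.eq_symm_apply, ← h1, AddEquiv.apply_symm_apply]
      · rw [AddEquiv.eq_symm_apply, ← h2, AddEquiv.apply_symm_apply]
  sum {B Z} _ _ _ _ _ r e π hπ hker b b' hb := by
    have h0 : ∀ j, π (e j) = 0 := fun j => by
      have : e j ∈ RingHom.ker π := by rw [hker]; exact Ideal.subset_span ⟨j, rfl⟩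
      exact this
    have hM := M.sum_bijective r 0 (by simp) B e (fun j hj => absurd hj (by simp)) Z π hπ hker h0
      b b' hb a
    have hT := T.sum_bijective r 0 (by simp) B e (fun j hj => absurd hj (by simp)) Z π hπ hker h0
      b b' hb a
    let α := AddEquiv.ofBijective (M.sumHom e π hπ h0 hb a) hM
    let η := AddEquiv.ofBijective (T.sumHom e π hπ h0 hb a) hT
    have h1 : ∀ x, c.map (Cub e) a b' (α x) = η ((c.map B a b).prodMap (c.map Z a b) x) :=
      fun x => c.map_sum e π hπ h0 hb a x
    have h2 : ∀ g y, (act g).map (Cub e) a b' (η y) =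
        η (((act g).map B a b).prodMap ((act g).map Z a b) y) :=
      fun g y => (act g).map_sum e π hπ h0 hb a y
    rw [← hQ.prod]
    constructor
    · refine hQ.iso α.symm η.symm _ _ _ _ (fun x => ?_) (fun g y => ?_)
      · rw [AddEquiv.eq_symm_apply, ← h1, AddEquiv.apply_symm_apply]
      · rw [AddEquiv.eq_symm_apply, ← h2, AddEquiv.apply_symm_apply]
    · exact hQ.iso α η _ _ _ _ h1 h2

theorem Splits.and {P P' : ∀ (B : Type) [CommRing B] [Algebra k B], ℤ → Prop} (h : Splits P)
    (h' : Splits P') : Splits (fun (B : Type) [CommRing B] [Algebra k B] b => P B b ∧ P' B b) where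
  poly r σ ψ hψ _ _ hb := and_congr (h.poly r σ ψ hψ hb) (h'.poly r σ ψ hψ hb)
  sum e π hπ hker _ _ hb := by
    rw [h.sum e π hπ hker hb, h'.sum e π hπ hker hb]
    tauto

end

/-- Every instance of the property is equivalent to its instance for a hypersurface
`∑ u_j e_j = w (1 - w)`, which does not depend on the property. -/
theorem exists_hyp {k : Type} [Field k] {S : Set k} (hS : Subfield.closure S = ⊤)
    (B : Type) [CommRing B] [Algebra k B] [Algebra.FiniteType k B] :
    ∃ (m r : ℕ) (e : Fin r → MvPolynomial (Fin m) k), 0 < r ∧ (∀ j, e j ∈ Elem S (Fin m)) ∧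
      ∀ P : ∀ (B : Type) [CommRing B] [Algebra k B], ℤ → Prop, Splits P → (∀ b, P k b) →
        ∀ b, P B b ↔ P (Hyp e) (b + r) := by
  obtain ⟨m, r, e, π, hr, he, hπ, hker⟩ := exists_pres hS B
  refine ⟨m, r, e, hr, he, fun P hP hk b => ?_⟩
  have h1 : P (Cub e) (b + r) ↔ P (Hyp e) (b + r) :=
    hP.poly 0 ((isEmptyRingEquiv (Cub e) (Fin 0)).trans (equivCub e).symm.toRingEquiv)
      ((equivCub e).symm : Cub e →ₐ[k] Hyp e) (fun x => by
        simp only [RingEquiv.trans_apply]
        have h3 : isEmptyRingEquiv (Cub e) (Fin 0) (C x) = x := by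
          rw [← isEmptyRingEquiv_symm_apply (Cub e) (Fin 0) x, RingEquiv.apply_symm_apply]
        rw [h3]; rfl) (by simp)
  have h2 : P (MvPolynomial (Fin m) k) b := by
    refine (hP.poly m (RingEquiv.refl _) (Algebra.ofId k (MvPolynomial (Fin m) k))
      (fun x => rfl) (b := b - m) (by ring)).1 (hk _)
  rw [← h1, hP.sum e π hπ hker rfl]
  tauto

section props
variable {G : Type}

lemma isAdditive_injective : IsAdditive (G := G) (fun c _ => Function.Injective c) where
  iso α η c c' g g' h1 h2 h := by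
    intro x y hxy
    obtain ⟨x, rfl⟩ := α.surjective x
    obtain ⟨y, rfl⟩ := α.surjective y
    have hxy : c' (α x) = c' (α y) := hxy
    rw [h1, h1] at hxy
    rw [h (η.injective hxy)]
  prod c c' g g' := by
    constructor
    · intro h
      refine ⟨fun x y hxy => ?_, fun x y hxy => ?_⟩
      · have := @h (x, 0) (y, 0) (by simp [hxy])
        exact congrArg Prod.fst this
      · have := @h (0, x) (0, y) (by simp [hxy])
        exact congrArg Prod.snd this
    · rintro ⟨h1, h2⟩ x y hxy
      exact Prod.ext (h1 (congrArg Prod.fst hxy)) (h2 (congrArg Prod.snd hxy))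

lemma isAdditive_tate : IsAdditive (G := G)
    (fun {A H} _ _ (c : A →+ H) g => ∀ y : H, (∀ i, g i y = y) → ∃ x, c x = y) where
  iso α η c c' g g' h1 h2 h := by
    intro y hy
    obtain ⟨y, rfl⟩ := η.surjective y
    obtain ⟨x, hx⟩ := h y (fun i => η.injective (by rw [← h2]; exact hy i))
    exact ⟨α x, by rw [h1, hx]⟩
  prod c c' g g' := by
    constructor
    · intro h
      refine ⟨fun y hy => ?_, fun y hy => ?_⟩
      · obtain ⟨x, hx⟩ := h (y, 0) (fun i => by simp [hy])
        exact ⟨x.1, congrArg Prod.fst hx⟩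
      · obtain ⟨x, hx⟩ := h (0, y) (fun i => by simp [hy])
        exact ⟨x.2, congrArg Prod.snd hx⟩
    · rintro ⟨h1, h2⟩ y hy
      obtain ⟨x, hx⟩ := h1 y.1 (fun i => congrArg Prod.fst (hy i))
      obtain ⟨x', hx'⟩ := h2 y.2 (fun i => congrArg Prod.snd (hy i))
      exact ⟨(x, x'), Prod.ext hx hx'⟩

lemma isAdditive_semisimple : IsAdditive (G := G)
    (fun {A H} _ _ (_ : A →+ H) g => ∀ (i : G) (y : H), g i (g i y - y) = g i y - y →
      g i y = y) where
  iso α η c c' g g' h1 h2 h := by
    intro i y hy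
    obtain ⟨y, rfl⟩ := η.surjective y
    rw [h2, ← map_sub, h2] at hy
    rw [h2, h i y (η.injective hy)]
  prod c c' g g' := by
    constructor
    · intro h
      refine ⟨fun i y hy => ?_, fun i y hy => ?_⟩
      · have := h i (y, 0) (by simpa using hy)
        exact congrArg Prod.fst this
      · have := h i (0, y) (by simpa using hy)
        exact congrArg Prod.snd this
    · rintro ⟨h1, h2⟩ i y hy
      exact Prod.ext (h1 i y.1 (congrArg Prod.fst hy)) (h2 i y.2 (congrArg Prod.snd hy))

end props

end Pool.Agent.K6.H18.Cubic
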