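import Pool.Agent.K6.H18.Cubic.Linear

/-!
Comparison isomorphisms and their periods.
-/

set_option autoImplicit false

open MvPolynomial AlgebraicGeometry CategoryTheory

namespace Pool.Agent.K6.H18.Cubic

open Alg

/-- Linear forms on the complex vector space `V` with rational values on the image of `β`. -/
def IsRationalForm {R V : Type} [AddCommGroup R] [AddCommGroup V] [Module ℂ V] (β : R →+ V)
    (l : V →ₗ[ℂ] ℂ) : Prop :=
  ∀ y : R, ∃ t : ℚ, l (β y) = t

/-- The algebra of functions on the space of homomorphisms `ψ : D → V` which is generated over `k`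
by the entries `l (ψ d)`, `d` in `D` and `l` a rational linear form on `V`. -/
def periodFunctions (k : Type) [Field k] [Algebra k ℂ] (D : Type) {R V : Type} [AddCommGroup D]
    [AddCommGroup R] [AddCommGroup V] [Module ℂ V] (β : R →+ V) :
    Subalgebra k ((D →+ V) → ℂ) :=
  Algebra.adjoin k {f | ∃ (d : D) (l : V →ₗ[ℂ] ℂ), IsRationalForm β l ∧ f = fun ψ => l (ψ d)}

/-- The polynomial relations with coefficients in `k` between the entries of the comparison
isomorphism `φ` are relations for all `τ g ∘ φ`. -/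
def IsGeneric (k : Type) [Field k] [Algebra k ℂ] {D R V G : Type} [AddCommGroup D]
    [AddCommGroup R] [AddCommGroup V] [Module ℂ V] (β : R →+ V) (φ : D →+ V)
    (τ : G → V →ₗ[ℂ] V) : Prop :=
  ∀ f ∈ periodFunctions k D β, f φ = 0 → ∀ g, f ((τ g).toAddMonoidHom.comp φ) = 0

lemma comp_mem_periodFunctions (k : Type) [Field k] [Algebra k ℂ] {D R V D' R' V' : Type}
    [AddCommGroup D] [AddCommGroup R] [AddCommGroup V] [Module ℂ V] [AddCommGroup D']
    [AddCommGroup R'] [AddCommGroup V'] [Module ℂ V'] {β : R →+ V} {β' : R' →+ V'} (i : D →+ D')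
    (p : V' →ₗ[ℂ] V) (q : R' →+ R) (h : ∀ y, p (β' y) = β (q y)) {f : (D →+ V) → ℂ}
    (hf : f ∈ periodFunctions k D β) :
    (fun ψ : D' →+ V' => f ((p.toAddMonoidHom.comp ψ).comp i)) ∈ periodFunctions k D' β' := by
  unfold periodFunctions at hf
  induction hf using Algebra.adjoin_induction with
  | mem f hf =>
    obtain ⟨d, l, hl, rfl⟩ := hf
    refine Algebra.subset_adjoin ⟨i d, l.comp p, fun y => ?_, rfl⟩
    obtain ⟨t, ht⟩ := hl (q y)
    exact ⟨t, by rw [← ht, ← h]; rfl⟩
  | algebraMap c => exact Subalgebra.algebraMap_mem _ c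
  | add f g _ _ hf hg => exact add_mem hf hg
  | mul f g _ _ hf hg => exact mul_mem hf hg

/-- The property passes to direct summands. -/
lemma IsGeneric.of_summand {k : Type} [Field k] [Algebra k ℂ] {D R V D' R' V' G : Type}
    [AddCommGroup D] [AddCommGroup R] [AddCommGroup V] [Module ℂ V] [AddCommGroup D']
    [AddCommGroup R'] [AddCommGroup V'] [Module ℂ V'] {β : R →+ V} {β' : R' →+ V'} {φ : D →+ V}
    {φ' : D' →+ V'} {τ : G → V →ₗ[ℂ] V} {τ' : G → V' →ₗ[ℂ] V'} (iD : D →+ D') (i : V →ₗ[ℂ] V')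
    (p : V' →ₗ[ℂ] V) (q : R' →+ R) (hp : ∀ x, p (i x) = x) (hq : ∀ y, p (β' y) = β (q y))
    (hφ : ∀ x, φ' (iD x) = i (φ x)) (hτ : ∀ g x, τ' g (i x) = i (τ g x))
    (h : IsGeneric k β' φ' τ') : IsGeneric k β φ τ := by
  intro f hf hf0 g
  have h1 : (p.toAddMonoidHom.comp φ').comp iD = φ := by
    ext x
    show p (φ' (iD x)) = φ x
    rw [hφ, hp]
  have h2 : (p.toAddMonoidHom.comp ((τ' g).toAddMonoidHom.comp φ')).comp iD =
      (τ g).toAddMonoidHom.comp φ := by
    ext x
    show p (τ' g (φ' (iD x))) = τ g (φ x)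
    rw [hφ, hτ, hp]
  have h3 := h _ (comp_mem_periodFunctions k iD p q hq hf) (by rw [h1]; exact hf0) g
  rwa [h2] at h3

/-- The period conjecture for the homology of `Spec B`, in weight `b` and all degrees. `D`, `R`, `V`
are the theories with values in `k`-spaces, rational and complex vector spaces. -/
def PeriodConjecture {k G : Type} [Field k] [Algebra k ℂ] {D R : BM k} {V : LinearBM k ℂ}
    (β : R.Hom V.toBM) (φ : D.Hom V.toBM) (mot : G → V.End) (B : Alg k) (b : ℤ) : Prop :=
  ∀ a : ℤ, IsGeneric k (β.map B a b) (φ.map B a b) (fun g => (mot g).map B a b)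

lemma inherited_periodConjecture {k G : Type} [Field k] [Algebra k ℂ] {D R : BM k}
    {V : LinearBM k ℂ} (β : R.Hom V.toBM) (φ : D.Hom V.toBM) (mot : G → V.End) :
    Inherited (PeriodConjecture β φ mot) := by
  rintro B C n ⟨s, hs, h1, h2⟩ b h a
  let i' : V.H B a b →ₗ[ℂ] V.H C a (b + n) :=
    { toFun := s.incl V.toBM a b
      map_add' := (s.incl V.toBM a b).map_add
      map_smul' := fun t x => (h1 _ _ (V.scalar t) a b x).symm }
  let p' : V.H C a (b + n) →ₗ[ℂ] V.H B a b :=
    { toFun := s.proj V.toBM a b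
      map_add' := (s.proj V.toBM a b).map_add
      map_smul' := fun t y => (h2 _ _ (V.scalar t) a b y).symm }
  exact IsGeneric.of_summand (s.incl D a b) i' p' (s.proj R a b) (hs V.toBM a b)
    (fun y => (h2 _ _ β a b y).symm) (fun x => h1 _ _ φ a b x)
    (fun g x => h1 _ _ (mot g).hom a b x) (h a)

end Pool.Agent.K6.H18.Cubic
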