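import Pool.Agent.K6.H18.Cubic.Summand
import Pool.Agent.K6.H18.Cubic.Finite

/-!
Reduction of a conjecture to one sequence of hypersurfaces.
-/

set_option autoImplicit false

open MvPolynomial AlgebraicGeometry CategoryTheory

namespace Pool.Agent.K6.H18.Cubic

open Alg

/-- The hypersurface number `N` of the sequence as a scheme over `k`. -/
noncomputable def member {k : Type} [CommRing k] (v : ℕ → EqnSystem k) (N : ℕ) :
    Over (Spec (CommRingCat.of k)) :=
  specOf (Hypersurface (v N).eqs)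

/-- The conjecture `TX` for all `X` in `𝒱` is equivalent to its cases for the smooth varieties in
`𝒱`, for all hypersurfaces `V(e)` with constants in `S`, and for infinitely many members of the
sequence `v`; for each `X` in `𝒱` and all but finitely many `N` there is an `n` such that for all `b`
the instance of the member `N` and `b + n` implies the instance of `X` and `b`. -/
structure IsReduced {k : Type} [CommRing k] (S : Set k) (v : ℕ → EqnSystem k)
    (𝒱 : Over (Spec (CommRingCat.of k)) → Prop) (TX : Over (Spec (CommRingCat.of k)) → ℤ → Prop) :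
    Prop where
  tfae : ∀ I : Set ℕ, I.Infinite → List.TFAE [
    ∀ X, 𝒱 X → IsSmoothVariety X → ∀ b, TX X b,
    ∀ X, 𝒱 X → ∀ b, TX X b,
    ∀ (m r : ℕ) (e : Fin r → MvPolynomial (Fin m) k), IsElementary S e →
      ∀ b, TX (specOf (Hypersurface e)) b,
    ∀ N ∈ I, ∀ b, TX (member v N) b]
  instances : ∀ X, 𝒱 X → ∃ N₀ : ℕ, ∀ N ≥ N₀, ∃ n : ℕ, ∀ b, TX (member v N) (b + n) → TX X b

/-- One sequence for all properties which are inherited by natural direct summands. -/
theorem exists_isReduced {k : Type} [Field k] {S : Set k} (hS : S.Countable)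
    [Algebra.IsSeparable (Subfield.closure S) k] :
    ∃ v : ℕ → EqnSystem k, (∀ N, IsElementary S (v N).eqs) ∧
      ∀ (P : Alg k → ℤ → Prop) (_ : Inherited P) (𝒱 : Over (Spec (CommRingCat.of k)) → Prop)
        (TX : Over (Spec (CommRingCat.of k)) → ℤ → Prop) (_ : IsExtensionOf P 𝒱 TX),
        IsReduced S v 𝒱 TX := by
  obtain ⟨v, hv, -, h⟩ := exists_sequence_inherited (k := k) hS
  exact ⟨v, hv, fun P hP 𝒱 TX hTX => ⟨(h P hP 𝒱 TX hTX).1, (h P hP 𝒱 TX hTX).2⟩⟩

section
variable {k : Type} [Field k] {M T : BM k} (c : M.Hom T)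

lemma inherited_injective : Inherited (fun (B : Alg k) b =>
    Function.Injective (c.mapf (B := B) (a := 0) (b := b))) := by
  rintro B C n ⟨s, hs, h1, h2⟩ b h x y hxy
  have hi : ∀ x : M.H B 0 b, c.mapf (s.inclf x) = s.inclf (c.mapf x) := h1 _ _ c 0 b
  have h3 : s.inclf x = s.inclf y := h (by rw [hi, hi, hxy])
  rw [← hs M 0 b x, h3, hs]

lemma inherited_surjective {G : Type} (act : G → T.Hom T) : Inherited (fun (B : Alg k) b =>
    ∀ y : T.H B 0 b, (∀ g, (act g).mapf y = y) → ∃ x : M.H B 0 b, c.mapf x = y) := by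
  rintro B C n ⟨s, hs, h1, h2⟩ b h y hy
  obtain ⟨x, hx⟩ := h (s.inclf y) (fun g => by rw [h1 _ _ (act g), hy g])
  exact ⟨s.projf x, by rw [h2 _ _ c, hx, hs]⟩

lemma inherited_semisimple (F : T.Hom T) : Inherited (fun (B : Alg k) b =>
    ∀ y : T.H B 0 b, F.mapf (F.mapf y - y) = F.mapf y - y → F.mapf y = y) := by
  rintro B C n ⟨s, hs, h1, h2⟩ b h y hy
  have hi : ∀ y : T.H B 0 b, F.mapf (s.inclf y) = s.inclf (F.mapf y) := h1 _ _ F 0 b
  have hsub : ∀ y z : T.H B 0 b, s.inclf (y - z) = s.inclf y - s.inclf z :=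
    fun y z => (s.incl T 0 b).map_sub y z
  have h3 : F.mapf (s.inclf y) = s.inclf y := by
    refine h (s.inclf y) ?_
    rw [hi, ← hsub, hi, hy]
  rw [hi] at h3
  rw [← hs T 0 b (F.mapf y), h3, hs]

end

lemma Inherited.and {k : Type} [Field k] {P Q : Alg k → ℤ → Prop} (hP : Inherited P)
    (hQ : Inherited Q) : Inherited (fun B b => P B b ∧ Q B b) :=
  fun B C n h b hb => ⟨hP B C n h b hb.1, hQ B C n h b hb.2⟩

end Pool.Agent.K6.H18.Cubic
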