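import Pool.Agent.K6.H18.Cubic.Finite

/-!
One sequence of hypersurfaces: infinitely many of its members suffice.
-/

set_option autoImplicit false

open MvPolynomial AlgebraicGeometry CategoryTheory

namespace Pool.Agent.K6.H18.Cubic

open Alg

/-- A finite system of polynomial equations in finitely many variables. -/
structure EqnSystem (k : Type) [CommRing k] where
  /-- the number of variables -/
  m : ℕ
  /-- the number of equations -/
  r : ℕ
  /-- the equations -/
  eqs : Fin r → MvPolynomial (Fin m) k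

section
variable {k : Type} [CommRing k] {S : Set k}

lemma countable_elem (hS : S.Countable) (m : ℕ) : (Elem S (Fin m)).Countable := by
  have hc : Countable S := hS
  have h : Elem S (Fin m) ⊆
      (Set.range (fun t : Fin m × Fin m × Fin m =>
        (X t.1 - X t.2.1 * X t.2.2 : MvPolynomial (Fin m) k)) ∪
      Set.range (fun t : Fin m × Fin m × Fin m =>
        (X t.1 - (X t.2.1 + X t.2.2) : MvPolynomial (Fin m) k))) ∪
      (Set.range (fun t : Fin m => (X t - 1 : MvPolynomial (Fin m) k)) ∪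
      Set.range (fun t : Fin m × S => (X t.1 - C (t.2 : k) : MvPolynomial (Fin m) k))) := by
    rintro p ⟨a, b, c, h | h | h | ⟨s, hs, h⟩⟩
    · exact Or.inl (Or.inl ⟨(a, b, c), h.symm⟩)
    · exact Or.inl (Or.inr ⟨(a, b, c), h.symm⟩)
    · exact Or.inr (Or.inl ⟨a, h.symm⟩)
    · exact Or.inr (Or.inr ⟨(a, ⟨s, hs⟩), h.symm⟩)
  refine Set.Countable.mono h ?_
  exact ((Set.countable_range _).union (Set.countable_range _)).union
    ((Set.countable_range _).union (Set.countable_range _))

lemma countable_systems (hS : S.Countable) :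
    Countable {E : EqnSystem k // IsElementary S E.eqs} := by
  have hc : ∀ m, Countable (Elem S (Fin m)) := fun m => countable_elem hS m
  let F : {E : EqnSystem k // IsElementary S E.eqs} →
      (Σ m : ℕ, Σ r : ℕ, (Fin r → Elem S (Fin m))) :=
    fun E => ⟨E.1.m, E.1.r, fun j => ⟨E.1.eqs j, E.2.2 j⟩⟩
  have hF : Function.Injective F := by
    rintro ⟨⟨m, r, e⟩, h⟩ ⟨⟨m', r', e'⟩, h'⟩ heq
    simp only [F, Sigma.mk.injEq] at heq
    obtain ⟨rfl, heq⟩ := heq
    simp only [heq_eq_eq, Sigma.mk.injEq] at heq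
    obtain ⟨rfl, heq⟩ := heq
    have h1 : e = e' := by
      funext j
      have := congrFun (eq_of_heq heq) j
      exact congrArg Subtype.val this
    subst h1
    rfl
  exact hF.countable

/-- the product algebras -/
def prodSeq (u : ℕ → Alg k) : ℕ → Alg k
  | 0 => u 0
  | n + 1 => ⟨(prodSeq u n).ring × (u (n + 1)).ring⟩

lemma isFiniteType_prodSeq (u : ℕ → Alg k) (hu : ∀ n, (u n).IsFiniteType) (n : ℕ) :
    (prodSeq u n).IsFiniteType := by
  induction n with
  | zero => exact hu 0
  | succ n ih =>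
    have h1 : Algebra.FiniteType k (prodSeq u n).ring := ih
    have h2 : Algebra.FiniteType k (u (n + 1)).ring := hu (n + 1)
    exact (inferInstance : Algebra.FiniteType k ((prodSeq u n).ring × (u (n + 1)).ring))

lemma SplitsP.prod_iff {P : ∀ (B : Type) [CommRing B] [Algebra k B], ℤ → Prop} (hP : SplitsP P)
    {A B : Type} [CommRing A] [CommRing B] [Algebra k A] [Algebra k B] [Algebra.FiniteType k A]
    [Algebra.FiniteType k B] (b : ℤ) : P (A × B) b ↔ P A b ∧ P B b := by
  refine hP.prod ((1, 0) : A × B) (by simp) (AlgHom.fst k A B) (AlgHom.snd k A B)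
    (fun x => ⟨(x, 0), rfl⟩) (fun x => ⟨(0, x), rfl⟩) ?_ ?_
  · ext x
    rw [RingHom.mem_ker, Ideal.mem_span_singleton]
    constructor
    · intro h
      have h : x.1 = 0 := h
      exact ⟨x, by ext <;> simp [h]⟩
    · rintro ⟨y, rfl⟩
      simp
  · ext x
    rw [RingHom.mem_ker, Ideal.mem_span_singleton]
    constructor
    · intro h
      have h : x.2 = 0 := h
      exact ⟨x, by ext <;> simp [h]⟩
    · rintro ⟨y, rfl⟩
      simp

lemma of_prodSeq {P : Alg k → ℤ → Prop}
    (hP : SplitsP (fun (B : Type) [CommRing B] [Algebra k B] b => P ⟨B⟩ b))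
    (u : ℕ → Alg k) (hu : ∀ n, (u n).IsFiniteType) (b : ℤ) (n : ℕ) (h : P (prodSeq u n) b) :
    ∀ i ≤ n, P (u i) b := by
  induction n with
  | zero =>
    intro i hi
    obtain rfl : i = 0 := by omega
    exact h
  | succ n ih =>
    have h1 : Algebra.FiniteType k (prodSeq u n).ring := isFiniteType_prodSeq u hu n
    have h2 : Algebra.FiniteType k (u (n + 1)).ring := hu (n + 1)
    have h3 := (hP.prod_iff (A := (prodSeq u n).ring) (B := (u (n + 1)).ring) b).1 h
    intro i hi
    rcases Nat.lt_or_ge i (n + 1) with h4 | h4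
    · exact ih h3.1 i (by omega)
    · obtain rfl : i = n + 1 := by omega
      exact h3.2

end

/-- There is a sequence of hypersurfaces such that infinitely many of its members suffice. -/
theorem exists_sequence {k : Type} [Field k] {S : Set k} (hS : S.Countable)
    [Algebra.IsSeparable (Subfield.closure S) k] :
    ∃ v : ℕ → EqnSystem k, (∀ N, IsElementary S (v N).eqs) ∧
      ∀ P : Alg k → ℤ → Prop,
        SplitsP (fun (B : Type) [CommRing B] [Algebra k B] b => P ⟨B⟩ b) → (∀ b, P (base k) b) →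
        ∀ I : Set ℕ, I.Infinite → (∀ N ∈ I, ∀ b, P (Hypersurface (v N).eqs) b) →
        ∀ (m r : ℕ) (e : Fin r → MvPolynomial (Fin m) k), IsElementary S e →
          ∀ b, P (Hypersurface e) b := by
  have hc := countable_systems (k := k) hS
  have hne : Nonempty {E : EqnSystem k // IsElementary S E.eqs} := by
    have h1 : (X (0 : Fin 1) - 1 : MvPolynomial (Fin 1) k) ∈ Elem S (Fin 1) := Elem.one (0 : Fin 1)
    have h2 : IsElementary (r := 1) S (fun _ => (X (0 : Fin 1) - 1 : MvPolynomial (Fin 1) k)) :=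
      ⟨Nat.one_pos, fun _ => h1⟩
    exact ⟨⟨⟨1, 1, fun _ => X (0 : Fin 1) - 1⟩, h2⟩⟩
  obtain ⟨u, hu⟩ := countable_iff_exists_surjective.1 hc
  let w : ℕ → Alg k := fun n => Hypersurface (u n).1.eqs
  have hw : ∀ n, (w n).IsFiniteType := fun n => isFiniteType_hypersurface _
  choose m r e he h using fun n =>
    exists_hypersurface_free (S := S) (prodSeq w n) (isFiniteType_prodSeq w hw n)
  refine ⟨fun n => ⟨m n, r n, e n⟩, he, fun P hP hk I hI hPI m' r' e' he' b => ?_⟩
  obtain ⟨i, hi⟩ := hu ⟨⟨m', r', e'⟩, he'⟩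
  obtain ⟨N, hN, hiN⟩ := hI.exists_gt i
  have h0 : P (Hypersurface (e N)) (b + (r N : ℤ)) := hPI N hN (b + (r N : ℤ))
  have h1 : P (prodSeq w N) b := h N P hP hk b h0
  have h2 : P (w i) b := of_prodSeq hP w hw b N h1 i hiN.le
  have h3 : w i = Hypersurface e' := by
    show Hypersurface (u i).1.eqs = _
    rw [hi]
  rw [h3] at h2
  exact h2

/-- The same in terms of varieties. -/
theorem tfae_sequence {k : Type} [Field k] {S : Set k} (hS : S.Countable)
    [Algebra.IsSeparable (Subfield.closure S) k] :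
    ∃ v : ℕ → EqnSystem k, (∀ N, IsElementary S (v N).eqs) ∧
      ∀ (P : Alg k → ℤ → Prop)
        (_ : SplitsP (fun (B : Type) [CommRing B] [Algebra k B] b => P ⟨B⟩ b))
        (_ : ∀ b, P (base k) b) (𝒱 : Over (Spec (CommRingCat.of k)) → Prop)
        (TX : Over (Spec (CommRingCat.of k)) → ℤ → Prop) (_ : IsExtensionOf P 𝒱 TX)
        (I : Set ℕ), I.Infinite → List.TFAE [
          ∀ X, 𝒱 X → IsSmoothVariety X → ∀ b, TX X b,
          ∀ X, 𝒱 X → ∀ b, TX X b,
          ∀ (m r : ℕ) (e : Fin r → MvPolynomial (Fin m) k), IsElementary S e →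
            ∀ b, TX (specOf (Hypersurface e)) b,
          ∀ N ∈ I, ∀ b, TX (specOf (Hypersurface (v N).eqs)) b] := by
  obtain ⟨v, hv, h⟩ := exists_sequence (k := k) hS
  refine ⟨v, hv, fun P hP hk 𝒱 TX hTX I hI => ?_⟩
  have h1 := tfae_free (S := S) hP hk hTX
  have h01 := h1.out 0 1
  have h12 := h1.out 1 2
  tfae_have 1 ↔ 2 := h01
  tfae_have 2 ↔ 3 := h12
  tfae_have 3 → 4 := fun h2 N _ b => h2 _ _ _ (hv N) b
  tfae_have 4 → 3 := by
    intro h2 m r e he b
    rw [hTX.affine_iff _ (isFiniteType_hypersurface e)]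
    exact h P hP hk I hI (fun N hN b =>
      (hTX.affine_iff _ (isFiniteType_hypersurface _) b).1 (h2 N hN b)) m r e he b
  tfae_finish

end Pool.Agent.K6.H18.Cubic
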