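import Pool.Agent.K6.H18.Cubic.Alg
import Pool.Agent.K6.H18.Cubic.Defs

/-!
Smoothness of `Spec (Cub e)` over `Spec B`.
-/

set_option autoImplicit false

open MvPolynomial AlgebraicGeometry

namespace Pool.Agent.K6.H18.Cubic

lemma smoothRel_iff {B C : Type} [CommRing B] [CommRing C] (d : ℕ) (ψ : B →+* C) :
    SmoothRel d ψ ↔ RingHom.Locally (RingHom.IsStandardSmoothOfRelativeDimension d) ψ := by
  unfold SmoothRel
  rw [HasRingHomProperty.Spec_iff (P := @SmoothOfRelativeDimension d)]
  rfl

lemma SmoothRel.of_std {B C : Type} [CommRing B] [CommRing C] {d : ℕ} {ψ : B →+* C}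
    (h : RingHom.IsStandardSmoothOfRelativeDimension d ψ) : SmoothRel d ψ := by
  rw [smoothRel_iff]
  exact RingHom.locally_of
    (RingHom.isStandardSmoothOfRelativeDimension_respectsIso (n := d)) ψ h

lemma SmoothRel.comp {B C D : Type} [CommRing B] [CommRing C] [CommRing D] {d d' d'' : ℕ}
    {ψ : B →+* C} {ψ' : C →+* D} (h : SmoothRel d ψ) (h' : SmoothRel d' ψ')
    (hd : d'' = d + d') : SmoothRel d'' (ψ'.comp ψ) := by
  unfold SmoothRel at *
  rw [CommRingCat.ofHom_comp, Spec.map_comp, hd, add_comm d d']
  infer_instance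

lemma SmoothRel.equiv {B C : Type} [CommRing B] [CommRing C] (e : B ≃+* C) :
    SmoothRel 0 (e : B →+* C) :=
  .of_std (RingHom.IsStandardSmoothOfRelativeDimension.equiv e)

lemma SmoothRel.away {B : Type} [CommRing B] (f : B) (C : Type) [CommRing C] [Algebra B C]
    [IsLocalization.Away f C] : SmoothRel 0 (algebraMap B C) :=
  .of_std (RingHom.IsStandardSmoothOfRelativeDimension.algebraMap_isLocalizationAway f)

/-- polynomial rings -/
lemma std_mvPolynomial (σ : Type) [Finite σ] (B : Type) [CommRing B] :
    Algebra.IsStandardSmoothOfRelativeDimension (Nat.card σ) B (MvPolynomial σ B) := by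
  let v : PEmpty.{1} → MvPolynomial σ B := fun x => x.elim
  let P : Algebra.SubmersivePresentation B (MvPolynomial σ B ⧸ (Ideal.span <| Set.range v)) σ PEmpty :=
    { Algebra.PreSubmersivePresentation.naive (v := v) (fun x => x.elim) (fun x => x.elim) with
      jacobian_isUnit := by
        rw [Algebra.PreSubmersivePresentation.jacobian_eq_jacobiMatrix_det]
        simp }
  have h1 : Ideal.span (Set.range v) = ⊥ := by
    rw [Set.range_eq_empty, Ideal.span_empty]
  let e : (MvPolynomial σ B ⧸ (Ideal.span <| Set.range v)) ≃ₐ[B] MvPolynomial σ B :=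
    (Ideal.quotientEquivAlgOfEq B h1).trans (AlgEquiv.quotientBot B _)
  have : Algebra.IsStandardSmoothOfRelativeDimension (Nat.card σ) B (MvPolynomial σ B ⧸ (Ideal.span <| Set.range v)) :=
    P.isStandardSmoothOfRelativeDimension (by simp [Algebra.Presentation.dimension])
  exact Algebra.IsStandardSmoothOfRelativeDimension.of_algEquiv _ e

lemma SmoothRel.mvPolynomial (σ : Type) [Finite σ] (B : Type) [CommRing B] :
    SmoothRel (Nat.card σ) (C : B →+* MvPolynomial σ B) :=
  .of_std (by
    have := std_mvPolynomial σ B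
    rw [← MvPolynomial.algebraMap_eq]
    exact (RingHom.isStandardSmoothOfRelativeDimension_algebraMap _).2 this)

/-- the jacobian criterion for a hypersurface -/
lemma std_hypersurface (σ : Type) [Finite σ] (B : Type) [CommRing B] (F : MvPolynomial σ B) (o : σ)
    (T : Type) [CommRing T] [Algebra B T] (ε : (MvPolynomial σ B ⧸ Ideal.span {F}) ≃ₐ[B] T) (t : T)
    (ht : ε (Ideal.Quotient.mk (Ideal.span {F}) (pderiv o F)) = t)
    (S : Type) [CommRing S] [Algebra T S] [Algebra B S] [IsScalarTower B T S]
    [IsLocalization.Away t S] (d : ℕ) (hd : d + 1 = Nat.card σ) :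
    Algebra.IsStandardSmoothOfRelativeDimension d B S := by
  classical
  let v : Unit → MvPolynomial σ B := fun _ => F
  have h1 : Ideal.span (Set.range v) = Ideal.span {F} := by
    rw [Set.range_const]
  let P0 : Algebra.PreSubmersivePresentation B
      (MvPolynomial σ B ⧸ (Ideal.span <| Set.range v)) σ Unit :=
    Algebra.PreSubmersivePresentation.naive (v := v) (fun _ => o) (fun _ _ _ => rfl)
  have hP0 : P0.jacobian = Ideal.Quotient.mk _ (pderiv o F) := by
    rw [Algebra.PreSubmersivePresentation.jacobian_eq_jacobiMatrix_det, Matrix.det_unique]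
    have h2 : P0.jacobiMatrix default default = pderiv o F :=
      Algebra.PreSubmersivePresentation.jacobiMatrix_naive _ _ _ _ _ _
    rw [h2, Algebra.Generators.algebraMap_apply]
    exact (DFunLike.congr_fun (MvPolynomial.aeval_unique
      (Ideal.Quotient.mkₐ B (Ideal.span (Set.range v)))) (pderiv o F)).symm
  let P : Algebra.PreSubmersivePresentation B T σ Unit :=
    P0.ofAlgEquiv ((Ideal.quotientEquivAlgOfEq B h1).trans ε)
  have hP : P.jacobian = t := by
    simp only [P, Algebra.PreSubmersivePresentation.jacobian_ofAlgEquiv, hP0]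
    exact ht
  let Q := Algebra.PreSubmersivePresentation.localizationAway S t
  let R : Algebra.SubmersivePresentation B S (Unit ⊕ σ) (Unit ⊕ Unit) :=
    { Q.comp P with
      jacobian_isUnit := by
        show IsUnit (Q.comp P).jacobian
        rw [Algebra.PreSubmersivePresentation.comp_jacobian_eq_jacobian_smul_jacobian,
          Algebra.PreSubmersivePresentation.localizationAway_jacobian, Algebra.smul_def, hP]
        have := IsLocalization.map_units S (⟨t, 1, by simp⟩ : Submonoid.powers t)
        exact this.mul this }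
  refine R.isStandardSmoothOfRelativeDimension ?_
  simp [Algebra.Presentation.dimension, Nat.card_sum]
  omega

/-- `∂rel/∂u_j` -/
lemma pderiv_some {B : Type} [CommRing B] {r : ℕ} (e : Fin r → B) (j : Fin r) :
    pderiv (some j) (rel e) = C (e j) := by
  unfold rel
  simp [pderiv_X, Pi.single_apply]

/-- `∂rel/∂w` -/
lemma pderiv_none {B : Type} [CommRing B] {r : ℕ} (e : Fin r → B) :
    pderiv none (rel e) = 2 * X none - 1 := by
  unfold rel
  simp [pderiv_X]
  ring

/-- `Spec (Cub e)` is smooth of relative dimension `r` over `Spec B`. -/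
lemma smoothRel_cub {k : Type} [CommRing k] {B : Type} [CommRing B] [Algebra k B] {r : ℕ}
    (e : Fin r → B) : SmoothRel r (Cub.p k e : B →+* Cub e) := by
  rw [smoothRel_iff]
  let F := rel e
  let s : Option (Fin r) → Cub e := fun o => Ideal.Quotient.mk (Ideal.span {rel e}) (pderiv o (rel e))
  refine RingHom.locally_of_exists (RingHom.isStandardSmoothOfRelativeDimension_respectsIso (n := r))
    _ s ?_ (fun o => Localization.Away (s o)) ?_
  · rw [Ideal.eq_top_iff_one]
    have h1 : ∀ j, Cub.p k e (e j) ∈ Ideal.span (Set.range s) := by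
      intro j
      refine Ideal.subset_span ⟨some j, ?_⟩
      simp only [s, pderiv_some]
      rfl
    have h2 : 2 * Cub.w e - 1 ∈ Ideal.span (Set.range s) := by
      refine Ideal.subset_span ⟨none, ?_⟩
      simp only [s, pderiv_none]
      rfl
    have h3 := Cub.relation (k := k) e
    have h4 : (1 : Cub e) = (2 * Cub.w e - 1) * (2 * Cub.w e - 1) +
        4 * ∑ j, Cub.u e j * Cub.p k e (e j) := by
      rw [h3]; ring
    rw [h4]
    exact add_mem (Ideal.mul_mem_left _ _ h2)
      (Ideal.mul_mem_left _ _ (sum_mem fun j _ => Ideal.mul_mem_left _ _ (h1 j)))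
  · intro o
    let ε : (MvPolynomial (Option (Fin r)) B ⧸ Ideal.span {rel e}) ≃ₐ[B] Cub e :=
      @AlgEquiv.refl B (MvPolynomial (Option (Fin r)) B ⧸ Ideal.span {rel e}) _ _ _
    haveI : IsScalarTower B (Cub e) (Localization.Away (s o)) := OreLocalization.instIsScalarTower
    have h := std_hypersurface (Option (Fin r)) B (rel e) o (Cub e) ε (s o) rfl
      (Localization.Away (s o)) r (by simp)
    have h1 := (RingHom.isStandardSmoothOfRelativeDimension_algebraMap r).2 h
    rw [IsScalarTower.algebraMap_eq B (Cub e) (Localization.Away (s o))] at h1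
    exact h1

end Pool.Agent.K6.H18.Cubic
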