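import Pool.Agent.K6.H18.Cubic.Theory

/-!
The Borel-Moore homology of `Spec (Cub e)` is the sum of those of `Spec B` and `Spec B/(e)`.
-/

set_option autoImplicit false

open MvPolynomial

namespace Pool.Agent.K6.H18.Cubic

section
variable {k : Type} [CommRing k] (T : BorelMoore k)

lemma BorelMoore.pull_congr {B C : Type} [CommRing B] [Algebra k B] [CommRing C] [Algebra k C]
    {ψ ψ' : B →ₐ[k] C} (hψ : ψ = ψ') (d : ℕ) (h : SmoothRel d (ψ : B →+* C))
    (h' : SmoothRel d (ψ' : B →+* C)) {b b' : ℤ} (hb : b' = b + d) (a : ℤ) (x : T.H B a b) :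
    T.pull ψ d h hb a x = T.pull ψ' d h' hb a x := by
  subst hψ; rfl

lemma BorelMoore.push_congr {B C : Type} [CommRing B] [Algebra k B] [CommRing C] [Algebra k C]
    {φ φ' : B →ₐ[k] C} (hφ : φ = φ') (h : Function.Surjective φ) (h' : Function.Surjective φ')
    (a b : ℤ) (x : T.H C a b) : T.push φ h a b x = T.push φ' h' a b x := by
  subst hφ; rfl

/-- the homomorphism `(p^*, i_* q^*)` -/
noncomputable def BorelMoore.sum {B Z : Type} [CommRing B] [Algebra k B] [CommRing Z] [Algebra k Z]
    {r : ℕ} (e : Fin r → B) (π : B →ₐ[k] Z) (hπ : Function.Surjective π)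
    (h0 : ∀ j, π (e j) = 0) {b b' : ℤ} (hb : b' = b + r) (a : ℤ) (x : T.H B a b × T.H Z a b) :
    T.H (Cub e) a b' :=
  T.pull (Cub.p k e) r (smoothRel_cub e) hb a x.1 +
    T.push (Cub.i π h0) (Cub.i_surjective π h0 hπ) a b'
      (T.pull (const k Z r) r (smoothRel_const k Z r) hb a x.2)

lemma smoothRel_comp {B C D : Type} [CommRing B] [Algebra k B] [CommRing C] [Algebra k C]
    [CommRing D] [Algebra k D] {ψ : B →ₐ[k] C} {ψ' : C →ₐ[k] D} {d d' d'' : ℕ}
    (h : SmoothRel d (ψ : B →+* C)) (h' : SmoothRel d' (ψ' : C →+* D)) (hd : d'' = d + d') :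
    SmoothRel d'' (ψ'.comp ψ : B →+* D) := by
  have := h.comp h' hd
  exact this

theorem BorelMoore.sum_bijective {r : ℕ} (m : ℕ) : ∀ (n : ℕ), n + m = r →
    ∀ (B : Type) [CommRing B] [Algebra k B] [Algebra.FiniteType k B] (e : Fin r → B)
      (_ : ∀ j : Fin r, j.val < n → e j = 0) (Z : Type) [CommRing Z] [Algebra k Z]
      (π : B →ₐ[k] Z) (hπ : Function.Surjective π) (_ : RingHom.ker π = Ideal.span (Set.range e))
      (h0 : ∀ j, π (e j) = 0) (b b' : ℤ) (hb : b' = b + r) (a : ℤ),
      Function.Bijective (T.sum e π hπ h0 hb a) := by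
  induction m with
  | zero =>
    intro n hn B _ _ _ e he Z _ _ π hπ hker h0 b b' hb a
    have he0 : ∀ j, e j = 0 := fun j => he j (by omega)
    have hft : Algebra.FiniteType k Z := Algebra.FiniteType.of_surjective π hπ
    have hk : RingHom.ker (Cub.i π h0) = Ideal.span {Cub.w e} := by
      rw [Cub.ker_i π h0 hπ, hker]
      have h1 : Ideal.span (Set.range e) = ⊥ := by
        rw [Ideal.span_eq_bot]
        rintro _ ⟨j, rfl⟩
        exact he0 j
      rw [h1, Ideal.map_bot, sup_bot_eq]
    have hb0 : b' = b' + (0 : ℕ) := by simp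
    have hloc := smoothRel_loc k (Cub.w e)
    have hsur := Cub.i_surjective π h0 hπ
    have hp := smoothRel_cub (k := k) e
    obtain ⟨σ, hσ⟩ := Cub.exists_equiv_zero (k := k) he0
    have hcomp := smoothRel_comp (d'' := r) hp hloc (by simp)
    refine chase0 (T.pull (Cub.p k e) r hp hb a) (T.pull (loc k (Cub.w e)) 0 hloc hb0 a)
      (T.push (Cub.i π h0) hsur a b') (T.bdry (Cub.w e) (Cub.i π h0) hsur hk a b')
      (T.pull (Cub.p k e) r hp hb (a + 1)) (T.pull (loc k (Cub.w e)) 0 hloc hb0 (a + 1))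
      (T.pull (const k Z r) r (smoothRel_const k Z r) hb a)
      (T.exact_base _ _ _ hk _ _ _ _) (T.exact_closed _ _ _ hk _ _) (T.exact_open _ _ _ hk _ _ _ _)
      ?_ ?_ (T.homotopy r (RingEquiv.refl _) _ (fun x => rfl) _ _ _)
    · have h1 := T.homotopy r σ _ hσ hcomp hb a
      refine (congrArg Function.Bijective ?_).mp h1
      funext x
      exact T.pull_comp (Cub.p k e) (loc k (Cub.w e)) r 0 r hp hloc hcomp hb hb0 hb a x
    · have h1 := T.homotopy r σ _ hσ hcomp hb (a + 1)
      refine (congrArg Function.Bijective ?_).mp h1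
      funext x
      exact T.pull_comp (Cub.p k e) (loc k (Cub.w e)) r 0 r hp hloc hcomp hb hb0 hb (a + 1) x
  | succ m ih =>
    intro n hn B _ _ _ e he Z _ _ π hπ hker h0 b b' hb a
    obtain ⟨a, rfl⟩ : ∃ a', a = a' + 1 := ⟨a - 1, by ring⟩
    let j₀ : Fin r := ⟨n, by omega⟩
    let f : B := e j₀
    let Bb : Type := B ⧸ Ideal.span {f}
    let φ : B →ₐ[k] Bb := Ideal.Quotient.mkₐ k (Ideal.span {f})
    have hφ : Function.Surjective φ := Ideal.Quotient.mk_surjective
    have hφk : RingHom.ker φ = Ideal.span {f} := Ideal.Quotient.mkₐ_ker k _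
    have hft : Algebra.FiniteType k Bb := Algebra.FiniteType.of_surjective φ hφ
    let eb : Fin r → Bb := fun j => φ (e j)
    have heb : ∀ j : Fin r, j.val < n + 1 → eb j = 0 := by
      intro j hj
      rcases Nat.lt_succ_iff_lt_or_eq.1 hj with h | h
      · show φ (e j) = 0
        rw [he j h, map_zero]
      · have : j = j₀ := Fin.ext h
        rw [this]
        exact Ideal.Quotient.eq_zero_iff_mem.2 (Ideal.mem_span_singleton_self f)
    have hlift : ∀ x ∈ Ideal.span {f}, π x = 0 := by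
      intro x hx
      have h1 : Ideal.span {f} ≤ RingHom.ker π := by
        rw [Ideal.span_le, Set.singleton_subset_iff]
        exact h0 j₀
      exact h1 hx
    let πb : Bb →ₐ[k] Z := Ideal.Quotient.liftₐ (Ideal.span {f}) π hlift
    have hπb : πb.comp φ = π := by
      ext x; rfl
    have hπbs : Function.Surjective πb := by
      intro z
      obtain ⟨x, rfl⟩ := hπ z
      exact ⟨φ x, rfl⟩
    have h0b : ∀ j, πb (eb j) = 0 := fun j => h0 j
    have hkerb : RingHom.ker πb = Ideal.span (Set.range eb) := by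
      have h1 : Ideal.comap φ (RingHom.ker πb) = RingHom.ker π := by
        ext x; exact Iff.rfl
      rw [← Ideal.map_comap_of_surjective φ hφ (RingHom.ker πb), h1, hker, Ideal.map_span,
        ← Set.range_comp]
      rfl
    have heb' : ∀ j, eb j = φ (e j) := fun j => rfl
    let φC : Cub e →ₐ[k] Cub eb := Cub.map φ heb'
    have hφC : Function.Surjective φC := Cub.map_surjective φ heb' hφ
    have hφCk : RingHom.ker φC = Ideal.span {Cub.p k e f} := by
      show RingHom.ker (Cub.map φ heb') = _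
      rw [Cub.ker_map φ heb' hφ, hφk, Ideal.map_span, Set.image_singleton]
    have hbB : b = b + (0 : ℕ) := by simp
    have hbC : b' = b' + (0 : ℕ) := by simp
    have hlB := smoothRel_loc k f
    have hlC := smoothRel_loc k (Cub.p k e f)
    have hp := smoothRel_cub (k := k) e
    have hpb := smoothRel_cub (k := k) eb
    obtain ⟨σ, hσ⟩ := Cub.exists_equiv_away (k := k) (e := e) j₀
    have hpf : SmoothRel r (Localization.awayMapₐ (Cub.p k e) f :
        Localization.Away f →+* Localization.Away (Cub.p k e f)) := smoothRel_of_equiv r σ _ hσ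
    have hcomm : φC.comp (Cub.p k e) = (Cub.p k eb).comp φ := Cub.map_comp_p φ heb'
    have hsq : (loc k (Cub.p k e f)).comp (Cub.p k e) =
        (Localization.awayMapₐ (Cub.p k e) f).comp (loc k f) :=
      AlgHom.ext fun x => (awayMap_loc (Cub.p k e) f x).symm
    have hi : (Cub.i πb h0b).comp φC = Cub.i π h0 := Cub.i_map π h0 φ heb' πb h0b hπb
    have ihb := fun a => ih (n + 1) (by omega) Bb eb heb Z πb hπbs hkerb h0b b b' hb a
    have hsmooth1 := smoothRel_comp (d'' := r) hp hlC (by simp)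
    have hsmooth2 := smoothRel_comp (d'' := r) hlB hpf (by simp)
    let qZ : T.H Z (a + 1) b →+ T.H (MvPolynomial (Fin r) Z) (a + 1) b' :=
      T.pull (const k Z r) r (smoothRel_const k Z r) hb (a + 1)
    refine chase1 (T.bdry f φ hφ hφk (a + 1) b) (T.push φ hφ (a + 1) b)
      (T.pull (loc k f) 0 hlB hbB (a + 1)) (T.bdry f φ hφ hφk a b)
      (T.bdry (Cub.p k e f) φC hφC hφCk (a + 1) b') (T.push φC hφC (a + 1) b')
      (T.pull (loc k (Cub.p k e f)) 0 hlC hbC (a + 1)) (T.bdry (Cub.p k e f) φC hφC hφCk a b')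
      (T.pull (Localization.awayMapₐ (Cub.p k e) f) r hpf hb (a + 1 + 1))
      (T.pull (Cub.p k eb) r hpb hb (a + 1)) (T.pull (Cub.p k e) r hp hb (a + 1))
      (T.pull (Localization.awayMapₐ (Cub.p k e) f) r hpf hb (a + 1))
      (T.pull (Cub.p k eb) r hpb hb a)
      ((T.push (Cub.i π h0) (Cub.i_surjective π h0 hπ) (a + 1) b').comp qZ)
      ((T.push (Cub.i πb h0b) (Cub.i_surjective πb h0b hπbs) (a + 1) b').comp qZ)
      (T.exact_closed _ _ _ hφk _ _) (T.exact_base _ _ _ hφk _ _ _ _)
      (T.exact_open _ _ _ hφk _ _ _ _)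
      (T.exact_closed _ _ _ hφCk _ _) (T.exact_base _ _ _ hφCk _ _ _ _)
      (T.exact_open _ _ _ hφCk _ _ _ _) ?_ ?_ ?_ ?_ ?_
      (T.homotopy r σ _ hσ _ _ _) (T.homotopy r σ _ hσ _ _ _) (ihb (a + 1)) ?_
    · intro x
      exact T.bdry_natural f φ hφ hφk (Cub.p k e) φC hφC hφCk (Cub.p k eb) hcomm r hp hpb hpf hb
        (a + 1) x
    · intro x
      have h1 : RingHom.ker φC = (RingHom.ker φ).map (Cub.p k e) := Cub.ker_map φ heb' hφ
      exact (T.base_change φ hφ (Cub.p k e) φC hφC (Cub.p k eb) hcomm h1 r hp hpb hb (a + 1) x).symm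
    · intro x
      have h1 := T.pull_comp (Cub.p k e) (loc k (Cub.p k e f)) r 0 r hp hlC hsmooth1 hb hbC hb
        (a + 1) x
      have h2 := T.pull_comp (loc k f) (Localization.awayMapₐ (Cub.p k e) f) 0 r r hlB hpf hsmooth2
        hbB hb hb (a + 1) x
      rw [← h1, ← h2]
      exact T.pull_congr hsq r hsmooth1 hsmooth2 hb (a + 1) x
    · intro x
      exact T.bdry_natural f φ hφ hφk (Cub.p k e) φC hφC hφCk (Cub.p k eb) hcomm r hp hpb hpf hb a x
    · intro x
      have hs : Function.Surjective ((Cub.i πb h0b).comp φC) := by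
        rw [hi]; exact Cub.i_surjective π h0 hπ
      have h1 := T.push_comp φC (Cub.i πb h0b) hφC (Cub.i_surjective πb h0b hπbs) hs (a + 1) b' (qZ x)
      refine h1.symm.trans ?_
      exact T.push_congr hi hs (Cub.i_surjective π h0 hπ) (a + 1) b' (qZ x)
    · have h1 := (ihb a).1
      intro x y hxy
      have h2 : T.sum eb πb hπbs h0b hb a (x, 0) = T.sum eb πb hπbs h0b hb a (y, 0) := by
        unfold BorelMoore.sum
        simp only [map_zero, add_zero]
        exact hxy
      exact congrArg Prod.fst (h1 h2)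

end

end Pool.Agent.K6.H18.Cubic
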