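import Pool.Agent.K6.H18.Cubic.Seq

/-!
The homology of a variety is a natural direct summand of the homology of a hypersurface.
-/

set_option autoImplicit false

open MvPolynomial AlgebraicGeometry CategoryTheory

namespace Pool.Agent.K6.H18.Cubic

open Alg

section
variable {k : Type} [CommRing k]

/-- change of the index of the weight -/
def BorelMoore.shift (T : BorelMoore k) (A : Type) [CommRing A] [Algebra k A] (a : ℤ) {b b' : ℤ}
    (h : b = b') : T.H A a b ≃+ T.H A a b' := by
  subst h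
  exact AddEquiv.refl _

lemma BorelMoore.Hom.map_shift {M T : BorelMoore k} (c : M.Hom T) (A : Type) [CommRing A]
    [Algebra k A] (a : ℤ) {b b' : ℤ} (h : b = b') (x : M.H A a b) :
    c.map A a b' (M.shift A a h x) = T.shift A a h (c.map A a b x) := by
  subst h
  rfl

variable (k) in
/-- natural direct summands -/
def SummandU (A B : Type) [CommRing A] [Algebra k A] [CommRing B] [Algebra k B] (n : ℕ) : Prop :=
  ∃ (i : ∀ (T : BorelMoore k) (a b b' : ℤ), b' = b + n → (T.H A a b →+ T.H B a b'))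
    (p : ∀ (T : BorelMoore k) (a b b' : ℤ), b' = b + n → (T.H B a b' →+ T.H A a b)),
    (∀ (T : BorelMoore k) (a b b' : ℤ) (h : b' = b + n) (x : T.H A a b),
      p T a b b' h (i T a b b' h x) = x) ∧
    ∀ (M T : BorelMoore k) (c : M.Hom T) (a b b' : ℤ) (h : b' = b + n),
      (∀ x, c.map B a b' (i M a b b' h x) = i T a b b' h (c.map A a b x)) ∧
      ∀ y, c.map A a b (p M a b b' h y) = p T a b b' h (c.map B a b' y)

lemma SummandU.trans {A B C : Type} [CommRing A] [Algebra k A] [CommRing B] [Algebra k B]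
    [CommRing C] [Algebra k C] {n m : ℕ} (h₁ : SummandU k A B n) (h₂ : SummandU k B C m) :
    SummandU k A C (n + m) := by
  obtain ⟨i, p, hip, hc⟩ := h₁
  obtain ⟨j, q, hjq, hd⟩ := h₂
  have hh : ∀ {b b' : ℤ}, b' = b + ((n + m : ℕ) : ℤ) → b' = b + n + m := by
    intro b b' h
    rw [h]; push_cast; ring
  refine ⟨fun T a b b' h => (j T a (b + n) b' (hh h)).comp (i T a b (b + n) rfl),
    fun T a b b' h => (p T a b (b + n) rfl).comp (q T a (b + n) b' (hh h)),
    fun T a b b' h x => ?_, fun M T c a b b' h => ⟨fun x => ?_, fun y => ?_⟩⟩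
  · simp only [AddMonoidHom.comp_apply]
    rw [hjq, hip]
  · simp only [AddMonoidHom.comp_apply]
    rw [(hd M T c a (b + n) b' (hh h)).1, (hc M T c a b (b + n) rfl).1]
  · simp only [AddMonoidHom.comp_apply]
    rw [(hc M T c a b (b + n) rfl).2, (hd M T c a (b + n) b' (hh h)).2]

lemma SummandU.refl (A : Type) [CommRing A] [Algebra k A] : SummandU k A A 0 := by
  have hh : ∀ {b b' : ℤ}, b' = b + ((0 : ℕ) : ℤ) → b = b' := by
    intro b b' h
    rw [h]; simp
  refine ⟨fun T a b b' h => (T.shift A a (hh h)).toAddMonoidHom,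
    fun T a b b' h => (T.shift A a (hh h)).symm.toAddMonoidHom,
    fun T a b b' h x => (T.shift A a (hh h)).symm_apply_apply x,
    fun M T c a b b' h => ⟨fun x => c.map_shift A a (hh h) x, fun y => ?_⟩⟩
  show c.map A a b ((M.shift A a (hh h)).symm y) = (T.shift A a (hh h)).symm (c.map A a b' y)
  rw [AddEquiv.eq_symm_apply, ← c.map_shift, AddEquiv.apply_symm_apply]

lemma summandU_poly {B C : Type} [CommRing B] [Algebra k B] [CommRing C] [Algebra k C]
    [Algebra.FiniteType k B] (r : ℕ) (σ : MvPolynomial (Fin r) B ≃+* C) (ψ : B →ₐ[k] C)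
    (hψ : ∀ x, ψ x = σ (MvPolynomial.C x)) : SummandU k B C r := by
  have hs := smoothRel_of_equiv r σ ψ hψ
  let α : ∀ (T : BorelMoore k) (a b b' : ℤ), b' = b + r → (T.H B a b ≃+ T.H C a b') :=
    fun T a b b' h => AddEquiv.ofBijective (T.pull ψ r hs h a) (T.homotopy r σ ψ hψ hs h a)
  have hα : ∀ (M T : BorelMoore k) (c : M.Hom T) (a b b' : ℤ) (h : b' = b + r) (x : M.H B a b),
      c.map C a b' (α M a b b' h x) = α T a b b' h (c.map B a b x) :=
    fun M T c a b b' h x => c.map_pull ψ r hs h a x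
  refine ⟨fun T a b b' h => (α T a b b' h).toAddMonoidHom,
    fun T a b b' h => (α T a b b' h).symm.toAddMonoidHom,
    fun T a b b' h x => (α T a b b' h).symm_apply_apply x,
    fun M T c a b b' h => ⟨fun x => hα M T c a b b' h x, fun y => ?_⟩⟩
  show c.map B a b ((α M a b b' h).symm y) = (α T a b b' h).symm (c.map C a b' y)
  rw [AddEquiv.eq_symm_apply, ← hα, AddEquiv.apply_symm_apply]

lemma summandU_of_equiv {A A' B : Type} [CommRing A] [Algebra k A] [CommRing A'] [Algebra k A']
    [CommRing B] [Algebra k B] {n : ℕ}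
    (α : ∀ (T : BorelMoore k) (a b b' : ℤ), b' = b + n → (T.H A' a b × T.H A a b ≃+ T.H B a b'))
    (hα : ∀ (M T : BorelMoore k) (c : M.Hom T) (a b b' : ℤ) (h : b' = b + n)
      (x : M.H A' a b × M.H A a b),
      c.map B a b' (α M a b b' h x) = α T a b b' h (c.map A' a b x.1, c.map A a b x.2)) :
    SummandU k A B n := by
  refine ⟨fun T a b b' h => (α T a b b' h).toAddMonoidHom.comp (AddMonoidHom.inr _ _),
    fun T a b b' h => (AddMonoidHom.snd _ _).comp (α T a b b' h).symm.toAddMonoidHom,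
    fun T a b b' h x => ?_, fun M T c a b b' h => ⟨fun x => ?_, fun y => ?_⟩⟩
  · show ((α T a b b' h).symm (α T a b b' h (0, x))).2 = x
    rw [AddEquiv.symm_apply_apply]
  · show c.map B a b' (α M a b b' h (0, x)) = α T a b b' h (0, c.map A a b x)
    rw [hα, map_zero]
  · show c.map A a b ((α M a b b' h).symm y).2 = ((α T a b b' h).symm (c.map B a b' y)).2
    obtain ⟨z, rfl⟩ := (α M a b b' h).surjective y
    rw [hα, AddEquiv.symm_apply_apply, AddEquiv.symm_apply_apply]

/-- The homology of `Spec B/(e)` is a direct summand. -/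
lemma summandU_cub {B Z : Type} [CommRing B] [Algebra k B] [CommRing Z] [Algebra k Z]
    [Algebra.FiniteType k B] {r : ℕ} (e : Fin r → B) (π : B →ₐ[k] Z)
    (hπ : Function.Surjective π) (hker : RingHom.ker π = Ideal.span (Set.range e)) :
    SummandU k Z (Cub e) r := by
  have h0 : ∀ j, π (e j) = 0 := fun j => by
    have : e j ∈ RingHom.ker π := by rw [hker]; exact Ideal.subset_span ⟨j, rfl⟩
    exact this
  refine summandU_of_equiv (A' := B) (fun T a b b' h => AddEquiv.ofBijective
    (T.sumHom e π hπ h0 h a) (T.sum_bijective r 0 (by simp) B e (fun j hj => absurd hj (by simp))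
      Z π hπ hker h0 b b' h a)) (fun M T c a b b' h x => ?_)
  exact c.map_sum e π hπ h0 h a x

/-- The homology of a direct factor is a direct summand. -/
lemma summandU_factor {B C₁ C₂ : Type} [CommRing B] [Algebra k B] [CommRing C₁] [Algebra k C₁]
    [CommRing C₂] [Algebra k C₂] [Algebra.FiniteType k B] (f : B) (hf : f * f = f)
    (φ₁ : B →ₐ[k] C₁) (φ₂ : B →ₐ[k] C₂) (h₁ : Function.Surjective φ₁)
    (h₂ : Function.Surjective φ₂) (hk₁ : RingHom.ker φ₁ = Ideal.span {1 - f})
    (hk₂ : RingHom.ker φ₂ = Ideal.span {f}) : SummandU k C₂ B 0 := by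
  have hh : ∀ {b b' : ℤ}, b' = b + ((0 : ℕ) : ℤ) → b = b' := by
    intro b b' h
    rw [h]; simp
  refine summandU_of_equiv (A' := C₁) (fun T a b b' h => (AddEquiv.ofBijective
    ((T.push φ₁ h₁ a b).coprod (T.push φ₂ h₂ a b))
    (T.prod_bijective f hf φ₁ φ₂ h₁ h₂ hk₁ hk₂ a b)).trans (T.shift B a (hh h)))
    (fun M T c a b b' h x => ?_)
  show c.map B a b' (M.shift B a (hh h) (M.push φ₁ h₁ a b x.1 + M.push φ₂ h₂ a b x.2)) =
    T.shift B a (hh h) (T.push φ₁ h₁ a b (c.map C₁ a b x.1) + T.push φ₂ h₂ a b (c.map C₂ a b x.2))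
  rw [c.map_shift, map_add, c.map_push, c.map_push]

lemma summandU_factor' {B C₁ C₂ : Type} [CommRing B] [Algebra k B] [CommRing C₁] [Algebra k C₁]
    [CommRing C₂] [Algebra k C₂] [Algebra.FiniteType k B] (f : B) (hf : f * f = f)
    (φ₁ : B →ₐ[k] C₁) (φ₂ : B →ₐ[k] C₂) (h₁ : Function.Surjective φ₁)
    (h₂ : Function.Surjective φ₂) (hk₁ : RingHom.ker φ₁ = Ideal.span {1 - f})
    (hk₂ : RingHom.ker φ₂ = Ideal.span {f}) : SummandU k C₁ B 0 :=
  summandU_factor (1 - f) (by linear_combination hf) φ₂ φ₁ h₂ h₁ (by rw [hk₂, sub_sub_cancel]) hk₁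

lemma ker_fst_snd (A B : Type) [CommRing A] [CommRing B] [Algebra k A] [Algebra k B] :
    RingHom.ker (AlgHom.fst k A B) = Ideal.span {1 - ((1, 0) : A × B)} ∧
      RingHom.ker (AlgHom.snd k A B) = Ideal.span {((1, 0) : A × B)} := by
  constructor
  · ext x
    rw [RingHom.mem_ker, Ideal.mem_span_singleton]
    constructor
    · intro h
      have h : x.1 = 0 := h
      exact ⟨x, by ext <;> simp [h]⟩
    · rintro ⟨y, rfl⟩
      simp
  · ext x
    rw [RingHom.mem_ker, Ideal.mem_span_singleton]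
    constructor
    · intro h
      have h : x.2 = 0 := h
      exact ⟨x, by ext <;> simp [h]⟩
    · rintro ⟨y, rfl⟩
      simp

lemma summandU_prod (A B : Type) [CommRing A] [CommRing B] [Algebra k A] [Algebra k B]
    [Algebra.FiniteType k A] [Algebra.FiniteType k B] :
    SummandU k A (A × B) 0 ∧ SummandU k B (A × B) 0 := by
  have h := ker_fst_snd (k := k) A B
  exact ⟨summandU_factor' ((1, 0) : A × B) (by simp) (AlgHom.fst k A B) (AlgHom.snd k A B)
    (fun x => ⟨(x, 0), rfl⟩) (fun x => ⟨(0, x), rfl⟩) h.1 h.2,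
    summandU_factor ((1, 0) : A × B) (by simp) (AlgHom.fst k A B) (AlgHom.snd k A B)
    (fun x => ⟨(x, 0), rfl⟩) (fun x => ⟨(0, x), rfl⟩) h.1 h.2⟩

/-- Families of homomorphisms between the homology of `Spec B` and the homology of `Spec C`, in both
directions, for all theories `T`; the weight is shifted by `n`. -/
structure Transfer (B C : Alg k) (n : ℕ) where
  /-- from `B` to `C` -/
  incl : ∀ (T : BM k) (a b : ℤ), T.H B a b →+ T.H C a (b + n)
  /-- from `C` to `B` -/
  proj : ∀ (T : BM k) (a b : ℤ), T.H C a (b + n) →+ T.H B a b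

namespace Transfer
variable {B C : Alg k} {n : ℕ} (s : Transfer B C n)

/-- the image of an element -/
def inclf {T : BM k} {a b : ℤ} (x : T.H B a b) : T.H C a (b + n) := s.incl T a b x

/-- the image of an element -/
def projf {T : BM k} {a b : ℤ} (y : T.H C a (b + n)) : T.H B a b := s.proj T a b y

/-- `proj ∘ incl` is the identity -/
def IsSection : Prop := ∀ (T : BM k) (a b : ℤ) (x : T.H B a b), s.projf (s.inclf x) = x

/-- `incl` commutes with all morphisms of theories -/
def InclNatural : Prop :=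
  ∀ (M T : BM k) (c : M.Hom T) (a b : ℤ) (x : M.H B a b), c.mapf (s.inclf x) = s.inclf (c.mapf x)

/-- `proj` commutes with all morphisms of theories -/
def ProjNatural : Prop :=
  ∀ (M T : BM k) (c : M.Hom T) (a b : ℤ) (y : M.H C a (b + n)),
    c.mapf (s.projf y) = s.projf (c.mapf y)

end Transfer

/-- The homology of `Spec B` is a direct summand of the homology of `Spec C`, with the weight
shifted by `n`, for all theories and compatibly with all morphisms of theories. -/
def IsSummand (B C : Alg k) (n : ℕ) : Prop :=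
  ∃ s : Transfer B C n, s.IsSection ∧ s.InclNatural ∧ s.ProjNatural

lemma SummandU.isSummand {B C : Alg k} {n : ℕ} (h : SummandU k B.ring C.ring n) :
    IsSummand B C n := by
  obtain ⟨i, p, hip, hc⟩ := h
  exact ⟨⟨fun T a b => i T.toBorelMoore a b (b + n) rfl,
      fun T a b => p T.toBorelMoore a b (b + n) rfl⟩,
    fun T a b x => hip T.toBorelMoore a b (b + n) rfl x,
    fun M T c a b x => (hc _ _ c.toHom a b (b + n) rfl).1 x,
    fun M T c a b y => (hc _ _ c.toHom a b (b + n) rfl).2 y⟩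

end

section
variable {k : Type} [Field k] {S : Set k}

lemma summandU_hyp {m r : ℕ} (e : Fin r → MvPolynomial (Fin m) k) {A : Type} [CommRing A]
    [Algebra k A] (π : MvPolynomial (Fin m) k →ₐ[k] A) (hπ : Function.Surjective π)
    (hker : RingHom.ker π = Ideal.span (Set.range e)) : SummandU k A (Hyp e) r := by
  have h1 : SummandU k (Cub e) (Hyp e) 0 := by
    refine summandU_poly 0 ((isEmptyRingEquiv (Cub e) (Fin 0)).trans (equivCub e).symm.toRingEquiv)
      ((equivCub e).symm : Cub e →ₐ[k] Hyp e) (fun x => ?_)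
    simp only [RingEquiv.trans_apply]
    have h3 : isEmptyRingEquiv (Cub e) (Fin 0) (C x) = x := by
      rw [← isEmptyRingEquiv_symm_apply (Cub e) (Fin 0) x, RingEquiv.apply_symm_apply]
    rw [h3]; rfl
  exact (summandU_cub e π hπ hker).trans h1

/-- The homology of every affine variety is a direct summand of the homology of a hypersurface with
constants in `S`. -/
theorem exists_summandU [Algebra.IsSeparable (Subfield.closure S) k] (A : Type) [CommRing A]
    [Algebra k A] [Algebra.FiniteType k A] :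
    ∃ (m r : ℕ) (e : Fin r → MvPolynomial (Fin m) k), IsElementary S e ∧
      SummandU k A (Hyp e) r := by
  obtain ⟨A', A'', _, _, _, _, _, f, φ₁, φ₂, hf, h₁, h₂, k₁, k₂, m, r, e, π, hr, he, hπ, hker⟩ :=
    exists_factor (S := S) A
  have h := (summandU_factor' f hf φ₁ φ₂ h₁ h₂ k₁ k₂).trans (summandU_hyp e π hπ hker)
  rw [Nat.zero_add] at h
  exact ⟨m, r, e, ⟨hr, he⟩, h⟩

theorem exists_isSummand [Algebra.IsSeparable (Subfield.closure S) k] (B : Alg k)
    (hB : B.IsFiniteType) :
    ∃ (m r : ℕ) (e : Fin r → MvPolynomial (Fin m) k), IsElementary S e ∧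
      IsSummand B (Hypersurface e) r := by
  have hft : Algebra.FiniteType k B.ring := hB
  obtain ⟨m, r, e, he, h⟩ := exists_summandU (S := S) B.ring
  exact ⟨m, r, e, he, SummandU.isSummand (B := B) (C := Hypersurface e) h⟩

lemma summandU_prodSeq (u : ℕ → Alg k) (hu : ∀ n, (u n).IsFiniteType) (n : ℕ) :
    ∀ i ≤ n, SummandU k (u i).ring (prodSeq u n).ring 0 := by
  induction n with
  | zero =>
    intro i hi
    obtain rfl : i = 0 := by omega
    exact SummandU.refl _
  | succ n ih =>
    have h1 : Algebra.FiniteType k (prodSeq u n).ring := isFiniteType_prodSeq u hu n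
    have h2 : Algebra.FiniteType k (u (n + 1)).ring := hu (n + 1)
    have h3 := summandU_prod (k := k) (prodSeq u n).ring (u (n + 1)).ring
    intro i hi
    rcases Nat.lt_or_ge i (n + 1) with h4 | h4
    · exact (ih i (by omega)).trans h3.1
    · obtain rfl : i = n + 1 := by omega
      exact h3.2

/-- There is one sequence of hypersurfaces such that the homology of every affine variety is a
direct summand of the homology of all but finitely many of them. -/
theorem exists_sequence_summand (hS : S.Countable) [Algebra.IsSeparable (Subfield.closure S) k] :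
    ∃ v : ℕ → EqnSystem k, (∀ N, IsElementary S (v N).eqs) ∧
      ∀ B : Alg k, B.IsFiniteType → ∃ N₀ : ℕ, ∀ N ≥ N₀, ∃ n : ℕ,
        IsSummand B (Hypersurface (v N).eqs) n := by
  have hc := countable_systems (k := k) hS
  have hne : Nonempty {E : EqnSystem k // IsElementary S E.eqs} := by
    have h1 : (X (0 : Fin 1) - 1 : MvPolynomial (Fin 1) k) ∈ Elem S (Fin 1) := Elem.one (0 : Fin 1)
    have h2 : IsElementary (r := 1) S (fun _ => (X (0 : Fin 1) - 1 : MvPolynomial (Fin 1) k)) :=
      ⟨Nat.one_pos, fun _ => h1⟩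
    exact ⟨⟨⟨1, 1, fun _ => X (0 : Fin 1) - 1⟩, h2⟩⟩
  obtain ⟨u, hu⟩ := countable_iff_exists_surjective.1 hc
  let w : ℕ → Alg k := fun n => Hypersurface (u n).1.eqs
  have hw : ∀ n, (w n).IsFiniteType := fun n => isFiniteType_hypersurface _
  have hex : ∀ n, ∃ (m r : ℕ) (e : Fin r → MvPolynomial (Fin m) k), IsElementary S e ∧
      SummandU k (prodSeq w n).ring (Hyp e) r := by
    intro n
    have hft : Algebra.FiniteType k (prodSeq w n).ring := isFiniteType_prodSeq w hw n
    exact exists_summandU (S := S) (prodSeq w n).ring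
  choose m r e he h using hex
  refine ⟨fun n => ⟨m n, r n, e n⟩, he, fun B hB => ?_⟩
  have hft : Algebra.FiniteType k B.ring := hB
  obtain ⟨m', r', e', he', h'⟩ := exists_summandU (S := S) B.ring
  obtain ⟨i, hi⟩ := hu ⟨⟨m', r', e'⟩, he'⟩
  refine ⟨i, fun N hN => ⟨r' + (0 + r N), ?_⟩⟩
  have h3 : w i = Hypersurface e' := by
    show Hypersurface (u i).1.eqs = _
    rw [hi]
  have h1 : SummandU k (w i).ring (prodSeq w N).ring 0 := summandU_prodSeq w hw N i hN
  rw [h3] at h1
  exact SummandU.isSummand (B := B) (C := Hypersurface (e N)) (h'.trans (h1.trans (h N)))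

/-- Properties which are inherited by direct summands. -/
def Inherited (P : Alg k → ℤ → Prop) : Prop :=
  ∀ (B C : Alg k) (n : ℕ), IsSummand B C n → ∀ b : ℤ, P C (b + n) → P B b

/-- The reduction of a property which is inherited by direct summands. -/
theorem exists_sequence_inherited (hS : S.Countable)
    [Algebra.IsSeparable (Subfield.closure S) k] :
    ∃ v : ℕ → EqnSystem k, (∀ N, IsElementary S (v N).eqs) ∧
      (∀ B : Alg k, B.IsFiniteType → ∃ N₀ : ℕ, ∀ N ≥ N₀, ∃ n : ℕ,
        IsSummand B (Hypersurface (v N).eqs) n) ∧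
      ∀ (P : Alg k → ℤ → Prop) (_ : Inherited P) (𝒱 : Over (Spec (CommRingCat.of k)) → Prop)
        (TX : Over (Spec (CommRingCat.of k)) → ℤ → Prop) (_ : IsExtensionOf P 𝒱 TX),
        (∀ I : Set ℕ, I.Infinite → List.TFAE [
          ∀ X, 𝒱 X → IsSmoothVariety X → ∀ b, TX X b,
          ∀ X, 𝒱 X → ∀ b, TX X b,
          ∀ (m r : ℕ) (e : Fin r → MvPolynomial (Fin m) k), IsElementary S e →
            ∀ b, TX (specOf (Hypersurface e)) b,
          ∀ N ∈ I, ∀ b, TX (specOf (Hypersurface (v N).eqs)) b]) ∧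
        (∀ X, 𝒱 X → ∃ N₀ : ℕ, ∀ N ≥ N₀, ∃ n : ℕ, ∀ b,
          TX (specOf (Hypersurface (v N).eqs)) (b + n) → TX X b) := by
  obtain ⟨v, hv, h⟩ := exists_sequence_summand (k := k) hS
  refine ⟨v, hv, h, fun P hP 𝒱 TX hTX => ?_⟩
  have key : ∀ X, 𝒱 X → ∃ N₀ : ℕ, ∀ N ≥ N₀, ∃ n : ℕ, ∀ b,
      TX (specOf (Hypersurface (v N).eqs)) (b + n) → TX X b := by
    intro X hX
    obtain ⟨B, s, hB, hb⟩ := hTX.torsor X hX
    obtain ⟨N₀, hN₀⟩ := h B hB
    refine ⟨N₀, fun N hN => ?_⟩
    obtain ⟨n, hn⟩ := hN₀ N hN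
    refine ⟨s + n, fun b h1 => (hb b).2 (hP _ _ n hn (b + s) ?_)⟩
    rw [hTX.affine_iff _ (isFiniteType_hypersurface _), Nat.cast_add, ← add_assoc] at h1
    exact h1
  refine ⟨fun I hI => ?_, key⟩
  tfae_have 1 → 3 := fun h m r e _ b =>
    h _ (hTX.affine_mem _ (isFiniteType_hypersurface e)) (isSmoothVariety_hyp e) b
  tfae_have 3 → 4 := fun h2 N _ b => h2 _ _ _ (hv N) b
  tfae_have 4 → 2 := by
    intro h2 X hX b
    obtain ⟨N₀, hN₀⟩ := key X hX
    obtain ⟨N, hN, hN'⟩ := hI.exists_gt N₀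
    obtain ⟨n, hn⟩ := hN₀ N hN'.le
    exact hn b (h2 N hN _)
  tfae_have 2 → 1 := fun h X hX _ b => h X hX b
  tfae_finish

end

end Pool.Agent.K6.H18.Cubic
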