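import Pool.Agent.K6.H18.Cubic.Loc
import Pool.Agent.K6.H18.Cubic.Smooth

/-!
Borel-Moore type theories for affine schemes of finite type.
-/

set_option autoImplicit false

open MvPolynomial

namespace Pool.Agent.K6.H18.Cubic

/-- The data of a Borel-Moore homology theory on the affine schemes of finite type over `k`.
`H B a b` is the group of `Spec B` in degree `a + 2 b` and weight `b`. -/
structure BMData (k : Type) [CommRing k] where
  /-- the groups -/
  H : ∀ (B : Type) [CommRing B] [Algebra k B], ℤ → ℤ → Type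
  [grp : ∀ (B : Type) [CommRing B] [Algebra k B] (a b : ℤ), AddCommGroup (H B a b)]
  /-- push-forward along the closed immersion `Spec C → Spec B` -/
  push : ∀ {B C : Type} [CommRing B] [Algebra k B] [CommRing C] [Algebra k C] (φ : B →ₐ[k] C),
    Function.Surjective φ → ∀ a b : ℤ, H C a b →+ H B a b
  /-- pull-back along the morphism `Spec C → Spec B`, smooth of relative dimension `d` -/
  pull : ∀ {B C : Type} [CommRing B] [Algebra k B] [CommRing C] [Algebra k C] (ψ : B →ₐ[k] C)
    (d : ℕ), SmoothRel d (ψ : B →+* C) → ∀ {b b' : ℤ}, b' = b + d → ∀ a : ℤ, H B a b →+ H C a b'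
  /-- the boundary map of the localization sequence of the closed subscheme `Spec C` of `Spec B`
  defined by the function `f` -/
  bdry : ∀ {B C : Type} [CommRing B] [Algebra k B] [CommRing C] [Algebra k C] (f : B)
    (φ : B →ₐ[k] C), Function.Surjective φ → RingHom.ker φ = Ideal.span {f} →
    ∀ a b : ℤ, H (Localization.Away f) (a + 1) b →+ H C a b

attribute [instance] BMData.grp

namespace BMData
variable {k : Type} [CommRing k] (T : BMData k)

/-- push-forward is functorial -/
def PushComp : Prop :=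
  ∀ {B C D : Type} [CommRing B] [Algebra k B] [CommRing C] [Algebra k C]
    [CommRing D] [Algebra k D] [Algebra.FiniteType k B] (φ : B →ₐ[k] C) (φ' : C →ₐ[k] D)
    (h : Function.Surjective φ) (h' : Function.Surjective φ')
    (h'' : Function.Surjective (φ'.comp φ)) (a b : ℤ) (x : T.H D a b),
    T.push (φ'.comp φ) h'' a b x = T.push φ h a b (T.push φ' h' a b x)

/-- pull-back is functorial -/
def PullComp : Prop :=
  ∀ {B C D : Type} [CommRing B] [Algebra k B] [CommRing C] [Algebra k C]
    [CommRing D] [Algebra k D] [Algebra.FiniteType k B] (ψ : B →ₐ[k] C) (ψ' : C →ₐ[k] D)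
    (d d' d'' : ℕ) (h : SmoothRel d (ψ : B →+* C)) (h' : SmoothRel d' (ψ' : C →+* D))
    (h'' : SmoothRel d'' (ψ'.comp ψ : B →+* D)) {b b' b'' : ℤ} (hb : b' = b + d)
    (hb' : b'' = b' + d') (hb'' : b'' = b + d'') (a : ℤ) (x : T.H B a b),
    T.pull (ψ'.comp ψ) d'' h'' hb'' a x = T.pull ψ' d' h' hb' a (T.pull ψ d h hb a x)

/-- base change for a closed immersion and a smooth morphism -/
def BaseChange : Prop :=
  ∀ {B C B' C' : Type} [CommRing B] [Algebra k B] [CommRing C] [Algebra k C]
    [CommRing B'] [Algebra k B'] [CommRing C'] [Algebra k C'] [Algebra.FiniteType k B]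
    (φ : B →ₐ[k] C) (hφ : Function.Surjective φ) (ψ : B →ₐ[k] B') (φ' : B' →ₐ[k] C')
    (hφ' : Function.Surjective φ') (ψ' : C →ₐ[k] C'), φ'.comp ψ = ψ'.comp φ →
    RingHom.ker φ' = (RingHom.ker φ).map ψ → ∀ (d : ℕ) (h : SmoothRel d (ψ : B →+* B'))
    (h' : SmoothRel d (ψ' : C →+* C')) {b b' : ℤ} (hb : b' = b + d) (a : ℤ) (x : T.H C a b),
    T.pull ψ d h hb a (T.push φ hφ a b x) = T.push φ' hφ' a b' (T.pull ψ' d h' hb a x)

/-- the boundary map commutes with smooth pull-back -/
def BdryNatural : Prop :=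
  ∀ {B C B' C' : Type} [CommRing B] [Algebra k B] [CommRing C] [Algebra k C]
    [CommRing B'] [Algebra k B'] [CommRing C'] [Algebra k C'] [Algebra.FiniteType k B] (f : B)
    (φ : B →ₐ[k] C) (hφ : Function.Surjective φ) (hf : RingHom.ker φ = Ideal.span {f})
    (ψ : B →ₐ[k] B') (φ' : B' →ₐ[k] C') (hφ' : Function.Surjective φ')
    (hf' : RingHom.ker φ' = Ideal.span {ψ f}) (ψ' : C →ₐ[k] C'), φ'.comp ψ = ψ'.comp φ →
    ∀ (d : ℕ), SmoothRel d (ψ : B →+* B') → ∀ (h' : SmoothRel d (ψ' : C →+* C'))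
    (h'' : SmoothRel d (Localization.awayMapₐ ψ f : Localization.Away f →+*
      Localization.Away (ψ f))) {b b' : ℤ} (hb : b' = b + d) (a : ℤ)
    (x : T.H (Localization.Away f) (a + 1) b),
    T.bdry (ψ f) φ' hφ' hf' a b' (T.pull (Localization.awayMapₐ ψ f) d h'' hb (a + 1) x) =
      T.pull ψ' d h' hb a (T.bdry f φ hφ hf a b x)

/-- exactness of the localization sequence at the group of `Spec B` -/
def ExactBase : Prop :=
  ∀ {B C : Type} [CommRing B] [Algebra k B] [CommRing C] [Algebra k C]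
    [Algebra.FiniteType k B] (f : B) (φ : B →ₐ[k] C) (hφ : Function.Surjective φ),
    RingHom.ker φ = Ideal.span {f} → ∀ (h : SmoothRel 0 (loc k f : B →+* Localization.Away f))
    (a b : ℤ) (hb : b = b + (0 : ℕ)),
    Function.Exact (T.push φ hφ a b) (T.pull (loc k f) 0 h hb a)

/-- exactness of the localization sequence at the group of the open subscheme `f ≠ 0` -/
def ExactOpen : Prop :=
  ∀ {B C : Type} [CommRing B] [Algebra k B] [CommRing C] [Algebra k C]
    [Algebra.FiniteType k B] (f : B) (φ : B →ₐ[k] C) (hφ : Function.Surjective φ)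
    (hf : RingHom.ker φ = Ideal.span {f})
    (h : SmoothRel 0 (loc k f : B →+* Localization.Away f)) (a b : ℤ) (hb : b = b + (0 : ℕ)),
    Function.Exact (T.pull (loc k f) 0 h hb (a + 1)) (T.bdry f φ hφ hf a b)

/-- exactness of the localization sequence at the group of the closed subscheme `f = 0` -/
def ExactClosed : Prop :=
  ∀ {B C : Type} [CommRing B] [Algebra k B] [CommRing C] [Algebra k C]
    [Algebra.FiniteType k B] (f : B) (φ : B →ₐ[k] C) (hφ : Function.Surjective φ)
    (hf : RingHom.ker φ = Ideal.span {f}) (a b : ℤ),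
    Function.Exact (T.bdry f φ hφ hf a b) (T.push φ hφ a b)

/-- pull-back to affine spaces is bijective -/
def Homotopy : Prop :=
  ∀ {B C : Type} [CommRing B] [Algebra k B] [CommRing C] [Algebra k C]
    [Algebra.FiniteType k B] (r : ℕ) (σ : MvPolynomial (Fin r) B ≃+* C) (ψ : B →ₐ[k] C),
    (∀ x, ψ x = σ (MvPolynomial.C x)) → ∀ (h : SmoothRel r (ψ : B →+* C)) {b b' : ℤ}
    (hb : b' = b + r) (a : ℤ), Function.Bijective (T.pull ψ r h hb a)

end BMData

/-- Formal properties of a Borel-Moore homology theory on the affine schemes of finite type over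
`k`. -/
structure BorelMoore (k : Type) [CommRing k] extends BMData k where
  push_comp : toBMData.PushComp
  pull_comp : toBMData.PullComp
  base_change : toBMData.BaseChange
  bdry_natural : toBMData.BdryNatural
  exact_base : toBMData.ExactBase
  exact_open : toBMData.ExactOpen
  exact_closed : toBMData.ExactClosed
  homotopy : toBMData.Homotopy


/-- Morphisms of theories. -/
structure BorelMoore.Hom {k : Type} [CommRing k] (S T : BorelMoore k) where
  /-- the homomorphisms -/
  map : ∀ (B : Type) [CommRing B] [Algebra k B] (a b : ℤ), S.H B a b →+ T.H B a b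
  map_push : ∀ {B C : Type} [CommRing B] [Algebra k B] [CommRing C] [Algebra k C]
    [Algebra.FiniteType k B] (φ : B →ₐ[k] C) (hφ : Function.Surjective φ) (a b : ℤ)
    (x : S.H C a b), map B a b (S.push φ hφ a b x) = T.push φ hφ a b (map C a b x)
  map_pull : ∀ {B C : Type} [CommRing B] [Algebra k B] [CommRing C] [Algebra k C]
    [Algebra.FiniteType k B] (ψ : B →ₐ[k] C) (d : ℕ) (h : SmoothRel d (ψ : B →+* C)) {b b' : ℤ}
    (hb : b' = b + d) (a : ℤ) (x : S.H B a b),
    map C a b' (S.pull ψ d h hb a x) = T.pull ψ d h hb a (map B a b x)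

lemma smoothRel_loc (k : Type) [CommRing k] {B : Type} [CommRing B] [Algebra k B] (f : B) :
    SmoothRel 0 (loc k f : B →+* Localization.Away f) :=
  SmoothRel.away f (Localization.Away f)

lemma smoothRel_const (k : Type) [CommRing k] (B : Type) [CommRing B] [Algebra k B] (r : ℕ) :
    SmoothRel r (const k B r : B →+* MvPolynomial (Fin r) B) := by
  have := SmoothRel.mvPolynomial (Fin r) B
  rwa [Nat.card_eq_fintype_card, Fintype.card_fin] at this

lemma smoothRel_of_equiv {k : Type} [CommRing k] {B C : Type} [CommRing B] [Algebra k B]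
    [CommRing C] [Algebra k C] (r : ℕ) (σ : MvPolynomial (Fin r) B ≃+* C) (ψ : B →ₐ[k] C)
    (hψ : ∀ x, ψ x = σ (MvPolynomial.C x)) : SmoothRel r (ψ : B →+* C) := by
  have h := (smoothRel_const k B r).comp (SmoothRel.equiv σ) (d'' := r) (by simp)
  have h2 : (ψ : B →+* C) = (σ : MvPolynomial (Fin r) B →+* C).comp
      (const k B r : B →+* MvPolynomial (Fin r) B) := RingHom.ext hψ
  rw [h2]
  exact h

/-- the element chase for the base case -/
lemma chase0 {HB HC HU HU' HZ HZu : Type} [AddCommGroup HB] [AddCommGroup HC] [AddCommGroup HU]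
    [AddCommGroup HU'] [AddCommGroup HZ] [AddCommGroup HZu] {HB' HC' : Type} [AddCommGroup HB'] [AddCommGroup HC']
    (p : HB →+ HC) (l : HC →+ HU) (i : HZu →+ HC) (δ : HU' →+ HZu) (p' : HB' →+ HC')
    (l' : HC' →+ HU') (q : HZ →+ HZu)
    (h1 : Function.Exact i l) (h2 : Function.Exact δ i) (h3 : Function.Exact l' δ)
    (h4 : Function.Bijective (fun x => l (p x))) (h5 : Function.Bijective (fun x => l' (p' x)))
    (h6 : Function.Bijective q) :
    Function.Bijective (fun x : HB × HZ => p x.1 + i (q x.2)) := by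
  have hli : ∀ z, l (i z) = 0 := fun z => (h1 (i z)).2 ⟨z, rfl⟩
  constructor
  · have key : ∀ x : HB × HZ, p x.1 + i (q x.2) = 0 → x = 0 := by
      rintro ⟨y, z⟩ h
      have h7 : l (p y) = 0 := by
        have := congrArg l h
        simpa [hli] using this
      have hy : y = 0 := h4.1 (by simpa using h7)
      subst hy
      have h8 : i (q z) = 0 := by simpa using h
      obtain ⟨t, ht⟩ := (h2 (q z)).1 h8
      obtain ⟨y', rfl⟩ := h5.2 t
      have h9 : δ (l' (p' y')) = 0 := (h3 _).2 ⟨_, rfl⟩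
      have h10 : q z = 0 := by rw [← ht]; exact h9
      have hz : z = 0 := h6.1 (by simpa using h10)
      rw [hz]; rfl
    intro x y hxy
    have := key (x - y) (by
      have h : p x.1 + i (q x.2) = p y.1 + i (q y.2) := hxy
      simp only [Prod.fst_sub, Prod.snd_sub, map_sub]
      rw [show p x.1 - p y.1 + (i (q x.2) - i (q y.2)) =
        (p x.1 + i (q x.2)) - (p y.1 + i (q y.2)) by abel, h, sub_self])
    exact sub_eq_zero.1 this
  · intro x
    obtain ⟨y, hy⟩ := h4.2 (l x)
    have h7 : l (x - p y) = 0 := by rw [map_sub, ← hy, sub_self]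
    obtain ⟨t, ht⟩ := (h1 _).1 h7
    obtain ⟨z, rfl⟩ := h6.2 t
    refine ⟨(y, z), ?_⟩
    show p y + i (q z) = x
    rw [ht]; abel

/-- the element chase for the induction step -/
lemma chase1 {HU' HBb HB HU HBb' KU' KBb KB KU KBb' HZ : Type} [AddCommGroup HU']
    [AddCommGroup HBb] [AddCommGroup HB] [AddCommGroup HU] [AddCommGroup HBb'] [AddCommGroup KU']
    [AddCommGroup KBb] [AddCommGroup KB] [AddCommGroup KU] [AddCommGroup KBb'] [AddCommGroup HZ]
    (δ₁ : HU' →+ HBb) (φ : HBb →+ HB) (l : HB →+ HU) (δ₀ : HU →+ HBb')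
    (ε₁ : KU' →+ KBb) (χ : KBb →+ KB) (m : KB →+ KU) (ε₀ : KU →+ KBb')
    (pU' : HU' →+ KU') (pb : HBb →+ KBb) (p : HB →+ KB) (pU : HU →+ KU) (pb' : HBb' →+ KBb')
    (i : HZ →+ KB) (ib : HZ →+ KBb)
    (h1 : Function.Exact δ₁ φ) (h2 : Function.Exact φ l) (h3 : Function.Exact l δ₀)
    (k1 : Function.Exact ε₁ χ) (k2 : Function.Exact χ m) (k3 : Function.Exact m ε₀)
    (c1 : ∀ x, ε₁ (pU' x) = pb (δ₁ x)) (c2 : ∀ x, χ (pb x) = p (φ x))
    (c3 : ∀ x, m (p x) = pU (l x)) (c4 : ∀ x, ε₀ (pU x) = pb' (δ₀ x))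
    (ci : ∀ x, χ (ib x) = i x)
    (hU' : Function.Bijective pU') (hU : Function.Bijective pU)
    (hb : Function.Bijective (fun x : HBb × HZ => pb x.1 + ib x.2))
    (hb' : Function.Injective pb') :
    Function.Bijective (fun x : HB × HZ => p x.1 + i x.2) := by
  have hmχ : ∀ z, m (χ z) = 0 := fun z => (k2 (χ z)).2 ⟨z, rfl⟩
  constructor
  · have key : ∀ x : HB × HZ, p x.1 + i x.2 = 0 → x = 0 := by
      rintro ⟨t, z⟩ h
      have h7 : pU (l t) = 0 := by
        have := congrArg m h
        simpa [← ci, hmχ, c3] using this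
      have h8 : l t = 0 := hU.1 (by simpa using h7)
      obtain ⟨s, rfl⟩ := (h2 t).1 h8
      have h9 : χ (pb s + ib z) = 0 := by
        rw [map_add, c2, ci]; exact h
      obtain ⟨y', hy'⟩ := (k1 _).1 h9
      obtain ⟨y, rfl⟩ := hU'.2 y'
      rw [c1] at hy'
      have h10 : ((δ₁ y, 0) : HBb × HZ) = (s, z) := hb.1 (by simpa using hy')
      have h11 : δ₁ y = s := congrArg Prod.fst h10
      have h12 : 0 = z := congrArg Prod.snd h10
      subst h12
      have h13 : φ s = 0 := by rw [← h11]; exact (h1 _).2 ⟨y, rfl⟩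
      rw [h13]; rfl
    intro x y hxy
    have := key (x - y) (by
      have h : p x.1 + i x.2 = p y.1 + i y.2 := hxy
      simp only [Prod.fst_sub, Prod.snd_sub, map_sub]
      rw [show p x.1 - p y.1 + (i x.2 - i y.2) =
        (p x.1 + i x.2) - (p y.1 + i y.2) by abel, h, sub_self])
    exact sub_eq_zero.1 this
  · intro x
    obtain ⟨y, hy⟩ := hU.2 (m x)
    have h7 : pb' (δ₀ y) = 0 := by
      rw [← c4, hy]; exact (k3 _).2 ⟨x, rfl⟩
    have h8 : δ₀ y = 0 := hb' (by simpa using h7)
    obtain ⟨t, rfl⟩ := (h3 _).1 h8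
    have h9 : m (x - p t) = 0 := by rw [map_sub, c3, hy, sub_self]
    obtain ⟨c, hc⟩ := (k2 _).1 h9
    obtain ⟨⟨s, z⟩, rfl⟩ := hb.2 c
    refine ⟨(t + φ s, z), ?_⟩
    show p (t + φ s) + i z = x
    simp only at hc
    rw [map_add, c2, ci] at hc
    rw [map_add, add_assoc, hc]; abel

end Pool.Agent.K6.H18.Cubic
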